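import Pool.Agent.Lib.MP_c23e5f_co.W.FinalW

set_option autoImplicit false

/-!
# MP_c23e5f_co, regularity of the law of the width: U-turns and bumps of loop words
-/

namespace Pool.Agent.Lib.MP_c23e5f_coR

open Pool.Agent.Lib.MP_c23e5f_co

/-- the vertices of a word started at `z`, without the last one -/
def vs : ℤ × ℤ → List (ℤ × ℤ) → List (ℤ × ℤ)
  | _, [] => []
  | z, a :: l => z :: vs (z + a) l

@[simp] lemma vs_nil (z : ℤ × ℤ) : vs z [] = [] := rfl

@[simp] lemma vs_cons (z a : ℤ × ℤ) (l : List (ℤ × ℤ)) : vs z (a :: l) = z :: vs (z + a) l := rfl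

lemma vs_append (z : ℤ × ℤ) (p q : List (ℤ × ℤ)) : vs z (p ++ q) = vs z p ++ vs (z + p.sum) q := by
  induction p generalizing z with
  | nil => simp
  | cons a p ih => simp [ih, add_assoc]

@[simp] lemma length_vs (z : ℤ × ℤ) (w : List (ℤ × ℤ)) : (vs z w).length = w.length := by
  induction w generalizing z with
  | nil => simp
  | cons a w ih => simp [ih]

lemma vs_getElem (z : ℤ × ℤ) (w : List (ℤ × ℤ)) (i : ℕ) (hi : i < (vs z w).length) :
    (vs z w)[i] = z + pos w i := by
  induction w generalizing z i with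
  | nil => simp at hi
  | cons a w ih =>
    cases i with
    | zero => simp
    | succ i =>
      simp only [vs_cons, List.getElem_cons_succ]
      rw [ih]
      simp [pos, add_assoc]

lemma mem_vs {w : List (ℤ × ℤ)} {z : ℤ × ℤ} : z ∈ vs 0 w ↔ ∃ i, i < w.length ∧ pos w i = z := by
  rw [List.mem_iff_getElem]
  constructor
  · rintro ⟨i, hi, h⟩
    rw [vs_getElem] at h
    exact ⟨i, by simpa using hi, by simpa using h⟩
  · rintro ⟨i, hi, h⟩
    exact ⟨i, by simpa using hi, by rw [vs_getElem]; simpa using h⟩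

lemma isLoopWord_iff_vs {N : ℕ} {w : List (ℤ × ℤ)} : IsLoopWord N w ↔
    w.length = N ∧ (∀ v ∈ w, IsStep v) ∧ w.sum = 0 ∧ (vs 0 w).Nodup := by
  constructor
  · intro h
    refine ⟨h.length, h.step, h.sum, ?_⟩
    rw [List.nodup_iff_getElem?_ne_getElem?]
    intro i j hij hj
    have hj' : j < w.length := by simpa using hj
    rw [List.getElem?_eq_getElem (by omega), List.getElem?_eq_getElem (by omega), vs_getElem,
      vs_getElem]
    have := h.inj i j hij (by rw [← h.length]; exact hj')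
    simpa using this
  · rintro ⟨h1, h2, h3, h4⟩
    refine ⟨h1, h2, h3, ?_⟩
    intro i j hij hj heq
    have hi' : i < (vs 0 w).length := by simp; omega
    have hj' : j < (vs 0 w).length := by simp; omega
    have h5 : (vs 0 w)[i] = (vs 0 w)[j] := by rw [vs_getElem, vs_getElem, heq]
    have := (List.Nodup.getElem_inj_iff h4).1 h5
    omega

/-- insert a bump in the direction `a` at the letter `i` -/
def bump (w : List (ℤ × ℤ)) (i : ℕ) (a : ℤ × ℤ) : List (ℤ × ℤ) :=
  w.take i ++ (a :: ((w.drop i).take 1 ++ (-a) :: w.drop (i + 1)))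

/-- flatten the U-turn at the letter `s` -/
def flat (w : List (ℤ × ℤ)) (s : ℕ) : List (ℤ × ℤ) :=
  w.take s ++ ((w.drop (s + 1)).take 1 ++ w.drop (s + 3))

/-- a list which starts with a U-turn -/
def U3 (l : List (ℤ × ℤ)) : Prop := ∃ a b r, l = a :: b :: (-a) :: r ∧ b ≠ a ∧ b ≠ -a

open Classical in
/-- the positions of the U-turns -/
noncomputable def UT (w : List (ℤ × ℤ)) : Finset ℕ :=
  (Finset.range w.length).filter (fun s => U3 (w.drop s))

/-- the number of the U-turns -/
noncomputable def ut (w : List (ℤ × ℤ)) : ℕ := (UT w).card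

lemma exists_split {w : List (ℤ × ℤ)} {i : ℕ} (hi : i < w.length) :
    ∃ p x q, w = p ++ x :: q ∧ p.length = i := by
  refine ⟨w.take i, w[i], w.drop (i + 1), ?_, by simp; omega⟩
  simp

lemma bump_eq (p q : List (ℤ × ℤ)) (x a : ℤ × ℤ) :
    bump (p ++ x :: q) p.length a = p ++ a :: x :: (-a) :: q := by
  simp [bump]

lemma flat_eq (p q : List (ℤ × ℤ)) (x a c : ℤ × ℤ) :
    flat (p ++ a :: x :: c :: q) p.length = p ++ x :: q := by
  simp [flat]

lemma flat_bump {w : List (ℤ × ℤ)} {i : ℕ} (hi : i < w.length) (a : ℤ × ℤ) :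
    flat (bump w i a) i = w := by
  obtain ⟨p, x, q, rfl, rfl⟩ := exists_split hi
  rw [bump_eq, flat_eq]

lemma length_bump {w : List (ℤ × ℤ)} {i : ℕ} (hi : i < w.length) (a : ℤ × ℤ) :
    (bump w i a).length = w.length + 2 := by
  obtain ⟨p, x, q, rfl, rfl⟩ := exists_split hi
  rw [bump_eq]
  simp
  omega

lemma getElem?_bump {w : List (ℤ × ℤ)} {i : ℕ} (hi : i < w.length) (a : ℤ × ℤ) :
    (bump w i a)[i]? = some a := by
  obtain ⟨p, x, q, rfl, rfl⟩ := exists_split hi
  rw [bump_eq]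
  simp

lemma mem_UT {w : List (ℤ × ℤ)} {s : ℕ} : s ∈ UT w ↔
    ∃ p a x q, w = p ++ a :: x :: (-a) :: q ∧ p.length = s ∧ x ≠ a ∧ x ≠ -a := by
  simp only [UT, Finset.mem_filter, Finset.mem_range]
  unfold U3
  constructor
  · rintro ⟨h1, a, x, q, h2, h3⟩
    refine ⟨w.take s, a, x, q, ?_, by simp; omega, h3⟩
    rw [← h2]
    simp
  · rintro ⟨p, a, x, q, rfl, rfl, h3⟩
    refine ⟨by simp, a, x, q, by simp, h3⟩

lemma sum_bump {w : List (ℤ × ℤ)} {i : ℕ} (hi : i < w.length) (a : ℤ × ℤ) :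
    (bump w i a).sum = w.sum := by
  obtain ⟨p, x, q, rfl, rfl⟩ := exists_split hi
  rw [bump_eq]
  simp only [List.sum_append, List.sum_cons]
  abel

lemma step_bump {w : List (ℤ × ℤ)} {i : ℕ} (hi : i < w.length) (a : ℤ × ℤ) :
    (∀ v ∈ bump w i a, IsStep v) ↔ IsStep a ∧ ∀ v ∈ w, IsStep v := by
  obtain ⟨p, x, q, rfl, rfl⟩ := exists_split hi
  rw [bump_eq]
  constructor
  · intro h
    refine ⟨h a (by simp), fun v hv => h v ?_⟩
    simp only [List.mem_append, List.mem_cons] at hv ⊢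
    tauto
  · rintro ⟨h1, h2⟩ v hv
    simp only [List.mem_append, List.mem_cons] at hv h2
    rcases hv with hv | rfl | rfl | rfl | hv
    · exact h2 _ (Or.inl hv)
    · exact h1
    · exact h2 _ (Or.inr (Or.inl rfl))
    · exact isStep_neg h1
    · exact h2 _ (Or.inr (Or.inr hv))

lemma vs_bump {w : List (ℤ × ℤ)} {i : ℕ} (hi : i < w.length) (a : ℤ × ℤ) :
    (vs 0 (bump w i a)).Perm ((pos w i + a) :: (pos w (i + 1) + a) :: vs 0 w) := by
  obtain ⟨p, x, q, rfl, rfl⟩ := exists_split hi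
  rw [bump_eq]
  have e1 : pos (p ++ x :: q) p.length = p.sum := by simp [pos]
  have e2 : pos (p ++ x :: q) (p.length + 1) = p.sum + x := by
    rw [show p ++ x :: q = (p ++ [x]) ++ q by simp, pos_append_left (by simp)]
    simp [pos]
  rw [e1, e2, vs_append, vs_append]
  simp only [vs_cons, zero_add]
  have e3 : p.sum + a + x + -a = p.sum + x := by abel
  have e4 : p.sum + x + a = p.sum + a + x := by abel
  rw [e3, e4]
  have h1 : (vs 0 p ++ p.sum :: (p.sum + a) :: (p.sum + a + x) :: vs (p.sum + x) q).Perm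
      (vs 0 p ++ (p.sum + a) :: (p.sum + a + x) :: p.sum :: vs (p.sum + x) q) := by
    apply List.Perm.append_left
    exact (List.Perm.swap _ _ _).trans (List.Perm.cons _ (List.Perm.swap _ _ _))
  refine h1.trans ?_
  refine (List.perm_middle).trans ?_
  exact List.Perm.cons _ (List.perm_middle)

/-- adding and removing a bump at different places -/
lemma bump_comm {w : List (ℤ × ℤ)} {i j : ℕ} (hij : i < j) (hj : j < w.length) (a b : ℤ × ℤ) :
    bump (bump w j b) i a = bump (bump w i a) (j + 2) b := by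
  obtain ⟨p, x, r, rfl, rfl⟩ := exists_split (show i < w.length by omega)
  have h1 : j - p.length - 1 < r.length := by simp at hj; omega
  obtain ⟨m, y, q, rfl, hm⟩ := exists_split h1
  have e1 : j = (p ++ x :: m).length := by simp; omega
  have e2 : j + 2 = (p ++ a :: x :: (-a) :: m).length := by simp; omega
  rw [bump_eq p (m ++ y :: q) x a,
    show p ++ x :: (m ++ y :: q) = (p ++ x :: m) ++ y :: q by simp, e1, bump_eq,
    show (p ++ x :: m) ++ b :: y :: (-b) :: q = p ++ x :: (m ++ b :: y :: (-b) :: q) by simp,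
    bump_eq, ← e1, e2,
    show p ++ a :: x :: (-a) :: (m ++ y :: q) = (p ++ a :: x :: (-a) :: m) ++ y :: q by simp,
    bump_eq]
  simp

lemma pos_bump_le {w : List (ℤ × ℤ)} {i j : ℕ} (hij : i ≤ j) (hj : j < w.length) (b : ℤ × ℤ) :
    pos (bump w j b) i = pos w i := by
  obtain ⟨p, x, q, rfl, rfl⟩ := exists_split hj
  rw [bump_eq, pos_append_left hij, pos_append_left hij]

/-- the vertices of a word with two bumps -/
lemma vs_bump2 {w : List (ℤ × ℤ)} {i j : ℕ} (hij : i < j) (hj : j < w.length) (a b : ℤ × ℤ) :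
    (vs 0 (bump (bump w j b) i a)).Perm ((pos w i + a) :: (pos w (i + 1) + a) ::
      (pos w j + b) :: (pos w (j + 1) + b) :: vs 0 w) := by
  have h1 := vs_bump (w := bump w j b) (i := i) (by rw [length_bump hj]; omega) a
  rw [pos_bump_le hij.le hj, pos_bump_le (by omega) hj] at h1
  exact h1.trans (List.Perm.cons _ (List.Perm.cons _ (vs_bump hj b)))

lemma drop_bump {w : List (ℤ × ℤ)} {i j : ℕ} (hij : i < j) (hi : i < w.length) (a : ℤ × ℤ) :
    (bump w i a).drop (j + 2) = w.drop j := by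
  obtain ⟨p, x, q, rfl, rfl⟩ := exists_split hi
  obtain ⟨k, rfl⟩ : ∃ k, j = p.length + 1 + k := ⟨j - p.length - 1, by omega⟩
  have h : ∀ (u v : List (ℤ × ℤ)) (n : ℕ), u.length + k = n → (u ++ v).drop n = v.drop k := by
    rintro u v n rfl
    rw [List.drop_append, List.drop_eq_nil_of_le (by omega)]
    simp
  rw [bump_eq, show p ++ a :: x :: (-a) :: q = (p ++ [a, x, -a]) ++ q by simp,
    h (p ++ [a, x, -a]) q _ (by simp; omega),
    show p ++ x :: q = (p ++ [x]) ++ q by simp, h (p ++ [x]) q _ (by simp)]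

lemma mem_UT' {w : List (ℤ × ℤ)} {s : ℕ} : s ∈ UT w ↔ s < w.length ∧ U3 (w.drop s) := by
  simp only [UT, Finset.mem_filter, Finset.mem_range]

open Classical in
lemma ut_cons (a : ℤ × ℤ) (l : List (ℤ × ℤ)) :
    ut (a :: l) = (if U3 (a :: l) then 1 else 0) + ut l := by
  unfold ut UT
  rw [Finset.card_filter, Finset.card_filter, List.length_cons, Finset.sum_range_succ']
  simp [add_comm]

lemma U3_iff (a b c : ℤ × ℤ) (l : List (ℤ × ℤ)) :
    U3 (a :: b :: c :: l) ↔ c = -a ∧ b ≠ a ∧ b ≠ -a := by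
  unfold U3
  constructor
  · rintro ⟨a', b', r, h, h1, h2⟩
    simp only [List.cons.injEq] at h
    obtain ⟨rfl, rfl, rfl, rfl⟩ := h
    exact ⟨rfl, h1, h2⟩
  · rintro ⟨rfl, h1, h2⟩
    exact ⟨a, b, l, rfl, h1, h2⟩

lemma not_U3_short {l : List (ℤ × ℤ)} (h : l.length < 3) : ¬ U3 l := by
  rintro ⟨a, b, r, rfl, -⟩
  simp at h
  omega

lemma ut_nil : ut [] = 0 := by
  simp [ut, UT]

lemma ut_append (p r : List (ℤ × ℤ)) :
    ut p + ut r ≤ ut (p ++ r) ∧ ut (p ++ r) ≤ ut p + min p.length 2 + ut r := by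
  classical
  induction p with
  | nil => simp [ut_nil]
  | cons a p ih =>
    rw [List.cons_append, ut_cons, ut_cons]
    rcases p with _ | ⟨b, _ | ⟨c, p⟩⟩
    · rw [if_neg (not_U3_short (l := [a]) (by simp))]
      simp only [List.nil_append, ut_nil, List.length_cons, List.length_nil] at ih ⊢
      split_ifs <;> omega
    · rw [if_neg (not_U3_short (l := [a, b]) (by simp))]
      simp only [List.cons_append, List.nil_append, List.length_cons, List.length_nil] at ih ⊢
      split_ifs <;> omega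
    · have h : U3 (a :: (b :: c :: p ++ r)) ↔ U3 (a :: b :: c :: p) := by
        simp only [List.cons_append]
        rw [U3_iff, U3_iff]
      simp only [h]
      simp only [List.length_cons] at ih ⊢
      split_ifs <;> omega

lemma ut_bump_le {w : List (ℤ × ℤ)} {i : ℕ} (hi : i < w.length) (a : ℤ × ℤ) :
    ut (bump w i a) ≤ ut w + 5 := by
  classical
  obtain ⟨p, x, q, rfl, rfl⟩ := exists_split hi
  rw [bump_eq]
  have h1 := (ut_append p (a :: x :: (-a) :: q)).2
  have h2 := (ut_append p (x :: q)).1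
  rw [ut_cons, ut_cons, ut_cons] at h1
  rw [ut_cons] at h2
  split_ifs at h1 h2 <;> omega

lemma ut_le (w : List (ℤ × ℤ)) : ut w ≤ w.length := by
  classical
  unfold ut UT
  refine (Finset.card_le_card (Finset.filter_subset _ _)).trans ?_
  simp

/-! ### loop words -/

lemma pos_mem_vs {w : List (ℤ × ℤ)} {i : ℕ} (hi : i < w.length) : pos w i ∈ vs 0 w :=
  mem_vs.2 ⟨i, hi, rfl⟩

lemma pos_succ_mem_vs {N : ℕ} {w : List (ℤ × ℤ)} (hw : IsLoopWord N w) {i : ℕ} (hi : i < N) :
    pos w (i + 1) ∈ vs 0 w := by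
  rcases Nat.lt_or_ge (i + 1) N with h | h
  · exact pos_mem_vs (by rw [hw.length]; exact h)
  · have h1 : i + 1 = w.length := by rw [hw.length]; omega
    rw [h1, pos_length, hw.sum, ← pos_zero w]
    exact pos_mem_vs (by omega)

lemma pos_succ_eq {N : ℕ} {w : List (ℤ × ℤ)} (hw : IsLoopWord N w) {i : ℕ} (hi : i < N) :
    ∃ x, IsStep x ∧ w[i]? = some x ∧ pos w (i + 1) = pos w i + x := by
  have h : i < w.length := by rw [hw.length]; exact hi
  refine ⟨w[i], hw.step _ (List.getElem_mem h), by simp [h], ?_⟩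
  have := pos_succ_sub h
  rw [← this]
  abel

lemma step_ne_zero {x : ℤ × ℤ} (hx : IsStep x) : x ≠ 0 := by
  rintro rfl
  simp [IsStep] at hx

lemma loop_bump {N : ℕ} {w : List (ℤ × ℤ)} (hw : IsLoopWord N w) {i : ℕ} (hi : i < N)
    {a : ℤ × ℤ} : IsLoopWord (N + 2) (bump w i a) ↔
      IsStep a ∧ pos w i + a ∉ vs 0 w ∧ pos w (i + 1) + a ∉ vs 0 w := by
  have hi' : i < w.length := by rw [hw.length]; exact hi
  obtain ⟨x, hx, -, hx2⟩ := pos_succ_eq hw hi
  have hn := (isLoopWord_iff_vs.1 hw).2.2.2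
  rw [isLoopWord_iff_vs, length_bump hi', step_bump hi', sum_bump hi', (vs_bump hi' a).nodup_iff,
    List.nodup_cons, List.nodup_cons, List.mem_cons]
  constructor
  · rintro ⟨-, ⟨h1, -⟩, -, h2, h3, -⟩
    exact ⟨h1, fun h => h2 (Or.inr h), h3⟩
  · rintro ⟨h1, h2, h3⟩
    refine ⟨by rw [hw.length], ⟨h1, hw.step⟩, hw.sum, ?_, h3, hn⟩
    rintro (h | h)
    · rw [hx2] at h
      have h4 : pos w i + a = pos w i + x + a := h
      have : x = 0 := by
        have h5 : pos w i + x + a = pos w i + a + x := by abel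
        rw [h5] at h4
        simpa using h4
      exact step_ne_zero hx this
    · exact h2 h

lemma bump_perp {N : ℕ} {w : List (ℤ × ℤ)} (hw : IsLoopWord N w) {i : ℕ} (hi : i < N)
    {a : ℤ × ℤ} (h : IsLoopWord (N + 2) (bump w i a)) : i ∈ UT (bump w i a) := by
  have hi' : i < w.length := by rw [hw.length]; exact hi
  obtain ⟨ha, h1, h2⟩ := (loop_bump hw hi).1 h
  have h3 := pos_succ_mem_vs hw hi
  have h4 := pos_mem_vs hi'
  obtain ⟨x, hx, hx1, hx2⟩ := pos_succ_eq hw hi
  obtain ⟨p, y, q, hpq, hp⟩ := exists_split hi'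
  have hxy : y = x := by
    rw [hpq, ← hp] at hx1
    simpa using hx1
  subst hxy
  rw [mem_UT]
  refine ⟨p, a, y, q, ?_, hp, ?_, ?_⟩
  · rw [hpq, ← hp, bump_eq]
  · rintro rfl
    rw [hx2] at h3
    exact h1 h3
  · rintro rfl
    rw [hx2] at h2
    exact h2 (by simpa using h4)

lemma loop_flat {N : ℕ} {w : List (ℤ × ℤ)} (hw : IsLoopWord (N + 2) w) {s : ℕ}
    (hs : s ∈ UT w) : s < N ∧ IsLoopWord N (flat w s) ∧
      ∃ a, IsStep a ∧ w[s]? = some a ∧ bump (flat w s) s a = w := by
  obtain ⟨p, a, x, q, rfl, rfl, h1, h2⟩ := mem_UT.1 hs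
  have hl := hw.length
  simp only [List.length_append, List.length_cons] at hl
  have hlt : p.length < (p ++ x :: q).length := by simp
  obtain ⟨k1, k2, k3, k4⟩ := isLoopWord_iff_vs.1 hw
  rw [flat_eq]
  rw [← bump_eq] at k2 k3 k4 ⊢
  rw [step_bump hlt] at k2
  rw [sum_bump hlt] at k3
  rw [(vs_bump hlt a).nodup_iff, List.nodup_cons, List.nodup_cons] at k4
  refine ⟨by omega, isLoopWord_iff_vs.2 ⟨by simp; omega, k2.2, k3, k4.2.2⟩, a, k2.1, ?_, rfl⟩
  exact getElem?_bump hlt a

lemma loop_bump2 {N : ℕ} {w : List (ℤ × ℤ)} (hw : IsLoopWord N w) {i j : ℕ} (hij : i < j)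
    (hj : j < N) {a b : ℤ × ℤ} (ha : IsLoopWord (N + 2) (bump w i a))
    (hb : IsLoopWord (N + 2) (bump w j b))
    (hd : pos w i + a ≠ pos w j + b ∧ pos w i + a ≠ pos w (j + 1) + b ∧
      pos w (i + 1) + a ≠ pos w j + b ∧ pos w (i + 1) + a ≠ pos w (j + 1) + b) :
    IsLoopWord (N + 4) (bump (bump w j b) i a) := by
  have hj' : j < w.length := by rw [hw.length]; exact hj
  have hw2 := hb
  have e1 : pos (bump w j b) i = pos w i := pos_bump_le hij.le hj' b
  have e2 : pos (bump w j b) (i + 1) = pos w (i + 1) := pos_bump_le (by omega) hj' b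
  obtain ⟨h1, h2, h3⟩ := (loop_bump hw (by omega)).1 ha
  have h4 : ∀ z, z ∈ vs 0 (bump w j b) ↔ z = pos w j + b ∨ z = pos w (j + 1) + b ∨ z ∈ vs 0 w := by
    intro z
    rw [(vs_bump hj' b).mem_iff, List.mem_cons, List.mem_cons]
  rw [show N + 4 = (N + 2) + 2 by ring, loop_bump hb (by omega), e1, e2, h4, h4]
  exact ⟨h1, by tauto, by tauto⟩

lemma bump2_mem_UT {N : ℕ} {w : List (ℤ × ℤ)} (hw : IsLoopWord N w) {i j : ℕ} (hij : i < j)
    (hj : j < N) {a b : ℤ × ℤ} (hb : IsLoopWord (N + 2) (bump w j b))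
    (hab : IsLoopWord (N + 4) (bump (bump w j b) i a)) :
    i ∈ UT (bump (bump w j b) i a) ∧ j + 2 ∈ UT (bump (bump w j b) i a) := by
  have hj' : j < w.length := by rw [hw.length]; exact hj
  refine ⟨bump_perp hb (by omega) hab, ?_⟩
  have h1 := bump_perp hw hj hb
  rw [mem_UT'] at h1 ⊢
  have hl : i < (bump w j b).length := by rw [length_bump hj']; omega
  rw [length_bump hl, drop_bump hij hl]
  exact ⟨by omega, h1.2⟩

/-! ### the width -/

/-- the width of a set of points -/
def wdF (S : Finset (ℤ × ℤ)) : ℕ := (S ×ˢ S).sup (fun p => (p.1.1 - p.2.1).natAbs)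

/-- the set of the vertices of a word -/
def VV (w : List (ℤ × ℤ)) : Finset (ℤ × ℤ) := (vs 0 w).toFinset

/-- the width of a word -/
def wd (w : List (ℤ × ℤ)) : ℕ := wdF (VV w)

lemma le_wdF {S : Finset (ℤ × ℤ)} {u v : ℤ × ℤ} (hu : u ∈ S) (hv : v ∈ S) :
    (u.1 - v.1).natAbs ≤ wdF S :=
  Finset.le_sup (f := fun p : (ℤ × ℤ) × (ℤ × ℤ) => (p.1.1 - p.2.1).natAbs)
    (Finset.mk_mem_product hu hv)

lemma wdF_le {S : Finset (ℤ × ℤ)} {D : ℕ} (h : ∀ u ∈ S, ∀ v ∈ S, (u.1 - v.1).natAbs ≤ D) :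
    wdF S ≤ D :=
  Finset.sup_le (fun p hp => h p.1 (Finset.mem_product.1 hp).1 p.2 (Finset.mem_product.1 hp).2)

lemma wdF_mono {S T : Finset (ℤ × ℤ)} (h : S ⊆ T) : wdF S ≤ wdF T :=
  wdF_le (fun _ hu _ hv => le_wdF (h hu) (h hv))

lemma exists_wdF {S : Finset (ℤ × ℤ)} (hS : S.Nonempty) :
    ∃ u ∈ S, ∃ v ∈ S, (u.1 - v.1).natAbs = wdF S := by
  obtain ⟨p, hp, h⟩ := Finset.exists_mem_eq_sup (S ×ˢ S) (hS.product hS)
    (fun p : (ℤ × ℤ) × (ℤ × ℤ) => (p.1.1 - p.2.1).natAbs)
  exact ⟨p.1, (Finset.mem_product.1 hp).1, p.2, (Finset.mem_product.1 hp).2, h.symm⟩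

lemma wdF_union {S E F : Finset (ℤ × ℤ)} (hS : S.Nonempty) (hE : wdF (E ∪ S) = wdF S)
    (hF : wdF (F ∪ S) = wdF S) : wdF (E ∪ (F ∪ S)) = wdF S := by
  apply le_antisymm _ (wdF_mono (fun z hz => by simp [hz]))
  obtain ⟨u, hu, v, hv, huv⟩ := exists_wdF hS
  have key : ∀ z ∈ E ∪ (F ∪ S), (z.1 - u.1).natAbs ≤ wdF S ∧ (z.1 - v.1).natAbs ≤ wdF S := by
    intro z hz
    simp only [Finset.mem_union] at hz
    rcases hz with hz | hz | hz
    · rw [← hE]
      exact ⟨le_wdF (by simp [hz]) (by simp [hu]), le_wdF (by simp [hz]) (by simp [hv])⟩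
    · rw [← hF]
      exact ⟨le_wdF (by simp [hz]) (by simp [hu]), le_wdF (by simp [hz]) (by simp [hv])⟩
    · exact ⟨le_wdF hz hu, le_wdF hz hv⟩
  apply wdF_le
  intro z hz t ht
  have h1 := key z hz
  have h2 := key t ht
  omega

lemma VV_bump {w : List (ℤ × ℤ)} {i : ℕ} (hi : i < w.length) (a : ℤ × ℤ) :
    VV (bump w i a) = {pos w i + a, pos w (i + 1) + a} ∪ VV w := by
  unfold VV
  rw [List.toFinset_eq_of_perm _ _ (vs_bump hi a)]
  ext z
  simp

lemma VV_bump2 {w : List (ℤ × ℤ)} {i j : ℕ} (hij : i < j) (hj : j < w.length) (a b : ℤ × ℤ) :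
    VV (bump (bump w j b) i a) =
      {pos w i + a, pos w (i + 1) + a} ∪ ({pos w j + b, pos w (j + 1) + b} ∪ VV w) := by
  unfold VV
  rw [List.toFinset_eq_of_perm _ _ (vs_bump2 hij hj a b)]
  ext z
  simp
  tauto

lemma VV_nonempty {w : List (ℤ × ℤ)} (h : w ≠ []) : (VV w).Nonempty := by
  obtain ⟨a, l, rfl⟩ := List.exists_cons_of_ne_nil h
  exact ⟨0, by simp [VV]⟩

/-- two bumps which preserve the width preserve it together -/
lemma wd_bump2 {w : List (ℤ × ℤ)} {i j : ℕ} (hij : i < j) (hj : j < w.length) (a b : ℤ × ℤ)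
    (ha : wd (bump w i a) = wd w) (hb : wd (bump w j b) = wd w) :
    wd (bump (bump w j b) i a) = wd w := by
  unfold wd at *
  rw [VV_bump (by omega)] at ha
  rw [VV_bump hj] at hb
  rw [VV_bump2 hij hj]
  exact wdF_union (VV_nonempty (by rintro rfl; simp at hj)) ha hb

/-- at most four U-turns change the width -/
lemma bad_flat {N : ℕ} {w : List (ℤ × ℤ)} (hw : IsLoopWord (N + 2) w) :
    ((UT w).filter (fun s => wd (flat w s) ≠ wd w)).card ≤ 4 := by
  have hne : w ≠ [] := by
    rintro rfl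
    have := hw.length
    simp at this
  obtain ⟨u, hu, v, hv, huv⟩ := exists_wdF (VV_nonempty hne)
  unfold VV at hu hv
  rw [List.mem_toFinset, mem_vs] at hu hv
  obtain ⟨k, hk, rfl⟩ := hu
  obtain ⟨l, hl, rfl⟩ := hv
  have hsub : (UT w).filter (fun s => wd (flat w s) ≠ wd w) ⊆ {k - 1, k - 2, l - 1, l - 2} := by
    intro s hs
    rw [Finset.mem_filter] at hs
    obtain ⟨hs, hbad⟩ := hs
    by_contra hcon
    simp only [Finset.mem_insert, Finset.mem_singleton, not_or] at hcon
    apply hbad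
    obtain ⟨hsN, hfl, a, ha, hwa, hb⟩ := loop_flat hw hs
    have hs' : s < (flat w s).length := by rw [hfl.length]; exact hsN
    have hwl := hw.length
    -- the removed vertices
    obtain ⟨p, a', x, q, hpq, hp, -, -⟩ := mem_UT.1 hs
    have hfs : flat w s = p ++ x :: q := by rw [hpq, ← hp, flat_eq]
    have haa : a = a' := by
      rw [hpq, ← hp] at hwa
      simpa using hwa.symm
    have e1 : pos (flat w s) s + a = pos w (s + 1) := by
      rw [hfs, hpq, ← hp, haa]
      rw [show p ++ a' :: x :: (-a') :: q = (p ++ [a']) ++ (x :: (-a') :: q) by simp,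
        pos_append_left (u := p) (by simp), pos_append_left (u := p ++ [a']) (by simp)]
      simp [pos]
    have e2 : pos (flat w s) (s + 1) + a = pos w (s + 2) := by
      rw [hfs, hpq, ← hp, haa]
      rw [show p ++ a' :: x :: (-a') :: q = (p ++ [a', x]) ++ ((-a') :: q) by simp,
        show p ++ x :: q = (p ++ [x]) ++ q by simp,
        pos_append_left (u := p ++ [x]) (by simp), pos_append_left (u := p ++ [a', x]) (by simp)]
      simp [pos]
      abel
    have hV : VV w = {pos w (s + 1), pos w (s + 2)} ∪ VV (flat w s) := by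
      rw [← e1, ← e2, ← VV_bump hs', hb]
    have hk' : pos w k ∈ VV (flat w s) := by
      have h1 : pos w k ∈ VV w := List.mem_toFinset.2 (pos_mem_vs hk)
      rw [hV] at h1
      simp only [Finset.mem_union, Finset.mem_insert, Finset.mem_singleton] at h1
      rcases h1 with (h1 | h1) | h1
      · exfalso
        rcases lt_trichotomy k (s + 1) with h | h | h
        · exact hw.inj _ _ h (by omega) h1
        · omega
        · exact hw.inj _ _ h (by omega) h1.symm
      · exfalso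
        rcases lt_trichotomy k (s + 2) with h | h | h
        · exact hw.inj _ _ h (by omega) h1
        · omega
        · exact hw.inj _ _ h (by omega) h1.symm
      · exact h1
    have hl' : pos w l ∈ VV (flat w s) := by
      have h1 : pos w l ∈ VV w := List.mem_toFinset.2 (pos_mem_vs hl)
      rw [hV] at h1
      simp only [Finset.mem_union, Finset.mem_insert, Finset.mem_singleton] at h1
      rcases h1 with (h1 | h1) | h1
      · exfalso
        rcases lt_trichotomy l (s + 1) with h | h | h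
        · exact hw.inj _ _ h (by omega) h1
        · omega
        · exact hw.inj _ _ h (by omega) h1.symm
      · exfalso
        rcases lt_trichotomy l (s + 2) with h | h | h
        · exact hw.inj _ _ h (by omega) h1
        · omega
        · exact hw.inj _ _ h (by omega) h1.symm
      · exact h1
    apply le_antisymm
    · apply wdF_mono
      rw [hV]
      exact Finset.subset_union_right
    · unfold wd
      rw [← huv]
      exact le_wdF hk' hl'
  refine (Finset.card_le_card hsub).trans ?_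
  exact Finset.card_le_four

end Pool.Agent.Lib.MP_c23e5f_coR
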