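import Pool.Agent.Lib.MP_c23e5f_coR.R1Bump

set_option autoImplicit false

/-!
# MP_c23e5f_co, regularity of the law of the width: the first and the second moment
-/

namespace Pool.Agent.Lib.MP_c23e5f_coR

open Pool.Agent.Lib.MP_c23e5f_co

lemma finite_LW (N : ℕ) : {w : List (ℤ × ℤ) | IsLoopWord N w}.Finite :=
  (finite_words N).subset (fun w (hw : IsLoopWord N w) => ⟨hw.step, hw.length⟩)

/-- the loop words of length `N` -/
noncomputable def LW (N : ℕ) : Finset (List (ℤ × ℤ)) := (finite_LW N).toFinset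

lemma mem_LW {N : ℕ} {w : List (ℤ × ℤ)} : w ∈ LW N ↔ IsLoopWord N w := by
  simp [LW]

/-- the four unit steps -/
def Steps : Finset (ℤ × ℤ) := {(1, 0), (-1, 0), (0, 1), (0, -1)}

lemma mem_Steps {v : ℤ × ℤ} : v ∈ Steps ↔ IsStep v := isStep_iff.symm

lemma card_Steps : Steps.card = 4 := by decide

/-- the weight of a bump -/
noncomputable def kap (m : ℝ) (v : ℕ) : ℝ := 1 / max (v : ℝ) m

lemma kap_nonneg {m : ℝ} (hm : 0 < m) (v : ℕ) : 0 ≤ kap m v := by
  unfold kap
  have : 0 < max (v : ℝ) m := lt_max_of_lt_right hm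
  positivity

lemma kap_le {m : ℝ} (hm : 0 < m) (v : ℕ) : kap m v ≤ 1 / m := by
  unfold kap
  exact one_div_le_one_div_of_le hm (le_max_right _ _)

lemma mul_kap_le {m : ℝ} (hm : 0 < m) (v : ℕ) : v * kap m v ≤ 1 := by
  unfold kap
  rw [mul_one_div, div_le_one (lt_max_of_lt_right hm)]
  exact le_max_left _ _

lemma kap_comp {m : ℝ} (hm : 0 < m) {v v' : ℕ} (h : v' ≤ v + 5) :
    kap m v ≤ (1 + 5 / m) * kap m v' := by
  unfold kap
  have h1 : 0 < max (v : ℝ) m := lt_max_of_lt_right hm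
  have h2 : 0 < max (v' : ℝ) m := lt_max_of_lt_right hm
  rw [mul_one_div, div_le_div_iff₀ h1 h2, one_mul]
  have h3 : (v' : ℝ) ≤ v + 5 := by exact_mod_cast h
  have h4 : 5 ≤ 5 / m * max (v : ℝ) m := by
    rw [div_mul_eq_mul_div, le_div_iff₀ hm]
    have := le_max_right (v : ℝ) m
    linarith
  have h5 := le_max_left (v : ℝ) m
  have h6 := le_max_right (v : ℝ) m
  calc max (v' : ℝ) m ≤ max (v : ℝ) m + 5 := max_le (by linarith) (by linarith)
    _ ≤ max (v : ℝ) m + 5 / m * max (v : ℝ) m := by linarith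
    _ = _ := by ring

open Classical in
/-- the bumps which give a loop word of the same width -/
noncomputable def Bm (N : ℕ) (w : List (ℤ × ℤ)) : Finset (ℕ × (ℤ × ℤ)) :=
  (Finset.range N ×ˢ Steps).filter
    (fun e => IsLoopWord (N + 2) (bump w e.1 e.2) ∧ wd (bump w e.1 e.2) = wd w)

lemma mem_Bm {N : ℕ} {w : List (ℤ × ℤ)} {e : ℕ × (ℤ × ℤ)} : e ∈ Bm N w ↔
    (e.1 < N ∧ e.2 ∈ Steps) ∧ IsLoopWord (N + 2) (bump w e.1 e.2) ∧
      wd (bump w e.1 e.2) = wd w := by
  simp only [Bm, Finset.mem_filter, Finset.mem_product, Finset.mem_range]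

lemma card_Bm_le (N : ℕ) (w : List (ℤ × ℤ)) : (Bm N w).card ≤ 4 * N := by
  classical
  unfold Bm
  refine (Finset.card_le_card (Finset.filter_subset _ _)).trans ?_
  rw [Finset.card_product, card_Steps, Finset.card_range, mul_comm]

/-- the weighted number of the bumps -/
noncomputable def GG (m : ℝ) (N : ℕ) (w : List (ℤ × ℤ)) : ℝ :=
  ∑ e ∈ Bm N w, kap m (ut (bump w e.1 e.2))

/-- the letter at the place `s` -/
def ltr (w : List (ℤ × ℤ)) (s : ℕ) : ℤ × ℤ := (w[s]?).getD 0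

lemma ltr_bump {w : List (ℤ × ℤ)} {i : ℕ} (hi : i < w.length) (a : ℤ × ℤ) :
    ltr (bump w i a) i = a := by
  simp [ltr, getElem?_bump hi]

/-- the first moment -/
theorem first_moment {N : ℕ} {m : ℝ} (hm : 0 < m) {φ : ℕ → ℝ} (hφ : ∀ k, 0 ≤ φ k) :
    ∑ w ∈ LW (N + 2), φ (wd w) * (((ut w : ℝ) - 4) * kap m (ut w)) ≤
      ∑ w ∈ LW N, φ (wd w) * GG m N w := by
  classical
  set good : List (ℤ × ℤ) → Finset ℕ := fun w => (UT w).filter (fun s => wd (flat w s) = wd w)
    with hgood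
  have h1 : ∀ w ∈ LW (N + 2), φ (wd w) * (((ut w : ℝ) - 4) * kap m (ut w)) ≤
      ∑ _s ∈ good w, φ (wd w) * kap m (ut w) := by
    intro w hw
    rw [Finset.sum_const, nsmul_eq_mul]
    have h2 : (ut w : ℝ) - 4 ≤ (good w).card := by
      have h3 := bad_flat (mem_LW.1 hw)
      have h4 := Finset.card_filter_add_card_filter_not (s := UT w)
        (fun s => wd (flat w s) = wd w)
      have h5 : ut w ≤ (good w).card + 4 := by
        unfold ut
        simp only [hgood]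
        have h6 : ((UT w).filter (fun s => ¬ wd (flat w s) = wd w)).card ≤ 4 := h3
        omega
      have h6 : (ut w : ℝ) ≤ (good w).card + 4 := by exact_mod_cast h5
      linarith
    have h3 : 0 ≤ φ (wd w) * kap m (ut w) := mul_nonneg (hφ _) (kap_nonneg hm _)
    calc φ (wd w) * (((ut w : ℝ) - 4) * kap m (ut w)) =
          ((ut w : ℝ) - 4) * (φ (wd w) * kap m (ut w)) := by ring
      _ ≤ (good w).card * (φ (wd w) * kap m (ut w)) := mul_le_mul_of_nonneg_right h2 h3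
  refine (Finset.sum_le_sum h1).trans ?_
  have e1 : ∀ w ∈ LW N, φ (wd w) * GG m N w =
      ∑ e ∈ Bm N w, φ (wd w) * kap m (ut (bump w e.1 e.2)) := by
    intro w _
    rw [GG, Finset.mul_sum]
  rw [Finset.sum_congr rfl e1, Finset.sum_sigma', Finset.sum_sigma']
  set H : (Σ _ : List (ℤ × ℤ), ℕ × (ℤ × ℤ)) → ℝ :=
    fun y => φ (wd y.1) * kap m (ut (bump y.1 y.2.1 y.2.2)) with hH
  set im : (Σ _ : List (ℤ × ℤ), ℕ) → (Σ _ : List (ℤ × ℤ), ℕ × (ℤ × ℤ)) :=
    fun x => ⟨flat x.1 x.2, (x.2, ltr x.1 x.2)⟩ with him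
  have key : ∀ x ∈ (LW (N + 2)).sigma good, im x ∈ (LW N).sigma (Bm N) ∧
      bump (im x).1 (im x).2.1 (im x).2.2 = x.1 ∧ wd (im x).1 = wd x.1 := by
    rintro ⟨w, s⟩ hx
    rw [Finset.mem_sigma] at hx
    obtain ⟨hw, hs⟩ := hx
    simp only [hgood, Finset.mem_filter] at hs
    obtain ⟨hs, hwd⟩ := hs
    obtain ⟨hsN, hfl, a, ha, hwa, hb⟩ := loop_flat (mem_LW.1 hw) hs
    have hl : ltr w s = a := by simp [ltr, hwa]
    simp only [him, hl]
    refine ⟨?_, hb, hwd⟩
    rw [Finset.mem_sigma]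
    refine ⟨mem_LW.2 hfl, mem_Bm.2 ⟨⟨hsN, mem_Steps.2 ha⟩, ?_, ?_⟩⟩
    · simp only
      rw [hb]
      exact mem_LW.1 hw
    · simp only
      rw [hb, hwd]
  have hinj : Set.InjOn im ((LW (N + 2)).sigma good : Finset _) := by
    intro x hx y hy hxy
    have h1 := (key x hx).2.1
    have h2 := (key y hy).2.1
    have h3 : x.1 = y.1 := by rw [← h1, ← h2, hxy]
    have h4 : x.2 = y.2 := by
      have := congrArg (fun z => z.2.1) hxy
      exact this
    obtain ⟨w, s⟩ := x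
    obtain ⟨w', s'⟩ := y
    simp only at h3 h4
    subst h3
    subst h4
    rfl
  calc ∑ x ∈ (LW (N + 2)).sigma good, φ (wd x.1) * kap m (ut x.1)
      = ∑ x ∈ (LW (N + 2)).sigma good, H (im x) := by
        apply Finset.sum_congr rfl
        intro x hx
        obtain ⟨-, h2, h3⟩ := key x hx
        simp only [hH]
        rw [h2, h3]
    _ = ∑ y ∈ ((LW (N + 2)).sigma good).image im, H y := (Finset.sum_image hinj).symm
    _ ≤ ∑ y ∈ (LW N).sigma (Bm N), H y := by
        apply Finset.sum_le_sum_of_subset_of_nonneg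
        · intro y hy
          rw [Finset.mem_image] at hy
          obtain ⟨x, hx, rfl⟩ := hy
          exact (key x hx).1
        · intro y _ _
          exact mul_nonneg (hφ _) (kap_nonneg hm _)

/-! ### the second moment -/

/-- two bumps without common new vertices -/
def Dj (w : List (ℤ × ℤ)) (e f : ℕ × (ℤ × ℤ)) : Prop :=
  pos w e.1 + e.2 ≠ pos w f.1 + f.2 ∧ pos w e.1 + e.2 ≠ pos w (f.1 + 1) + f.2 ∧
    pos w (e.1 + 1) + e.2 ≠ pos w f.1 + f.2 ∧ pos w (e.1 + 1) + e.2 ≠ pos w (f.1 + 1) + f.2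

/-- both bumps are inserted -/
def bb (w : List (ℤ × ℤ)) (e f : ℕ × (ℤ × ℤ)) : List (ℤ × ℤ) :=
  if e.1 < f.1 then bump (bump w f.1 f.2) e.1 e.2 else bump (bump w e.1 e.2) f.1 f.2

lemma bb_props {N : ℕ} {w : List (ℤ × ℤ)} (hw : IsLoopWord N w) {e f : ℕ × (ℤ × ℤ)}
    (he : e ∈ Bm N w) (hf : f ∈ Bm N w) (hef : e.1 < f.1) (hd : Dj w e f) :
    IsLoopWord (N + 4) (bump (bump w f.1 f.2) e.1 e.2) ∧
      wd (bump (bump w f.1 f.2) e.1 e.2) = wd w ∧
      e.1 ∈ UT (bump (bump w f.1 f.2) e.1 e.2) ∧ f.1 + 2 ∈ UT (bump (bump w f.1 f.2) e.1 e.2) ∧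
      ut (bump (bump w f.1 f.2) e.1 e.2) ≤ ut (bump w e.1 e.2) + 5 ∧
      ut (bump (bump w f.1 f.2) e.1 e.2) ≤ ut (bump w f.1 f.2) + 5 := by
  obtain ⟨⟨he1, he2⟩, he3, he4⟩ := mem_Bm.1 he
  obtain ⟨⟨hf1, hf2⟩, hf3, hf4⟩ := mem_Bm.1 hf
  have hl := hw.length
  have h1 := loop_bump2 hw hef hf1 he3 hf3 hd
  have h2 := bump2_mem_UT hw hef hf1 hf3 h1
  refine ⟨h1, wd_bump2 hef (by omega) _ _ he4 hf4, h2.1, h2.2, ?_, ?_⟩
  · rw [bump_comm hef (by omega)]
    exact ut_bump_le (by rw [length_bump (by omega)]; omega) _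
  · exact ut_bump_le (by rw [length_bump (by omega)]; omega) _

lemma recover {w : List (ℤ × ℤ)} {i j : ℕ} (hij : i < j) (hj : j < w.length) (a b : ℤ × ℤ) :
    flat (flat (bump (bump w j b) i a) i) j = w ∧ ltr (bump (bump w j b) i a) i = a ∧
      ltr (flat (bump (bump w j b) i a) i) j = b := by
  have h1 : i < (bump w j b).length := by rw [length_bump hj]; omega
  rw [flat_bump h1, flat_bump hj, ltr_bump h1, ltr_bump hj]
  exact ⟨rfl, rfl, rfl⟩

open Classical in
/-- the compatible pairs of bumps -/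
noncomputable def Cp (N : ℕ) (w : List (ℤ × ℤ)) : Finset ((ℕ × (ℤ × ℤ)) × (ℕ × (ℤ × ℤ))) :=
  (Bm N w ×ˢ Bm N w).filter (fun p => p.1.1 ≠ p.2.1 ∧ Dj w p.1 p.2)

lemma Dj_symm {w : List (ℤ × ℤ)} {e f : ℕ × (ℤ × ℤ)} (h : Dj w e f) : Dj w f e :=
  ⟨h.1.symm, h.2.2.1.symm, h.2.1.symm, h.2.2.2.symm⟩

/-- the compatible pairs -/
theorem second_compat {N : ℕ} {m : ℝ} (hm : 0 < m) {φ : ℕ → ℝ} (hφ : ∀ k, 0 ≤ φ k) :
    ∑ w ∈ LW N, ∑ p ∈ Cp N w, φ (wd w) *
      (kap m (ut (bump w p.1.1 p.1.2)) * kap m (ut (bump w p.2.1 p.2.2))) ≤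
      (1 + 5 / m) ^ 2 * ∑ w ∈ LW (N + 4), φ (wd w) := by
  classical
  have hm5 : 0 ≤ 1 + 5 / m := by positivity
  rw [Finset.sum_sigma']
  set K : (Σ _ : List (ℤ × ℤ), ℕ × ℕ) → ℝ := fun y => φ (wd y.1) *
    (((1 + 5 / m) * kap m (ut y.1)) * ((1 + 5 / m) * kap m (ut y.1))) with hK
  set Φ : (Σ _ : List (ℤ × ℤ), (ℕ × (ℤ × ℤ)) × (ℕ × (ℤ × ℤ))) → (Σ _ : List (ℤ × ℤ), ℕ × ℕ) :=
    fun x => ⟨bb x.1 x.2.1 x.2.2, if x.2.1.1 < x.2.2.1 then (x.2.1.1, x.2.2.1 + 2) else
      (x.2.1.1 + 2, x.2.2.1)⟩ with hΦ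
  have key : ∀ x ∈ (LW N).sigma (Cp N), Φ x ∈ (LW (N + 4)).sigma (fun w => UT w ×ˢ UT w) ∧
      φ (wd x.1) * (kap m (ut (bump x.1 x.2.1.1 x.2.1.2)) *
        kap m (ut (bump x.1 x.2.2.1 x.2.2.2))) ≤ K (Φ x) := by
    rintro ⟨w, e, f⟩ hx
    rw [Finset.mem_sigma] at hx
    obtain ⟨hw, hp⟩ := hx
    simp only [Cp, Finset.mem_filter, Finset.mem_product] at hp
    obtain ⟨⟨he, hf⟩, hne, hd⟩ := hp
    have hw' := mem_LW.1 hw
    simp only [hΦ, bb, hK]
    rcases lt_or_gt_of_ne hne with h | h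
    · rw [if_pos h, if_pos h]
      obtain ⟨h1, h2, h3, h4, h5, h6⟩ := bb_props hw' he hf h hd
      refine ⟨?_, ?_⟩
      · rw [Finset.mem_sigma, Finset.mem_product]
        exact ⟨mem_LW.2 h1, h3, h4⟩
      · rw [h2]
        apply mul_le_mul_of_nonneg_left _ (hφ _)
        exact mul_le_mul (kap_comp hm h5) (kap_comp hm h6) (kap_nonneg hm _)
          (mul_nonneg hm5 (kap_nonneg hm _))
    · rw [if_neg (by omega), if_neg (by omega)]
      obtain ⟨h1, h2, h3, h4, h5, h6⟩ := bb_props hw' hf he h (Dj_symm hd)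
      refine ⟨?_, ?_⟩
      · rw [Finset.mem_sigma, Finset.mem_product]
        exact ⟨mem_LW.2 h1, h4, h3⟩
      · rw [h2]
        apply mul_le_mul_of_nonneg_left _ (hφ _)
        exact mul_le_mul (kap_comp hm h6) (kap_comp hm h5) (kap_nonneg hm _)
          (mul_nonneg hm5 (kap_nonneg hm _))
  have hinj : Set.InjOn Φ ((LW N).sigma (Cp N) : Finset _) := by
    rintro ⟨w, e, f⟩ hx ⟨w', e', f'⟩ hy hxy
    rw [Finset.mem_coe, Finset.mem_sigma] at hx hy
    obtain ⟨hw, hp⟩ := hx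
    obtain ⟨hw', hp'⟩ := hy
    simp only [Cp, Finset.mem_filter, Finset.mem_product, mem_Bm] at hp hp'
    have hl := (mem_LW.1 hw).length
    have hl' := (mem_LW.1 hw').length
    simp only at hl hl'
    simp only [hΦ, bb, Sigma.mk.injEq, heq_eq_eq] at hxy
    obtain ⟨hx1, hx2⟩ := hxy
    rcases lt_or_gt_of_ne hp.2.1 with h | h
    · rcases lt_or_gt_of_ne hp'.2.1 with h' | h'
      · rw [if_pos h, if_pos h'] at hx1 hx2
        rw [Prod.mk.injEq] at hx2
        have e1 : e.1 = e'.1 := hx2.1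
        have e2 : f.1 = f'.1 := by omega
        obtain ⟨r1, r2, r3⟩ := recover h (by omega) e.2 f.2 (w := w)
        obtain ⟨r1', r2', r3'⟩ := recover h' (by omega) e'.2 f'.2 (w := w')
        rw [hx1, e1, e2] at r1 r3
        rw [hx1, e1] at r2
        rw [r1] at r1'
        rw [r2] at r2'
        rw [r3] at r3'
        subst r1'
        have he : e = e' := Prod.ext e1 r2'
        have hf : f = f' := Prod.ext e2 r3'
        rw [he, hf]
      · rw [if_pos h, if_neg (by omega)] at hx2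
        rw [Prod.mk.injEq] at hx2
        omega
    · rcases lt_or_gt_of_ne hp'.2.1 with h' | h'
      · rw [if_neg (by omega), if_pos h'] at hx2
        rw [Prod.mk.injEq] at hx2
        omega
      · rw [if_neg (by omega), if_neg (by omega)] at hx1 hx2
        rw [Prod.mk.injEq] at hx2
        have e1 : f.1 = f'.1 := hx2.2
        have e2 : e.1 = e'.1 := by omega
        obtain ⟨r1, r2, r3⟩ := recover h (by omega) f.2 e.2 (w := w)
        obtain ⟨r1', r2', r3'⟩ := recover h' (by omega) f'.2 e'.2 (w := w')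
        rw [hx1, e1, e2] at r1 r3
        rw [hx1, e1] at r2
        rw [r1] at r1'
        rw [r2] at r2'
        rw [r3] at r3'
        subst r1'
        have hf : f = f' := Prod.ext e1 r2'
        have he : e = e' := Prod.ext e2 r3'
        rw [he, hf]
  have hK0 : ∀ y, 0 ≤ K y := fun y => mul_nonneg (hφ _) (mul_nonneg
    (mul_nonneg hm5 (kap_nonneg hm _)) (mul_nonneg hm5 (kap_nonneg hm _)))
  calc ∑ x ∈ (LW N).sigma (Cp N), φ (wd x.1) * (kap m (ut (bump x.1 x.2.1.1 x.2.1.2)) *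
        kap m (ut (bump x.1 x.2.2.1 x.2.2.2)))
      ≤ ∑ x ∈ (LW N).sigma (Cp N), K (Φ x) := Finset.sum_le_sum (fun x hx => (key x hx).2)
    _ = ∑ y ∈ ((LW N).sigma (Cp N)).image Φ, K y := (Finset.sum_image hinj).symm
    _ ≤ ∑ y ∈ (LW (N + 4)).sigma (fun w => UT w ×ˢ UT w), K y := by
        apply Finset.sum_le_sum_of_subset_of_nonneg
        · intro y hy
          rw [Finset.mem_image] at hy
          obtain ⟨x, hx, rfl⟩ := hy
          exact (key x hx).1
        · intro y _ _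
          exact hK0 y
    _ = ∑ w ∈ LW (N + 4), ∑ _p ∈ UT w ×ˢ UT w, φ (wd w) *
          (((1 + 5 / m) * kap m (ut w)) * ((1 + 5 / m) * kap m (ut w))) := by
        rw [Finset.sum_sigma']
    _ ≤ ∑ w ∈ LW (N + 4), (1 + 5 / m) ^ 2 * φ (wd w) := by
        apply Finset.sum_le_sum
        intro w _
        rw [Finset.sum_const, Finset.card_product, nsmul_eq_mul]
        have h1 : (ut w : ℝ) * kap m (ut w) ≤ 1 := mul_kap_le hm _
        have h2 : 0 ≤ (ut w : ℝ) * kap m (ut w) := mul_nonneg (Nat.cast_nonneg _) (kap_nonneg hm _)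
        have h3 : ((ut w : ℝ) * kap m (ut w)) * ((ut w : ℝ) * kap m (ut w)) ≤ 1 := by nlinarith
        have h4 : 0 ≤ (1 + 5 / m) ^ 2 * φ (wd w) := mul_nonneg (by positivity) (hφ _)
        have e : (((UT w).card * (UT w).card : ℕ) : ℝ) * (φ (wd w) *
            (((1 + 5 / m) * kap m (ut w)) * ((1 + 5 / m) * kap m (ut w)))) =
            ((1 + 5 / m) ^ 2 * φ (wd w)) * (((ut w : ℝ) * kap m (ut w)) *
              ((ut w : ℝ) * kap m (ut w))) := by
          rw [show (UT w).card = ut w from rfl]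
          push_cast
          ring
        rw [e]
        exact mul_le_of_le_one_right h4 h3
    _ = _ := by rw [← Finset.mul_sum]

open Classical in
/-- few bumps have a common new vertex with a given one -/
lemma card_rest {N : ℕ} {w : List (ℤ × ℤ)} (hw : IsLoopWord N w) (e : ℕ × (ℤ × ℤ)) :
    ((Bm N w).filter (fun f => ¬ (e.1 ≠ f.1 ∧ Dj w e f))).card ≤ 20 := by
  have h0 : ∀ z : ℤ × ℤ, ((Finset.range N ×ˢ Steps).filter
      (fun f : ℕ × (ℤ × ℤ) => z = pos w f.1 + f.2)).card ≤ 4 := by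
    intro z
    rw [← card_Steps]
    apply Finset.card_le_card_of_injOn (fun f => f.2)
    · intro f hf
      simp only [Finset.coe_filter, Finset.mem_product, Finset.mem_range, Set.mem_ofPred_eq] at hf
      exact hf.1.2
    · rintro ⟨j, b⟩ hf ⟨j', b'⟩ hf' h
      simp only [Finset.coe_filter, Finset.mem_product, Finset.mem_range, Set.mem_ofPred_eq] at hf hf'
      simp only at h
      subst h
      have h1 : pos w j = pos w j' := by
        have := hf.2.symm.trans hf'.2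
        exact add_right_cancel this
      rcases lt_trichotomy j j' with h | h | h
      · exact absurd h1 (hw.inj _ _ h hf'.1.1)
      · rw [h]
      · exact absurd h1.symm (hw.inj _ _ h hf.1.1)
  have hs : ∀ j, j < N → pos w (j + 1) = pos w ((j + 1) % N) := by
    intro j hj
    rcases Nat.lt_or_ge (j + 1) N with h | h
    · rw [Nat.mod_eq_of_lt h]
    · have h1 : j + 1 = N := by omega
      rw [h1, Nat.mod_self, pos_zero, ← hw.length, pos_length, hw.sum]
  have h1 : ∀ z : ℤ × ℤ, ((Finset.range N ×ˢ Steps).filter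
      (fun f : ℕ × (ℤ × ℤ) => z = pos w (f.1 + 1) + f.2)).card ≤ 4 := by
    intro z
    rw [← card_Steps]
    apply Finset.card_le_card_of_injOn (fun f => f.2)
    · intro f hf
      simp only [Finset.coe_filter, Finset.mem_product, Finset.mem_range, Set.mem_ofPred_eq] at hf
      exact hf.1.2
    · rintro ⟨j, b⟩ hf ⟨j', b'⟩ hf' h
      simp only [Finset.coe_filter, Finset.mem_product, Finset.mem_range, Set.mem_ofPred_eq] at hf hf'
      simp only at h
      subst h
      have h1 : pos w (j + 1) = pos w (j' + 1) := by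
        have := hf.2.symm.trans hf'.2
        exact add_right_cancel this
      rw [hs j hf.1.1, hs j' hf'.1.1] at h1
      have hN : 0 < N := by omega
      have h2 : (j + 1) % N = (j' + 1) % N := by
        rcases lt_trichotomy ((j + 1) % N) ((j' + 1) % N) with h | h | h
        · exact absurd h1 (hw.inj _ _ h (Nat.mod_lt _ hN))
        · exact h
        · exact absurd h1.symm (hw.inj _ _ h (Nat.mod_lt _ hN))
      have h3 : j = j' := by
        have h4 := hf.1.1
        have h5 := hf'.1.1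
        rcases Nat.lt_or_ge (j + 1) N with h | h <;> rcases Nat.lt_or_ge (j' + 1) N with h' | h'
        · rw [Nat.mod_eq_of_lt h, Nat.mod_eq_of_lt h'] at h2
          omega
        · rw [Nat.mod_eq_of_lt h, show j' + 1 = N by omega, Nat.mod_self] at h2
          omega
        · rw [Nat.mod_eq_of_lt h', show j + 1 = N by omega, Nat.mod_self] at h2
          omega
        · omega
      rw [h3]
  have h2 : ((Finset.range N ×ˢ Steps).filter (fun f : ℕ × (ℤ × ℤ) => e.1 = f.1)).card ≤ 4 := by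
    rw [← card_Steps]
    apply Finset.card_le_card_of_injOn (fun f => f.2)
    · intro f hf
      simp only [Finset.coe_filter, Finset.mem_product, Finset.mem_range, Set.mem_ofPred_eq] at hf
      exact hf.1.2
    · rintro ⟨j, b⟩ hf ⟨j', b'⟩ hf' h
      simp only [Finset.coe_filter, Finset.mem_product, Finset.mem_range, Set.mem_ofPred_eq] at hf hf'
      simp only at h
      rw [h, ← hf.2, ← hf'.2]
  have hsub : (Bm N w).filter (fun f => ¬ (e.1 ≠ f.1 ∧ Dj w e f)) ⊆
      ((Finset.range N ×ˢ Steps).filter (fun f : ℕ × (ℤ × ℤ) => e.1 = f.1)) ∪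
      (((Finset.range N ×ˢ Steps).filter
        (fun f : ℕ × (ℤ × ℤ) => pos w e.1 + e.2 = pos w f.1 + f.2)) ∪
      (((Finset.range N ×ˢ Steps).filter
        (fun f : ℕ × (ℤ × ℤ) => pos w e.1 + e.2 = pos w (f.1 + 1) + f.2)) ∪
      (((Finset.range N ×ˢ Steps).filter
        (fun f : ℕ × (ℤ × ℤ) => pos w (e.1 + 1) + e.2 = pos w f.1 + f.2)) ∪
      ((Finset.range N ×ˢ Steps).filter
        (fun f : ℕ × (ℤ × ℤ) => pos w (e.1 + 1) + e.2 = pos w (f.1 + 1) + f.2))))) := by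
    intro f hf
    rw [Finset.mem_filter, mem_Bm] at hf
    obtain ⟨⟨⟨h3, h4⟩, -⟩, h5⟩ := hf
    simp only [Finset.mem_union, Finset.mem_filter, Finset.mem_product, Finset.mem_range, h3, h4,
      true_and]
    unfold Dj at h5
    tauto
  refine (Finset.card_le_card hsub).trans ?_
  refine (Finset.card_union_le _ _).trans ?_
  have g1 := h0 (pos w e.1 + e.2)
  have g2 := h1 (pos w e.1 + e.2)
  have g3 := h0 (pos w (e.1 + 1) + e.2)
  have g4 := h1 (pos w (e.1 + 1) + e.2)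
  have u1 := Finset.card_union_le ((Finset.range N ×ˢ Steps).filter
        (fun f : ℕ × (ℤ × ℤ) => pos w (e.1 + 1) + e.2 = pos w f.1 + f.2))
      ((Finset.range N ×ˢ Steps).filter
        (fun f : ℕ × (ℤ × ℤ) => pos w (e.1 + 1) + e.2 = pos w (f.1 + 1) + f.2))
  have u2 := Finset.card_union_le ((Finset.range N ×ˢ Steps).filter
        (fun f : ℕ × (ℤ × ℤ) => pos w e.1 + e.2 = pos w (f.1 + 1) + f.2))
      (((Finset.range N ×ˢ Steps).filter
        (fun f : ℕ × (ℤ × ℤ) => pos w (e.1 + 1) + e.2 = pos w f.1 + f.2)) ∪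
      ((Finset.range N ×ˢ Steps).filter
        (fun f : ℕ × (ℤ × ℤ) => pos w (e.1 + 1) + e.2 = pos w (f.1 + 1) + f.2)))
  have u3 := Finset.card_union_le ((Finset.range N ×ˢ Steps).filter
        (fun f : ℕ × (ℤ × ℤ) => pos w e.1 + e.2 = pos w f.1 + f.2))
      (((Finset.range N ×ˢ Steps).filter
        (fun f : ℕ × (ℤ × ℤ) => pos w e.1 + e.2 = pos w (f.1 + 1) + f.2)) ∪
      (((Finset.range N ×ˢ Steps).filter
        (fun f : ℕ × (ℤ × ℤ) => pos w (e.1 + 1) + e.2 = pos w f.1 + f.2)) ∪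
      ((Finset.range N ×ˢ Steps).filter
        (fun f : ℕ × (ℤ × ℤ) => pos w (e.1 + 1) + e.2 = pos w (f.1 + 1) + f.2))))
  omega

/-- the second moment -/
theorem second_moment {N : ℕ} {m : ℝ} (hm : 0 < m) {φ : ℕ → ℝ} (hφ : ∀ k, 0 ≤ φ k) :
    ∑ w ∈ LW N, φ (wd w) * GG m N w ^ 2 ≤
      (1 + 5 / m) ^ 2 * ∑ w ∈ LW (N + 4), φ (wd w) + 80 * N / m ^ 2 * ∑ w ∈ LW N, φ (wd w) := by
  classical
  have key : ∀ w ∈ LW N, φ (wd w) * GG m N w ^ 2 ≤
      ∑ p ∈ Cp N w, φ (wd w) *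
        (kap m (ut (bump w p.1.1 p.1.2)) * kap m (ut (bump w p.2.1 p.2.2))) +
      80 * N / m ^ 2 * φ (wd w) := by
    intro w hw
    have hw' := mem_LW.1 hw
    set k : ℕ × (ℤ × ℤ) → ℝ := fun e => kap m (ut (bump w e.1 e.2)) with hk
    have hk0 : ∀ e, 0 ≤ k e := fun e => kap_nonneg hm _
    have hk1 : ∀ e, k e ≤ 1 / m := fun e => kap_le hm _
    have e1 : GG m N w ^ 2 = ∑ p ∈ Bm N w ×ˢ Bm N w, k p.1 * k p.2 := by
      rw [GG, pow_two, Finset.sum_mul_sum, ← Finset.sum_product']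
    have e2 : ∑ p ∈ Bm N w ×ˢ Bm N w, k p.1 * k p.2 =
        ∑ p ∈ Cp N w, k p.1 * k p.2 + ∑ p ∈ (Bm N w ×ˢ Bm N w).filter
          (fun p => ¬ (p.1.1 ≠ p.2.1 ∧ Dj w p.1 p.2)), k p.1 * k p.2 := by
      unfold Cp
      exact (Finset.sum_filter_add_sum_filter_not _ _ _).symm
    have e3 : ∑ p ∈ (Bm N w ×ˢ Bm N w).filter
          (fun p => ¬ (p.1.1 ≠ p.2.1 ∧ Dj w p.1 p.2)), k p.1 * k p.2 ≤ 80 * N / m ^ 2 := by
      have h1 : ((Bm N w ×ˢ Bm N w).filter
          (fun p => ¬ (p.1.1 ≠ p.2.1 ∧ Dj w p.1 p.2))).card ≤ 80 * N := by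
        rw [Finset.card_filter, Finset.sum_product]
        calc ∑ x ∈ Bm N w, ∑ y ∈ Bm N w, (if ¬ (x.1 ≠ y.1 ∧ Dj w x y) then 1 else 0)
            ≤ ∑ _x ∈ Bm N w, 20 := by
              apply Finset.sum_le_sum
              intro x _
              rw [← Finset.card_filter]
              exact card_rest hw' x
          _ = (Bm N w).card * 20 := by rw [Finset.sum_const, smul_eq_mul]
          _ ≤ 80 * N := by
            have := card_Bm_le N w
            omega
      set R := (Bm N w ×ˢ Bm N w).filter (fun p => ¬ (p.1.1 ≠ p.2.1 ∧ Dj w p.1 p.2)) with hR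
      calc ∑ p ∈ R, k p.1 * k p.2
          ≤ ∑ _p ∈ R, (1 / m) * (1 / m) := by
            apply Finset.sum_le_sum
            intro p _
            exact mul_le_mul (hk1 _) (hk1 _) (hk0 _) (by positivity)
        _ = R.card * ((1 / m) * (1 / m)) := by
            rw [Finset.sum_const, nsmul_eq_mul]
        _ ≤ (80 * N : ℝ) * ((1 / m) * (1 / m)) := by
            apply mul_le_mul_of_nonneg_right _ (by positivity)
            exact_mod_cast h1
        _ = 80 * N / m ^ 2 := by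
            field_simp
    rw [e1, e2, ← Finset.mul_sum, mul_add]
    apply add_le_add le_rfl
    rw [mul_comm (80 * (N : ℝ) / m ^ 2)]
    exact mul_le_mul_of_nonneg_left e3 (hφ _)
  refine (Finset.sum_le_sum key).trans ?_
  rw [Finset.sum_add_distrib, ← Finset.mul_sum]
  exact add_le_add (second_compat hm hφ) le_rfl

end Pool.Agent.Lib.MP_c23e5f_coR
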