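import Pool.Agent.Lib.MP_c23e5f_coR.R2Mom

set_option autoImplicit false

/-!
# MP_c23e5f_co, regularity of the law of the width: words with few U-turns
-/

namespace Pool.Agent.Lib.MP_c23e5f_coR

open Pool.Agent.Lib.MP_c23e5f_co

lemma sum_biUnion_le' {α β : Type*} [DecidableEq β] (s : Finset α) (t : α → Finset β) (f : β → ℝ)
    (hf : ∀ x, 0 ≤ f x) : ∑ x ∈ s.biUnion t, f x ≤ ∑ a ∈ s, ∑ x ∈ t a, f x := by
  classical
  induction s using Finset.induction_on with
  | empty => simp
  | insert a s ha ih =>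
    rw [Finset.biUnion_insert, Finset.sum_insert ha]
    have h1 := Finset.sum_union_inter (s₁ := t a) (s₂ := s.biUnion t) (f := f)
    have h2 : 0 ≤ ∑ x ∈ t a ∩ s.biUnion t, f x := Finset.sum_nonneg (fun x _ => hf x)
    linarith

/-- a word without immediate reversals -/
def NR (w : List (ℤ × ℤ)) : Prop := List.IsChain (fun a b : ℤ × ℤ => b ≠ -a) w

lemma loop_NR {N : ℕ} {w : List (ℤ × ℤ)} (hw : IsLoopWord N w) (hN : 3 ≤ N) : NR w := by
  unfold NR
  rw [List.isChain_iff_forall_rel_of_append_cons_cons]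
  rintro a b l₁ l₂ rfl rfl
  obtain ⟨h1, h2, h3, h4⟩ := isLoopWord_iff_vs.1 hw
  rw [vs_append] at h4
  simp only [vs_cons, zero_add, add_neg_cancel_right] at h4
  rw [List.nodup_append] at h4
  obtain ⟨h5, h6, h7⟩ := h4
  rcases l₂ with _ | ⟨c, l₂⟩
  · simp only [List.sum_append, List.sum_cons, List.sum_nil] at h3
    have h8 : l₁.sum = 0 := by
      have : l₁.sum + (a + (-a + 0)) = l₁.sum := by abel
      rw [this] at h3
      exact h3
    rcases l₁ with _ | ⟨d, l₁⟩
    · simp at h1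
      omega
    · have h9 := h7 0 (by simp) ((d :: l₁).sum) (by simp)
      exact h9 h8.symm
  · simp at h6

/-- the words `a b ...` with `k` more letters, without immediate reversals -/
def Sg : ℕ → ℤ × ℤ → ℤ × ℤ → Finset (List (ℤ × ℤ))
  | 0, a, b => {[a, b]}
  | k + 1, a, b => (Steps.filter (fun c => c ≠ -b)).biUnion
      (fun c => (Sg k b c).image (fun l => a :: l))

lemma mem_Sg (k : ℕ) (a b : ℤ × ℤ) (l : List (ℤ × ℤ)) (hl : l.length = k)
    (hs : ∀ v ∈ l, IsStep v) (h : NR (a :: b :: l)) : a :: b :: l ∈ Sg k a b := by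
  induction k generalizing a b l with
  | zero =>
    rw [List.length_eq_zero_iff] at hl
    subst hl
    simp [Sg]
  | succ k ih =>
    obtain ⟨c, l, rfl⟩ := List.exists_cons_of_length_eq_add_one hl
    have h2 : NR (b :: c :: l) := by
      unfold NR at *
      rw [List.isChain_cons_cons] at h
      exact h.2
    have h3 : c ≠ -b := by
      unfold NR at h2
      rw [List.isChain_cons_cons] at h2
      exact h2.1
    rw [Sg, Finset.mem_biUnion]
    refine ⟨c, Finset.mem_filter.2 ⟨mem_Steps.2 (hs c (by simp)), h3⟩, ?_⟩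
    rw [Finset.mem_image]
    exact ⟨b :: c :: l, ih b c l (by simpa using hl) (fun v hv => hs v (by simp [hv])) h2, rfl⟩

lemma Sg_form (k : ℕ) (a b : ℤ × ℤ) (w : List (ℤ × ℤ)) (hw : w ∈ Sg k a b) :
    ∃ l, w = a :: b :: l := by
  cases k with
  | zero =>
    simp only [Sg, Finset.mem_singleton] at hw
    exact ⟨[], hw⟩
  | succ k =>
    rw [Sg, Finset.mem_biUnion] at hw
    obtain ⟨c, hc, hw⟩ := hw
    rw [Finset.mem_image] at hw
    obtain ⟨l, hl, rfl⟩ := hw
    cases k with
    | zero =>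
      simp only [Sg, Finset.mem_singleton] at hl
      exact ⟨[c], by rw [hl]⟩
    | succ k =>
      rw [Sg, Finset.mem_biUnion] at hl
      obtain ⟨d, hd, hl⟩ := hl
      rw [Finset.mem_image] at hl
      obtain ⟨l', hl', rfl⟩ := hl
      exact ⟨l', rfl⟩

/-- the potential -/
noncomputable def hh (a b : ℤ × ℤ) : ℝ := if b = a then 1 else 29 / 40

/-- the weight of a letter -/
noncomputable def tw (a b c : ℤ × ℤ) : ℝ := if c = -a ∧ b ≠ a ∧ b ≠ -a then 1 / 16 else 1

lemma hh_step (a b : ℤ × ℤ) (ha : a ∈ Steps) (hb : b ∈ Steps) (hab : b ≠ -a) :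
    ∑ c ∈ Steps.filter (fun c => c ≠ -b), tw a b c * hh b c ≤ 49 / 20 * hh a b := by
  simp only [Steps, Finset.mem_insert, Finset.mem_singleton] at ha hb
  rw [Finset.sum_filter]
  rcases ha with rfl | rfl | rfl | rfl <;> rcases hb with rfl | rfl | rfl | rfl <;>
    first
    | (exfalso; revert hab; decide)
    | (simp [Steps, tw, hh, Prod.ext_iff]; norm_num)

lemma ut_cons3 (a b c : ℤ × ℤ) (l : List (ℤ × ℤ)) :
    ((1 : ℝ) / 16) ^ ut (a :: b :: c :: l) = tw a b c * (1 / 16) ^ ut (b :: c :: l) := by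
  classical
  rw [ut_cons, pow_add]
  congr 1
  unfold tw
  by_cases h : c = -a ∧ b ≠ a ∧ b ≠ -a
  · rw [if_pos ((U3_iff _ _ _ _).2 h), if_pos h, pow_one]
  · rw [if_neg (fun h' => h ((U3_iff _ _ _ _).1 h')), if_neg h, pow_zero]

lemma sum_Sg (k : ℕ) (a b : ℤ × ℤ) (ha : a ∈ Steps) (hb : b ∈ Steps) (hab : b ≠ -a) :
    ∑ w ∈ Sg k a b, ((1 : ℝ) / 16) ^ ut w ≤ (49 / 20) ^ k * (40 / 29 * hh a b) := by
  induction k generalizing a b with
  | zero =>
    simp only [Sg, Finset.sum_singleton, pow_zero, one_mul]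
    have h1 : ((1 : ℝ) / 16) ^ ut [a, b] ≤ 1 := pow_le_one₀ (by norm_num) (by norm_num)
    have h2 : (1 : ℝ) ≤ 40 / 29 * hh a b := by
      unfold hh
      split_ifs <;> norm_num
    linarith
  | succ k ih =>
    rw [Sg]
    have h1 : ∑ w ∈ (Steps.filter (fun c => c ≠ -b)).biUnion
        (fun c => (Sg k b c).image (fun l => a :: l)), ((1 : ℝ) / 16) ^ ut w ≤
        ∑ c ∈ Steps.filter (fun c => c ≠ -b), ∑ w ∈ (Sg k b c).image (fun l => a :: l),
          ((1 : ℝ) / 16) ^ ut w := by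
      apply sum_biUnion_le'
      intro x
      positivity
    refine h1.trans ?_
    have h2 : ∀ c ∈ Steps.filter (fun c => c ≠ -b),
        ∑ w ∈ (Sg k b c).image (fun l => a :: l), ((1 : ℝ) / 16) ^ ut w ≤
          (49 / 20) ^ k * (40 / 29 * (tw a b c * hh b c)) := by
      intro c hc
      rw [Finset.mem_filter] at hc
      rw [Finset.sum_image (fun x _ y _ h => (List.cons.inj h).2)]
      have h3 : ∀ w ∈ Sg k b c, ((1 : ℝ) / 16) ^ ut (a :: w) = tw a b c * (1 / 16) ^ ut w := by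
        intro w hw
        obtain ⟨l, rfl⟩ := Sg_form k b c w hw
        exact ut_cons3 a b c l
      rw [Finset.sum_congr rfl h3, ← Finset.mul_sum]
      have h4 : 0 ≤ tw a b c := by
        unfold tw
        split_ifs <;> norm_num
      calc tw a b c * ∑ w ∈ Sg k b c, ((1 : ℝ) / 16) ^ ut w ≤
            tw a b c * ((49 / 20) ^ k * (40 / 29 * hh b c)) :=
            mul_le_mul_of_nonneg_left (ih b c hb hc.1 hc.2) h4
        _ = _ := by ring
    refine (Finset.sum_le_sum h2).trans ?_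
    rw [← Finset.mul_sum, ← Finset.mul_sum]
    have h3 := hh_step a b ha hb hab
    calc (49 / 20 : ℝ) ^ k * (40 / 29 * ∑ c ∈ Steps.filter (fun c => c ≠ -b), tw a b c * hh b c) ≤
          (49 / 20) ^ k * (40 / 29 * (49 / 20 * hh a b)) := by gcongr
      _ = _ := by rw [pow_succ]; ring

/-- the generating function of the U-turns -/
theorem sum_ut (N : ℕ) (hN : 3 ≤ N) :
    ∑ w ∈ LW N, ((1 : ℝ) / 16) ^ ut w ≤ 23 * (49 / 20) ^ N := by
  have hsub : LW N ⊆ (Steps ×ˢ Steps).biUnion
      (fun p => if p.2 ≠ -p.1 then Sg (N - 2) p.1 p.2 else ∅) := by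
    intro w hw
    rw [mem_LW] at hw
    have hl := hw.length
    rcases w with _ | ⟨a, _ | ⟨b, l⟩⟩
    · simp at hl
      omega
    · simp at hl
      omega
    · have h1 := loop_NR hw hN
      have h2 : b ≠ -a := by
        unfold NR at h1
        rw [List.isChain_cons_cons] at h1
        exact h1.1
      rw [Finset.mem_biUnion]
      refine ⟨(a, b), Finset.mem_product.2 ⟨mem_Steps.2 (hw.step a (by simp)),
        mem_Steps.2 (hw.step b (by simp))⟩, ?_⟩
      rw [if_pos h2]
      exact mem_Sg (N - 2) a b l (by simp at hl; omega) (fun v hv => hw.step v (by simp [hv])) h1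
  have h0 : ∀ w : List (ℤ × ℤ), (0 : ℝ) ≤ (1 / 16) ^ ut w := fun w => by positivity
  calc ∑ w ∈ LW N, ((1 : ℝ) / 16) ^ ut w
      ≤ ∑ w ∈ (Steps ×ˢ Steps).biUnion
        (fun p => if p.2 ≠ -p.1 then Sg (N - 2) p.1 p.2 else ∅), ((1 : ℝ) / 16) ^ ut w :=
        Finset.sum_le_sum_of_subset_of_nonneg hsub (fun w _ _ => h0 w)
    _ ≤ ∑ p ∈ Steps ×ˢ Steps, ∑ w ∈ (if p.2 ≠ -p.1 then Sg (N - 2) p.1 p.2 else ∅),
        ((1 : ℝ) / 16) ^ ut w := by
        apply sum_biUnion_le'
        exact h0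
    _ ≤ ∑ _p ∈ Steps ×ˢ Steps, (49 / 20 : ℝ) ^ N * (40 / 29) := by
        apply Finset.sum_le_sum
        rintro ⟨a, b⟩ hp
        rw [Finset.mem_product] at hp
        simp only at hp ⊢
        split_ifs with h
        · refine (sum_Sg (N - 2) a b hp.1 hp.2 h).trans ?_
          have h1 : (49 / 20 : ℝ) ^ (N - 2) ≤ (49 / 20) ^ N :=
            pow_le_pow_right₀ (by norm_num) (by omega)
          have h2 : 40 / 29 * hh a b ≤ 40 / 29 := by
            unfold hh
            split_ifs <;> norm_num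
          have h3 : 0 ≤ 40 / 29 * hh a b := by
            unfold hh
            split_ifs <;> norm_num
          exact mul_le_mul h1 h2 h3 (by positivity)
        · simp only [Finset.sum_empty]
          positivity
    _ = 16 * ((49 / 20 : ℝ) ^ N * (40 / 29)) := by
        rw [Finset.sum_const, Finset.card_product, card_Steps, nsmul_eq_mul]
        norm_num
    _ ≤ _ := by
        have : (0 : ℝ) ≤ (49 / 20) ^ N := by positivity
        nlinarith

end Pool.Agent.Lib.MP_c23e5f_coR
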