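import Pool.Agent.Lib.MP_c23e5f_coR.R3Few

set_option autoImplicit false

/-!
# MP_c23e5f_co, regularity of the law of the width: bounds for the number of the loop words
-/

namespace Pool.Agent.Lib.MP_c23e5f_coR

open Pool.Agent.Lib.MP_c23e5f_co
open scoped ENNReal

lemma card_LW (N : ℕ) : (LW N).card = {w : List (ℤ × ℤ) | IsLoopWord N w}.ncard := by
  rw [Set.ncard_eq_toFinset_card _ (finite_LW N)]
  rfl

lemma wt_eq_card (x : ℝ≥0∞) (n : ℕ) (P : Set (List (ℤ × ℤ)))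
    (h : ∀ w ∈ P, (∀ v ∈ w, IsStep v) ∧ w.length = n) : wt x P = (P.ncard : ℝ≥0∞) * x ^ n := by
  have hfin : P.Finite := (finite_words n).subset h
  have : Finite P := hfin.to_subtype
  have : Fintype P := Fintype.ofFinite P
  rw [wt, tsum_fintype, Finset.sum_congr rfl (fun w _ => by rw [(h w.1 w.2).2]),
    Finset.sum_const, Finset.card_univ, nsmul_eq_mul, ← Nat.card_eq_fintype_card]
  rfl

/-- the counting inequality for bridges -/
lemma cN_le_bN (n : ℕ) :
    cN n ≤ (n + 2) ^ (2 * Nat.sqrt (2 * n + 2) + 3) * bN (n + 1) := by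
  have h1 : ∀ m ∈ Finset.range (n + 1), hN (n - m) * hN (m + 1) ≤
      (n + 2) ^ (2 * Nat.sqrt (2 * n + 2) + 2) * bN (n + 1) := by
    intro m hm
    rw [Finset.mem_range] at hm
    have h2 : hN (n - m) ≤ (n + 2) ^ (Nat.sqrt (2 * n + 2) + 1) * bN (n - m) := by
      refine (hN_le (n - m)).trans (Nat.mul_le_mul_right _ ?_)
      calc (n - m + 1) ^ (Nat.sqrt (2 * (n - m)) + 1) ≤ (n + 2) ^ (Nat.sqrt (2 * (n - m)) + 1) :=
            Nat.pow_le_pow_left (by omega) _
        _ ≤ _ := Nat.pow_le_pow_right (by omega)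
            (Nat.add_le_add_right (Nat.sqrt_le_sqrt (by omega)) 1)
    have h3 : hN (m + 1) ≤ (n + 2) ^ (Nat.sqrt (2 * n + 2) + 1) * bN (m + 1) := by
      refine (hN_le (m + 1)).trans (Nat.mul_le_mul_right _ ?_)
      calc (m + 1 + 1) ^ (Nat.sqrt (2 * (m + 1)) + 1) ≤ (n + 2) ^ (Nat.sqrt (2 * (m + 1)) + 1) :=
            Nat.pow_le_pow_left (by omega) _
        _ ≤ _ := Nat.pow_le_pow_right (by omega)
            (Nat.add_le_add_right (Nat.sqrt_le_sqrt (by omega)) 1)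
    have h4 : bN (n - m) * bN (m + 1) ≤ bN (n + 1) := by
      have := bN_mul_le (n - m) (m + 1)
      rwa [show n - m + (m + 1) = n + 1 by omega] at this
    calc hN (n - m) * hN (m + 1) ≤ ((n + 2) ^ (Nat.sqrt (2 * n + 2) + 1) * bN (n - m)) *
          ((n + 2) ^ (Nat.sqrt (2 * n + 2) + 1) * bN (m + 1)) := Nat.mul_le_mul h2 h3
      _ = (n + 2) ^ (2 * Nat.sqrt (2 * n + 2) + 2) * (bN (n - m) * bN (m + 1)) := by ring
      _ ≤ _ := Nat.mul_le_mul_left _ h4
  calc cN n ≤ ∑ m ∈ Finset.range (n + 1), hN (n - m) * hN (m + 1) := cN_le n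
    _ ≤ ∑ m ∈ Finset.range (n + 1), (n + 2) ^ (2 * Nat.sqrt (2 * n + 2) + 2) * bN (n + 1) :=
        Finset.sum_le_sum h1
    _ = (n + 1) * ((n + 2) ^ (2 * Nat.sqrt (2 * n + 2) + 2) * bN (n + 1)) := by
        rw [Finset.sum_const, Finset.card_range, smul_eq_mul]
    _ ≤ (n + 2) * ((n + 2) ^ (2 * Nat.sqrt (2 * n + 2) + 2) * bN (n + 1)) :=
        Nat.mul_le_mul_right _ (by omega)
    _ = _ := by ring

lemma fst_sum_le (w : List (ℤ × ℤ)) (hw : ∀ v ∈ w, IsStep v) : |w.sum.1| ≤ w.length := by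
  induction w with
  | nil => simp
  | cons a w ih =>
    have h1 := ih (fun v hv => hw v (List.mem_cons_of_mem _ hv))
    have h2 : IsStep a := hw a List.mem_cons_self
    simp only [IsStep] at h2
    simp only [List.sum_cons, Prod.fst_add, List.length_cons, abs_le] at h1 ⊢
    push_cast
    omega

lemma bN_crit {x : ℝ≥0∞} (hx : IsCrit x) (n : ℕ) : (bN n : ℝ) * x.toReal ^ n ≤ n + 1 := by
  have hxtop : x ≠ ⊤ := ne_top_of_le_ne_top ENNReal.one_ne_top hx.le_one
  set P : Set (List (ℤ × ℤ)) := {w | (∃ T, IsBridge Z1 T w) ∧ w.length = n} with hP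
  have h1 : wt x P = (P.ncard : ℝ≥0∞) * x ^ n :=
    wt_eq_card x n P (fun w hw => ⟨hw.1.choose_spec.saw.step, hw.2⟩)
  have h2 : P ⊆ ⋃ T ∈ Finset.range (n + 1), {w : List (ℤ × ℤ) | IsBridge Z1 T w} := by
    rintro w ⟨⟨T, hT⟩, hl⟩
    simp only [Set.mem_iUnion, Finset.mem_range]
    refine ⟨T, ?_, hT⟩
    have h3 := fst_sum_le w hT.saw.step
    have h4 := hT.ht
    rw [Z1_apply] at h4
    rw [h4, abs_le] at h3
    omega
  have h3 : wt x P ≤ (n + 1 : ℕ) := by
    refine (wt_mono h2).trans ((wt_biUnion_le x _ _).trans ?_)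
    calc ∑ T ∈ Finset.range (n + 1), wt x {w | IsBridge Z1 T w}
        ≤ ∑ _T ∈ Finset.range (n + 1), (1 : ℝ≥0∞) :=
          Finset.sum_le_sum (fun T _ => wt_bridge_le_one hx Z1 T)
      _ = _ := by simp
  rw [h1] at h3
  have h4 := ENNReal.toReal_mono (ENNReal.natCast_ne_top _) h3
  rw [ENNReal.toReal_mul, ENNReal.toReal_pow, ENNReal.toReal_natCast, ENNReal.toReal_natCast] at h4
  push_cast at h4
  exact h4

lemma card_LW_le (n : ℕ) : (LW (n + 1)).card ≤ cN n := by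
  rw [cN, ← Set.ncard_coe_finset]
  refine Set.ncard_le_ncard_of_injOn (fun w => w.take n) ?_ ?_
    ((finite_words n).subset (fun w hw => ⟨hw.1.step, hw.2⟩))
  · intro w hw
    have hw' := mem_LW.1 (Finset.mem_coe.1 hw)
    refine ⟨⟨fun v hv => hw'.step v (List.mem_of_mem_take hv), ?_⟩, ?_⟩
    · intro i j hij hj
      rw [List.length_take, hw'.length] at hj
      rw [pos_take (by omega), pos_take (by omega)]
      exact hw'.inj i j hij (by omega)
    · rw [List.length_take, hw'.length]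
      omega
  · intro w hw v hv h
    have hw' := mem_LW.1 (Finset.mem_coe.1 hw)
    have hv' := mem_LW.1 (Finset.mem_coe.1 hv)
    simp only at h
    have e1 : w = w.take n ++ [w[n]'(by rw [hw'.length]; omega)] := by
      rw [List.take_append_getElem, List.take_of_length_le (by rw [hw'.length])]
    have e2 : v = v.take n ++ [v[n]'(by rw [hv'.length]; omega)] := by
      rw [List.take_append_getElem, List.take_of_length_le (by rw [hv'.length])]
    have e3 := hw'.sum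
    have e4 := hv'.sum
    rw [e1, List.sum_append] at e3
    rw [e2, List.sum_append, ← h] at e4
    have e5 : w[n]'(by rw [hw'.length]; omega) = v[n]'(by rw [hv'.length]; omega) := by
      have := e3.trans e4.symm
      simpa using this
    rw [e1, e2, h, e5]

/-- the upper bound -/
theorem loops_upper {x : ℝ≥0∞} (hx : IsCrit x) {N : ℕ} (hN : 2 ≤ N) :
    ((LW N).card : ℝ) * x.toReal ^ N ≤ Real.exp (12 * (√N * Real.log N)) := by
  obtain ⟨n, rfl⟩ : ∃ n, N = n + 1 := ⟨N - 1, by omega⟩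
  have hX0 : 0 ≤ x.toReal := ENNReal.toReal_nonneg
  set X := x.toReal with hX
  set k : ℕ := 2 * Nat.sqrt (2 * n + 2) + 3 with hk
  have h1 : ((LW (n + 1)).card : ℝ) ≤ ((n + 2 : ℕ) : ℝ) ^ k * bN (n + 1) := by
    exact_mod_cast (card_LW_le n).trans (cN_le_bN n)
  have h2 := bN_crit hx (n + 1)
  have h3 : ((LW (n + 1)).card : ℝ) * X ^ (n + 1) ≤ ((n + 2 : ℕ) : ℝ) ^ (k + 1) := by
    calc ((LW (n + 1)).card : ℝ) * X ^ (n + 1) ≤
          (((n + 2 : ℕ) : ℝ) ^ k * bN (n + 1)) * X ^ (n + 1) := by gcongr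
      _ = ((n + 2 : ℕ) : ℝ) ^ k * (bN (n + 1) * X ^ (n + 1)) := by ring
      _ ≤ ((n + 2 : ℕ) : ℝ) ^ k * ((n + 1 : ℕ) + 1) := by gcongr
      _ = _ := by push_cast; ring
  refine h3.trans ?_
  set M : ℝ := ((n + 1 : ℕ) : ℝ) with hM
  have hM2 : 2 ≤ M := by rw [hM]; exact_mod_cast hN
  have hpos : (0 : ℝ) < ((n + 2 : ℕ) : ℝ) := by positivity
  rw [← Real.exp_log hpos, ← Real.exp_nat_mul]
  apply Real.exp_le_exp.2
  have h4 : ((n + 2 : ℕ) : ℝ) ≤ M ^ 2 := by
    have : ((n + 2 : ℕ) : ℝ) = M + 1 := by rw [hM]; push_cast; ring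
    rw [this]
    nlinarith
  have h5 : Real.log ((n + 2 : ℕ) : ℝ) ≤ 2 * Real.log M := by
    have := Real.log_le_log hpos h4
    rwa [Real.log_pow] at this
  have h6 : (Nat.sqrt (2 * n + 2) : ℝ) ≤ 3 / 2 * √M := by
    have h7 : (Nat.sqrt (2 * n + 2) : ℝ) ^ 2 ≤ 2 * M := by
      have h8 : Nat.sqrt (2 * n + 2) * Nat.sqrt (2 * n + 2) ≤ 2 * n + 2 := Nat.sqrt_le _
      have h9 : ((Nat.sqrt (2 * n + 2) * Nat.sqrt (2 * n + 2) : ℕ) : ℝ) ≤ ((2 * n + 2 : ℕ) : ℝ) := by
        exact_mod_cast h8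
      rw [hM, pow_two]
      push_cast at h9 ⊢
      linarith
    have h8 : √M ^ 2 = M := Real.sq_sqrt (by linarith)
    have h9 : (Nat.sqrt (2 * n + 2) : ℝ) ^ 2 ≤ (3 / 2 * √M) ^ 2 := by
      rw [mul_pow, h8]
      nlinarith
    exact le_of_sq_le_sq h9 (by positivity)
  have h7 : 1 ≤ √M := by
    rw [Real.one_le_sqrt]
    linarith
  have h7b : (4 : ℝ) ≤ 3 * √M := by
    have : (4 / 3 : ℝ) ≤ √M := by
      apply Real.le_sqrt_of_sq_le
      norm_num
      linarith
    linarith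
  have h8 : ((k + 1 : ℕ) : ℝ) ≤ 6 * √M := by
    rw [hk]
    push_cast
    linarith
  have h9 : 0 ≤ Real.log M := Real.log_nonneg (by linarith)
  calc ((k + 1 : ℕ) : ℝ) * Real.log ((n + 2 : ℕ) : ℝ) ≤ (6 * √M) * (2 * Real.log M) := by
        gcongr
    _ = _ := by ring

/-- the lower bound -/
theorem loops_lower' : ∃ C0 : ℝ, 0 < C0 ∧ ∀ x : ℝ≥0∞, IsCrit x → ∀ N : ℕ, Even N → 4 ≤ N →
    Real.exp (-(C0 * (√N * Real.log N))) ≤ ((LW N).card : ℝ) * x.toReal ^ N := by
  obtain ⟨C0, hC0, h⟩ := loop_lower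
  refine ⟨C0, hC0, fun x hx N hN hN4 => ?_⟩
  have hxtop : x ≠ ⊤ := ne_top_of_le_ne_top ENNReal.one_ne_top hx.le_one
  have h1 := h x hx N hN hN4
  rw [wt_eq_card x N {w | IsLoopWord N w} (fun w (hw : IsLoopWord N w) => ⟨hw.step, hw.length⟩),
    ← card_LW] at h1
  have h2 := ENNReal.toReal_mono (ENNReal.mul_ne_top (ENNReal.natCast_ne_top _)
    (ENNReal.pow_ne_top hxtop)) h1
  rw [ENNReal.toReal_ofReal (Real.exp_pos _).le, ENNReal.toReal_mul, ENNReal.toReal_pow,
    ENNReal.toReal_natCast] at h2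
  rwa [mul_assoc] at h2

lemma toReal_crit_le {x : ℝ≥0∞} (hx : IsCrit x) : x.toReal ≤ 159 / 400 := by
  have h := W.crit_le hx
  have h1 := ENNReal.toReal_mono ENNReal.ofReal_ne_top h
  rwa [ENNReal.toReal_ofReal (by norm_num)] at h1

/-- few words have few U-turns -/
theorem few {x : ℝ≥0∞} (hx : IsCrit x) {N m : ℕ} (hN : 3 ≤ N) (hm : 120 * m ≤ N) :
    (((LW N).filter (fun w => ut w < m)).card : ℝ) * x.toReal ^ N ≤ 23 * (997 / 1000) ^ N := by
  have hX0 : 0 ≤ x.toReal := ENNReal.toReal_nonneg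
  have hX1 := toReal_crit_le hx
  set X := x.toReal with hX
  have h1 : (((LW N).filter (fun w => ut w < m)).card : ℝ) * (1 / 16) ^ m ≤ 23 * (49 / 20) ^ N := by
    calc (((LW N).filter (fun w => ut w < m)).card : ℝ) * (1 / 16) ^ m
        = ∑ _w ∈ (LW N).filter (fun w => ut w < m), ((1 : ℝ) / 16) ^ m := by
          rw [Finset.sum_const, nsmul_eq_mul]
      _ ≤ ∑ w ∈ (LW N).filter (fun w => ut w < m), ((1 : ℝ) / 16) ^ ut w := by
          apply Finset.sum_le_sum
          intro w hw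
          rw [Finset.mem_filter] at hw
          exact pow_le_pow_of_le_one (by norm_num) (by norm_num) hw.2.le
      _ ≤ ∑ w ∈ LW N, ((1 : ℝ) / 16) ^ ut w :=
          Finset.sum_le_sum_of_subset_of_nonneg (Finset.filter_subset _ _)
            (fun w _ _ => by positivity)
      _ ≤ _ := sum_ut N hN
  have h2 : (16 : ℝ) ^ m ≤ (10234 / 10000) ^ N := by
    have h3 : (16 : ℝ) ≤ (10234 / 10000) ^ 120 := by norm_num
    calc (16 : ℝ) ^ m ≤ ((10234 / 10000) ^ 120) ^ m := by gcongr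
      _ = (10234 / 10000) ^ (120 * m) := by rw [← pow_mul]
      _ ≤ _ := pow_le_pow_right₀ (by norm_num) hm
  have h3 : (((LW N).filter (fun w => ut w < m)).card : ℝ) ≤ 23 * (49 / 20) ^ N * 16 ^ m := by
    have h4 : ((1 : ℝ) / 16) ^ m * 16 ^ m = 1 := by
      rw [← mul_pow]
      norm_num
    calc (((LW N).filter (fun w => ut w < m)).card : ℝ)
        = (((LW N).filter (fun w => ut w < m)).card : ℝ) * ((1 / 16) ^ m * 16 ^ m) := by
          rw [h4, mul_one]
      _ = ((((LW N).filter (fun w => ut w < m)).card : ℝ) * (1 / 16) ^ m) * 16 ^ m := by ring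
      _ ≤ _ := by gcongr
  calc (((LW N).filter (fun w => ut w < m)).card : ℝ) * X ^ N
      ≤ (23 * (49 / 20) ^ N * (10234 / 10000) ^ N) * (159 / 400) ^ N := by
        apply mul_le_mul _ (pow_le_pow_left₀ hX0 hX1 N) (by positivity) (by positivity)
        exact h3.trans (by gcongr)
    _ = 23 * ((49 / 20) * (10234 / 10000) * (159 / 400)) ^ N := by
        rw [mul_pow, mul_pow]
        ring
    _ ≤ _ := by
        have h5 : ((49 / 20 : ℝ) * (10234 / 10000) * (159 / 400)) ^ N ≤ (997 / 1000) ^ N :=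
          pow_le_pow_left₀ (by norm_num) (by norm_num) N
        linarith

end Pool.Agent.Lib.MP_c23e5f_coR
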