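import Mathlib

set_option autoImplicit false

/-!
# MP_c23e5f_co, regularity of the law of the width: the real lemma
-/

namespace Pool.Agent.Lib.MP_c23e5f_coR

/-- the error scale -/
noncomputable def LL (n : ℕ) : ℝ := √n * Real.log n

/-- the algebra of a step forward -/
lemma step_fwd {K t a S0 S1 S2 P : ℝ} (hK : 0 ≤ K) (ht : 0 ≤ t) (h1 : (K + 1) * t ≤ 1)
    (ha : 1 ≤ a) (ha2 : a ≤ 2) (hS0 : 0 < S0) (h : a * S0 ≤ S1)
    (hP1 : (1 - (K + 1) * t) * S1 ≤ P) (hP2 : P ^ 2 ≤ S0 * ((1 + K * t) * S2 + K * t * S0)) :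
    (a - (7 * K + 4) * t) * S1 ≤ S2 := by
  have hS1 : S0 ≤ S1 := by nlinarith
  have hS1p : 0 < S1 := by linarith
  have hKt : 0 ≤ K * t := mul_nonneg hK ht
  have e1 : ((1 - (K + 1) * t) * S1) ^ 2 ≤ P ^ 2 :=
    pow_le_pow_left₀ (mul_nonneg (by linarith) hS1p.le) hP1 2
  by_cases hS2 : (1 + K * t) * S2 + K * t * S0 < 0
  · exfalso
    have h3 : S0 * ((1 + K * t) * S2 + K * t * S0) < 0 := mul_neg_of_pos_of_neg hS0 hS2
    have h4 : 0 ≤ P ^ 2 := sq_nonneg P
    linarith
  push Not at hS2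
  have e2 : a * ((1 - (K + 1) * t) * S1) ^ 2 ≤ S1 * ((1 + K * t) * S2 + K * t * S0) := by
    calc a * ((1 - (K + 1) * t) * S1) ^ 2 ≤ a * (S0 * ((1 + K * t) * S2 + K * t * S0)) :=
          mul_le_mul_of_nonneg_left (e1.trans hP2) (by linarith)
      _ = (a * S0) * ((1 + K * t) * S2 + K * t * S0) := by ring
      _ ≤ _ := mul_le_mul_of_nonneg_right h hS2
  have e3 : a * (1 - (K + 1) * t) ^ 2 * S1 ≤ (1 + K * t) * S2 + K * t * S0 := by
    have : S1 * (a * (1 - (K + 1) * t) ^ 2 * S1) ≤ S1 * ((1 + K * t) * S2 + K * t * S0) := by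
      calc _ = a * ((1 - (K + 1) * t) * S1) ^ 2 := by ring
        _ ≤ _ := e2
    exact le_of_mul_le_mul_left this hS1p
  have e4 : a * (1 - 2 * ((K + 1) * t)) ≤ a * (1 - (K + 1) * t) ^ 2 :=
    mul_le_mul_of_nonneg_left (by nlinarith [sq_nonneg ((K + 1) * t)]) (by linarith)
  have e5 : (a * (1 - 2 * ((K + 1) * t)) - K * t) * S1 ≤ (1 + K * t) * S2 := by
    have h5 : K * t * S0 ≤ K * t * S1 := mul_le_mul_of_nonneg_left hS1 hKt
    have h6 := mul_le_mul_of_nonneg_right e4 hS1p.le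
    nlinarith
  have e6 : (1 + K * t) * (a - (7 * K + 4) * t) ≤ a * (1 - 2 * ((K + 1) * t)) - K * t := by
    have h7 : a * (K * t) ≤ 2 * (K * t) := mul_le_mul_of_nonneg_right ha2 hKt
    have h8 : a * t ≤ 2 * t := mul_le_mul_of_nonneg_right ha2 ht
    have h9 : 0 ≤ K * t * ((7 * K + 4) * t) := by positivity
    nlinarith
  have e7 : (1 + K * t) * ((a - (7 * K + 4) * t) * S1) ≤ (1 + K * t) * S2 := by
    calc _ = ((1 + K * t) * (a - (7 * K + 4) * t)) * S1 := by ring
      _ ≤ (a * (1 - 2 * ((K + 1) * t)) - K * t) * S1 := mul_le_mul_of_nonneg_right e6 hS1p.le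
      _ ≤ _ := e5
  exact le_of_mul_le_mul_left e7 (by linarith)

/-- the algebra of a step backward -/
lemma step_bwd {K t b S0 S1 S2 P : ℝ} (hK : 0 ≤ K) (ht : 0 ≤ t) (_h1 : (2 * K + 1) * t ≤ 1)
    (hb : 1 / 2 ≤ b) (hb2 : b + (10 * K + 3) * t ≤ 1) (ht0 : 0 < t) (hS0 : 0 ≤ S0) (hS1 : 0 < S1)
    (h : S2 ≤ b * S1)
    (hP1 : (1 - (2 * K + 1) * t) * S1 ≤ P)
    (hP2 : P ^ 2 ≤ S0 * ((1 + 2 * K * t) * S2 + 2 * K * t * S0)) :
    S1 ≤ (b + (10 * K + 3) * t) * S0 := by
  by_contra hcon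
  push Not at hcon
  set b' := b + (10 * K + 3) * t with hb'
  have hKt : 0 ≤ K * t := mul_nonneg hK ht
  have hb'0 : 1 / 2 ≤ b' := by
    have : 0 ≤ (10 * K + 3) * t := by positivity
    linarith
  have e0 : S0 ≤ 2 * S1 := by nlinarith
  have e1 : ((1 - (2 * K + 1) * t) * S1) ^ 2 ≤ P ^ 2 :=
    pow_le_pow_left₀ (mul_nonneg (by linarith) hS1.le) hP1 2
  have e2 : (1 + 2 * K * t) * S2 + 2 * K * t * S0 ≤ ((1 + 2 * K * t) * b + 4 * K * t) * S1 := by
    have h3 := mul_le_mul_of_nonneg_left h (show 0 ≤ 1 + 2 * K * t by linarith)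
    have h4 := mul_le_mul_of_nonneg_left e0 (show 0 ≤ 2 * K * t by linarith)
    nlinarith
  have hM : 0 < (1 + 2 * K * t) * b + 4 * K * t := by
    have : 0 < (1 + 2 * K * t) * b := by
      apply mul_pos <;> linarith
    linarith
  have e3 : b' * ((1 - (2 * K + 1) * t) * S1) ^ 2 ≤
      S1 * (((1 + 2 * K * t) * b + 4 * K * t) * S1) := by
    calc b' * ((1 - (2 * K + 1) * t) * S1) ^ 2
        ≤ b' * (S0 * (((1 + 2 * K * t) * b + 4 * K * t) * S1)) := by
          apply mul_le_mul_of_nonneg_left _ (by linarith)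
          exact e1.trans (hP2.trans (mul_le_mul_of_nonneg_left e2 hS0))
      _ = (b' * S0) * (((1 + 2 * K * t) * b + 4 * K * t) * S1) := by ring
      _ ≤ _ := mul_le_mul_of_nonneg_right hcon.le (mul_pos hM hS1).le
  have e4 : b' * (1 - (2 * K + 1) * t) ^ 2 ≤ (1 + 2 * K * t) * b + 4 * K * t := by
    have h5 : (S1 * S1) * (b' * (1 - (2 * K + 1) * t) ^ 2) ≤
        (S1 * S1) * ((1 + 2 * K * t) * b + 4 * K * t) := by
      calc _ = b' * ((1 - (2 * K + 1) * t) * S1) ^ 2 := by ring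
        _ ≤ _ := e3
        _ = _ := by ring
    exact le_of_mul_le_mul_left h5 (by positivity)
  have e5 : b' * (1 - 2 * ((2 * K + 1) * t)) ≤ b' * (1 - (2 * K + 1) * t) ^ 2 :=
    mul_le_mul_of_nonneg_left (by nlinarith [sq_nonneg ((2 * K + 1) * t)]) (by linarith)
  have hbl : b ≤ 1 := by
    have : 0 ≤ (10 * K + 3) * t := by positivity
    linarith
  have e6 : b' * ((2 * K + 1) * t) ≤ (2 * K + 1) * t := by
    have : 0 ≤ (2 * K + 1) * t := by positivity
    nlinarith
  have e7 : K * t * b ≤ K * t := by nlinarith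
  have e8 : b' ≤ b + (10 * K + 2) * t := by nlinarith
  have e9 : b' = b + (10 * K + 2) * t + t := by rw [hb']; ring
  linarith

/-- a long increasing stretch -/
lemma fwd {s : ℕ → ℝ} {K δ : ℝ} {n : ℕ} (hK : 0 ≤ K) (hn : 0 < n) (hδ : 0 < δ)
    (hδ1 : δ ≤ 1 / 2) (hn2 : (K + 1) / n ≤ 1) (hs : 0 < s n) (h : (1 + δ) * s n ≤ s (n + 1))
    (key : ∀ m, n ≤ m → ∃ P, (1 - K / n) * s (m + 1) - s n / n ≤ P ∧
      P ^ 2 ≤ s m * ((1 + K / n) * s (m + 2) + K / n * s m)) (k : ℕ)
    (hk : (k : ℝ) * (10 * K + 4) ≤ δ / 2 * n) :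
    (1 + δ / 2) ^ k * s n ≤ s (n + k) ∧
      (1 + δ - (10 * K + 4) * k / n) * s (n + k) ≤ s (n + k + 1) := by
  have hn' : (0 : ℝ) < n := by exact_mod_cast hn
  induction k with
  | zero => simpa using h
  | succ k ih =>
    have hk' : (k : ℝ) * (10 * K + 4) ≤ δ / 2 * n := by
      refine le_trans ?_ hk
      push_cast
      nlinarith
    obtain ⟨h1, h2⟩ := ih hk'
    set a : ℝ := 1 + δ - (10 * K + 4) * k / n with ha
    have ha1 : 1 + δ / 2 ≤ a := by
      have : (10 * K + 4) * k / n ≤ δ / 2 := by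
        rw [div_le_iff₀ hn']
        linarith
      linarith
    have ha2 : a ≤ 2 := by
      have : 0 ≤ (10 * K + 4) * k / n := by positivity
      linarith
    have hs1 : s n ≤ s (n + k) := by
      refine le_trans ?_ h1
      exact le_mul_of_one_le_left hs.le (one_le_pow₀ (by linarith))
    have hs0 : 0 < s (n + k) := by linarith
    have hs2 : s (n + k) ≤ s (n + k + 1) := by nlinarith
    refine ⟨?_, ?_⟩
    · calc (1 + δ / 2) ^ (k + 1) * s n = (1 + δ / 2) * ((1 + δ / 2) ^ k * s n) := by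
            rw [pow_succ]; ring
        _ ≤ (1 + δ / 2) * s (n + k) := mul_le_mul_of_nonneg_left h1 (by linarith)
        _ ≤ a * s (n + k) := mul_le_mul_of_nonneg_right ha1 hs0.le
        _ ≤ s (n + (k + 1)) := h2
    · obtain ⟨P, hP1, hP2⟩ := key (n + k) (by omega)
      have e1 : (1 - (K + 1) * (1 / n)) * s (n + k + 1) ≤ P := by
        refine le_trans ?_ hP1
        have h3 : s n / n ≤ s (n + k + 1) / n := by
          apply div_le_div_of_nonneg_right _ hn'.le
          linarith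
        have e : (1 - (K + 1) * (1 / n)) * s (n + k + 1) =
            (1 - K / n) * s (n + k + 1) - s (n + k + 1) / n := by
          field_simp
          ring
        rw [e]
        linarith
      have e2 := step_fwd (K := K) (t := 1 / n) (a := a) (S2 := s (n + k + 2)) hK (by positivity)
        (by rw [mul_one_div]; exact hn2) (by linarith) ha2 hs0 h2 e1 (by
          have e : K * (1 / (n : ℝ)) = K / n := by ring
          rw [e]
          exact hP2)
      refine le_trans ?_ e2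
      apply mul_le_mul_of_nonneg_right _ (by linarith : 0 ≤ s (n + k + 1))
      rw [ha]
      push_cast
      have h3 : (7 * K + 4) * (1 / (n : ℝ)) ≤ (10 * K + 4) * (1 / n) := by
        apply mul_le_mul_of_nonneg_right _ (by positivity)
        linarith
      have h4 : (10 * K + 4) * ((k : ℝ) + 1) / n = (10 * K + 4) * k / n + (10 * K + 4) * (1 / n) := by
        field_simp
      rw [h4]
      linarith

/-- a long decreasing stretch -/
lemma bwd {s : ℕ → ℝ} {K δ : ℝ} {n : ℕ} (hK : 0 ≤ K) (hn : 0 < n) (hδ : 0 < δ)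
    (hδ1 : δ ≤ 1 / 2) (hn2 : (2 * K + 1) / n ≤ 1) (hs0 : ∀ m, 0 ≤ s m) (hs : 0 < s n)
    (h : s (n + 1) ≤ (1 - δ) * s n)
    (key : ∀ m, n ≤ 2 * m → m ≤ n → ∃ P, (1 - 2 * K / n) * s (m + 1) - s n / n ≤ P ∧
      P ^ 2 ≤ s m * ((1 + 2 * K / n) * s (m + 2) + 2 * K / n * s m)) (k : ℕ)
    (hk : (k : ℝ) * (10 * K + 4) ≤ δ / 2 * n) (m : ℕ) (hm : m + k = n) :
    (1 + δ / 2) ^ k * s n ≤ s m ∧
      s (m + 1) ≤ (1 - δ + (10 * K + 4) * k / n) * s m := by
  have hn' : (0 : ℝ) < n := by exact_mod_cast hn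
  induction k generalizing m with
  | zero =>
    have : m = n := by omega
    subst this
    simpa using h
  | succ k ih =>
    have hk' : (k : ℝ) * (10 * K + 4) ≤ δ / 2 * n := by
      refine le_trans ?_ hk
      push_cast
      nlinarith
    obtain ⟨h1, h2⟩ := ih hk' (m + 1) (by omega)
    set b : ℝ := 1 - δ + (10 * K + 4) * k / n with hb
    have hbk : (10 * K + 4) * ((k : ℝ) + 1) / n ≤ δ / 2 := by
      rw [div_le_iff₀ hn']
      push_cast at hk
      linarith
    have hsplit : (10 * K + 4) * ((k : ℝ) + 1) / n =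
        (10 * K + 4) * k / n + (10 * K + 4) * (1 / n) := by
      field_simp
    have hb1 : 1 / 2 ≤ b := by
      have : 0 ≤ (10 * K + 4) * k / n := by positivity
      linarith
    have hb2 : b + (10 * K + 4) * (1 / n) ≤ 1 - δ / 2 := by
      rw [hsplit] at hbk
      linarith
    have hs1 : s n ≤ s (m + 1) := by
      refine le_trans ?_ h1
      exact le_mul_of_one_le_left hs.le (one_le_pow₀ (by linarith))
    have hs1p : 0 < s (m + 1) := by linarith
    have hmn : n ≤ 2 * m := by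
      have h3 : ((k + 1 : ℕ) : ℝ) * 4 ≤ 1 / 4 * n := by
        have h4 : ((k + 1 : ℕ) : ℝ) * 4 ≤ ((k + 1 : ℕ) : ℝ) * (10 * K + 4) :=
          mul_le_mul_of_nonneg_left (by linarith) (Nat.cast_nonneg _)
        have h5 : δ / 2 * n ≤ 1 / 4 * n := mul_le_mul_of_nonneg_right (by linarith) hn'.le
        linarith
      have h4 : ((2 * (k + 1) : ℕ) : ℝ) ≤ n := by
        push_cast at h3 ⊢
        linarith
      have h5 : 2 * (k + 1) ≤ n := by exact_mod_cast h4
      omega
    obtain ⟨P, hP1, hP2⟩ := key m hmn (by omega)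
    have e1 : (1 - (2 * K + 1) * (1 / n)) * s (m + 1) ≤ P := by
      refine le_trans ?_ hP1
      have h3 : s n / n ≤ s (m + 1) / n := div_le_div_of_nonneg_right hs1 hn'.le
      have e : (1 - (2 * K + 1) * (1 / n)) * s (m + 1) =
          (1 - 2 * K / n) * s (m + 1) - s (m + 1) / n := by
        field_simp
        ring
      rw [e]
      linarith
    have h34 : (10 * K + 3) * (1 / (n : ℝ)) ≤ (10 * K + 4) * (1 / n) := by
      apply mul_le_mul_of_nonneg_right _ (by positivity)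
      linarith
    have e2 := step_bwd (K := K) (t := 1 / n) (b := b) hK (by positivity)
      (by rw [mul_one_div]; exact hn2) hb1 (by linarith) (by positivity) (hs0 m) hs1p h2 e1 (by
        rw [mul_one_div]
        exact hP2)
    have e3 : s (m + 1) ≤ (b + (10 * K + 4) * (1 / n)) * s m := by
      refine e2.trans (mul_le_mul_of_nonneg_right ?_ (hs0 m))
      linarith
    refine ⟨?_, ?_⟩
    · have h5 : (1 + δ / 2) * s (m + 1) ≤ s m := by
        calc (1 + δ / 2) * s (m + 1) ≤ (1 + δ / 2) * ((1 - δ / 2) * s m) := by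
              apply mul_le_mul_of_nonneg_left _ (by linarith)
              exact e3.trans (mul_le_mul_of_nonneg_right hb2 (hs0 m))
          _ = (1 - (δ / 2) ^ 2) * s m := by ring
          _ ≤ 1 * s m := by
              apply mul_le_mul_of_nonneg_right _ (hs0 m)
              have := sq_nonneg (δ / 2)
              linarith
          _ = s m := one_mul _
      calc (1 + δ / 2) ^ (k + 1) * s n = (1 + δ / 2) * ((1 + δ / 2) ^ k * s n) := by
            rw [pow_succ]; ring
        _ ≤ (1 + δ / 2) * s (m + 1) := mul_le_mul_of_nonneg_left h1 (by linarith)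
        _ ≤ s m := h5
    · refine e3.trans (le_of_eq ?_)
      rw [hb]
      push_cast
      rw [hsplit]
      ring

/-! ### the ratio lemma -/

open Filter Topology

lemma tend_log : Tendsto (fun n : ℕ => Real.log n / √n) atTop (𝓝 0) := by
  have h1 : (fun x : ℝ => Real.log x) =o[atTop] (fun x : ℝ => x ^ (1 / 2 : ℝ)) :=
    isLittleO_log_rpow_atTop (by norm_num)
  have h2 := h1.tendsto_div_nhds_zero.comp tendsto_natCast_atTop_atTop
  refine h2.congr (fun n => ?_)
  simp only [Function.comp_apply]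
  rw [← Real.sqrt_eq_rpow]

lemma LL_eq {n : ℕ} (hn : 0 < n) : LL n = n * (Real.log n / √n) := by
  have h : (0 : ℝ) < n := by exact_mod_cast hn
  have h1 : 0 < √(n : ℝ) := Real.sqrt_pos.2 h
  have h2 : √(n : ℝ) * √(n : ℝ) = n := Real.mul_self_sqrt h.le
  unfold LL
  rw [mul_div_assoc', eq_div_iff h1.ne']
  calc √(n : ℝ) * Real.log n * √(n : ℝ) = (√(n : ℝ) * √(n : ℝ)) * Real.log n := by ring
    _ = _ := by rw [h2]

lemma LL_le {m n : ℕ} (hm : 1 ≤ m) (hmn : m ≤ 2 * n) (hn : 2 ≤ n) : LL m ≤ 3 * LL n := by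
  have hn' : (2 : ℝ) ≤ n := by exact_mod_cast hn
  have hm' : (1 : ℝ) ≤ m := by exact_mod_cast hm
  have hmn' : (m : ℝ) ≤ 2 * n := by exact_mod_cast hmn
  unfold LL
  have h1 : √(m : ℝ) ≤ 3 / 2 * √(n : ℝ) := by
    rw [show (3 / 2 : ℝ) * √(n : ℝ) = √(9 / 4 * n) by
      rw [Real.sqrt_mul (by norm_num), show (9 / 4 : ℝ) = (3 / 2) ^ 2 by norm_num,
        Real.sqrt_sq (by norm_num)]]
    exact Real.sqrt_le_sqrt (by linarith)
  have h2 : Real.log m ≤ 2 * Real.log n := by
    have h3 : Real.log m ≤ Real.log ((n : ℝ) ^ 2) := Real.log_le_log (by linarith) (by nlinarith)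
    rwa [Real.log_pow] at h3
  have h3 : 0 ≤ Real.log m := Real.log_nonneg hm'
  calc √(m : ℝ) * Real.log m ≤ (3 / 2 * √(n : ℝ)) * (2 * Real.log n) := by gcongr
    _ = _ := by ring

lemma exp_le_aux {x : ℝ} (hx : 0 ≤ x) (hx1 : x ≤ 1 / 2) : Real.exp (x / 2) ≤ 1 + x := by
  have h1 : 1 - x / 2 ≤ Real.exp (-(x / 2)) := by
    have := Real.add_one_le_exp (-(x / 2))
    linarith
  have h2 : Real.exp (-(x / 2)) * Real.exp (x / 2) = 1 := by
    rw [← Real.exp_add]
    simp
  have h3 := Real.exp_pos (x / 2)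
  have h4 : (1 - x / 2) * Real.exp (x / 2) ≤ 1 :=
    (mul_le_mul_of_nonneg_right h1 h3.le).trans h2.le
  have h5 : (1 - x / 2) * (1 + x) ≥ 1 := by nlinarith
  have h6 : (0 : ℝ) < 1 - x / 2 := by linarith
  have h7 : (1 - x / 2) * Real.exp (x / 2) ≤ (1 - x / 2) * (1 + x) := by linarith
  exact le_of_mul_le_mul_left h7 h6

/-- a long monotone stretch is impossible -/
lemma no_long {K C1 C2 δ : ℝ} {n : ℕ} (hK : 0 ≤ K) (_hC1 : 0 ≤ C1) (hδ : 0 < δ)
    (hδ1 : δ ≤ 1 / 2) (hn : 2 ≤ n) (hL : 1 ≤ LL n)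
    (hD : δ ^ 2 * n = 8 * (10 * K + 4) * (3 * C1 + C2 + 2) * LL n) {sn : ℝ}
    (hsn : Real.exp (-(C2 * LL n)) ≤ sn)
    (h : ∀ k : ℕ, (k : ℝ) * (10 * K + 4) ≤ δ / 2 * n →
      (1 + δ / 2) ^ k * sn ≤ Real.exp (C1 * (3 * LL n))) : False := by
  have hn' : (0 : ℝ) < n := by positivity
  set K' : ℝ := 10 * K + 4 with hK'
  have hK'0 : 4 ≤ K' := by linarith
  have hy : 0 ≤ δ / 2 * n / K' := by positivity
  set k : ℕ := ⌊δ / 2 * n / K'⌋₊ with hk
  have hk1 : (k : ℝ) ≤ δ / 2 * n / K' := Nat.floor_le hy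
  have hk2 : δ / 2 * n / K' < k + 1 := Nat.lt_floor_add_one _
  have h1 := h k (by rwa [le_div_iff₀ (by linarith)] at hk1)
  have h2 : Real.exp (k * (δ / 4)) ≤ (1 + δ / 2) ^ k := by
    rw [Real.exp_nat_mul]
    apply pow_le_pow_left₀ (Real.exp_pos _).le
    have := exp_le_aux (x := δ / 2) (by linarith) (by linarith)
    rwa [show δ / 2 / 2 = δ / 4 by ring] at this
  have h3 : Real.exp (k * (δ / 4) + -(C2 * LL n)) ≤ Real.exp (C1 * (3 * LL n)) := by
    rw [Real.exp_add]
    refine le_trans ?_ h1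
    exact mul_le_mul h2 hsn (Real.exp_pos _).le (by positivity)
  have h4 := Real.exp_le_exp.1 h3
  have h5 : (δ / 2 * n / K' - 1) * (δ / 4) ≤ k * (δ / 4) :=
    mul_le_mul_of_nonneg_right (by linarith) (by linarith)
  have h6 : δ / 2 * n / K' * (δ / 4) = (3 * C1 + C2 + 2) * LL n := by
    rw [div_mul_eq_mul_div, div_eq_iff (by linarith)]
    calc δ / 2 * n * (δ / 4) = δ ^ 2 * n / 8 := by ring
      _ = _ := by rw [hD]; ring
  have h7 : (δ / 2 * n / K' - 1) * (δ / 4) = (3 * C1 + C2 + 2) * LL n - δ / 4 := by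
    rw [sub_mul, h6]
    ring
  nlinarith

/-- the ratio lemma -/
theorem ratio_lemma (K C1 C2 : ℝ) (hK : 0 ≤ K) (hC1 : 0 ≤ C1) (hC2 : 0 ≤ C2) :
    ∃ C3 : ℝ, 0 < C3 ∧ ∃ n1 : ℕ, ∀ s : ℕ → ℝ, (∀ m, 0 ≤ s m) →
      (∀ m, 2 ≤ m → s m ≤ Real.exp (C1 * LL m)) →
      (∀ m : ℕ, 60 ≤ m → ∃ P, (1 - K / m) * s (m + 1) - 23 * (997 / 1000) ^ m ≤ P ∧
        P ^ 2 ≤ s m * ((1 + K / m) * s (m + 2) + K / m * s m)) →
      ∀ n : ℕ, n1 ≤ n → Real.exp (-(C2 * LL n)) ≤ s n →
        |s (n + 1) - s n| ≤ C3 * √(Real.log n / √n) * s n := by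
  set D : ℝ := 8 * (10 * K + 4) * (3 * C1 + C2 + 2) with hD
  have hD0 : 0 < D := by positivity
  refine ⟨√D, Real.sqrt_pos.2 hD0, ?_⟩
  set lam : ℝ := -Real.log (997 / 1000) with hlam
  have hlam0 : 0 < lam := by
    rw [hlam]
    have := Real.log_neg (show (0 : ℝ) < 997 / 1000 by norm_num) (by norm_num)
    linarith
  -- eventual facts
  have ev1 : ∀ᶠ n : ℕ in atTop, Real.log n / √n < 1 / (4 * D) :=
    tend_log.eventually_lt_const (by positivity)
  have ev2 : ∀ᶠ n : ℕ in atTop, Real.log n / √n < lam / (4 * (C2 + 4 + 1)) :=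
    tend_log.eventually_lt_const (by positivity)
  have ev3 : ∀ᶠ n : ℕ in atTop, max 120 ⌈2 * K + 1⌉₊ ≤ n := eventually_ge_atTop _
  obtain ⟨n1, hn1⟩ := eventually_atTop.1 (ev1.and (ev2.and ev3))
  refine ⟨n1, fun s hs0 hup hkey n hn hlow => ?_⟩
  obtain ⟨e1, e2, e3⟩ := hn1 n hn
  have hn120 : 120 ≤ n := le_trans (le_max_left _ _) e3
  have hnK : 2 * K + 1 ≤ n := by
    have : ⌈2 * K + 1⌉₊ ≤ n := le_trans (le_max_right _ _) e3
    exact (Nat.le_ceil _).trans (by exact_mod_cast this)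
  have hn0 : (0 : ℝ) < n := by
    have : (120 : ℝ) ≤ n := by exact_mod_cast hn120
    linarith
  have hn120r : (120 : ℝ) ≤ n := by exact_mod_cast hn120
  have hsq : 10 ≤ √(n : ℝ) := by
    apply Real.le_sqrt_of_sq_le
    norm_num
    linarith
  have hlog : 4 ≤ Real.log n := by
    rw [Real.le_log_iff_exp_le hn0]
    have h1 : Real.exp 4 = Real.exp 1 ^ 4 := by
      rw [← Real.exp_nat_mul]
      norm_num
    rw [h1]
    have h2 : Real.exp 1 < 2.7182818286 := Real.exp_one_lt_d9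
    calc Real.exp 1 ^ 4 ≤ 2.7182818286 ^ 4 := pow_le_pow_left₀ (Real.exp_pos _).le h2.le 4
      _ ≤ 120 := by norm_num
      _ ≤ n := hn120r
  have hL1 : 1 ≤ LL n := by
    unfold LL
    nlinarith
  have hLlog : Real.log n ≤ LL n := by
    unfold LL
    nlinarith
  have hLeq := LL_eq (show 0 < n by omega)
  have hsn : 0 < s n := lt_of_lt_of_le (Real.exp_pos _) hlow
  -- the error term
  have herr : ∀ m : ℕ, n ≤ 2 * m → 23 * (997 / 1000 : ℝ) ^ m ≤ s n / n := by
    intro m hm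
    rw [le_div_iff₀ hn0]
    refine le_trans ?_ hlow
    have h1 : (997 / 1000 : ℝ) ^ m = Real.exp (-(lam * m)) := by
      rw [hlam, show -(-Real.log (997 / 1000 : ℝ) * (m : ℝ)) = m * Real.log (997 / 1000) by ring,
        Real.exp_nat_mul, Real.exp_log (by norm_num)]
    have h2 : (n : ℝ) = Real.exp (Real.log n) := (Real.exp_log hn0).symm
    have h3 : (23 : ℝ) ≤ Real.exp 4 := by
      have h4 : Real.exp 4 = Real.exp 1 ^ 4 := by
        rw [← Real.exp_nat_mul]
        norm_num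
      rw [h4]
      have h5 : 2.7182818283 < Real.exp 1 := Real.exp_one_gt_d9
      calc (23 : ℝ) ≤ 2.7182818283 ^ 4 := by norm_num
        _ ≤ _ := pow_le_pow_left₀ (by norm_num) h5.le 4
    calc 23 * (997 / 1000 : ℝ) ^ m * n ≤ Real.exp 4 * Real.exp (-(lam * m)) * Real.exp (Real.log n) := by
          rw [h1, ← h2]
          gcongr
      _ = Real.exp (4 + -(lam * m) + Real.log n) := by rw [Real.exp_add, Real.exp_add]
      _ ≤ Real.exp (-(C2 * LL n)) := by
          apply Real.exp_le_exp.2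
          have h6 : (n : ℝ) ≤ 2 * m := by exact_mod_cast hm
          have h7 : LL n ≤ n * (lam / (4 * (C2 + 4 + 1))) := by
            rw [hLeq]
            exact mul_le_mul_of_nonneg_left e2.le hn0.le
          have h8 : (C2 + 4 + 1) * LL n ≤ n * (lam / 4) := by
            calc (C2 + 4 + 1) * LL n ≤ (C2 + 4 + 1) * (n * (lam / (4 * (C2 + 4 + 1)))) :=
                  mul_le_mul_of_nonneg_left h7 (by positivity)
              _ = _ := by field_simp
          have h9 : lam * (n / 2) ≤ lam * m := mul_le_mul_of_nonneg_left (by linarith) hlam0.le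
          nlinarith
  set δ : ℝ := √D * √(Real.log n / √n) with hδ
  have hq0 : 0 < Real.log n / √(n : ℝ) := by positivity
  have hδ0 : 0 < δ := mul_pos (Real.sqrt_pos.2 hD0) (Real.sqrt_pos.2 hq0)
  have hδ2 : δ ^ 2 = D * (Real.log n / √n) := by
    rw [hδ, mul_pow, Real.sq_sqrt hD0.le, Real.sq_sqrt hq0.le]
  have hδ1 : δ ≤ 1 / 2 := by
    have h1 : δ ^ 2 ≤ (1 / 2) ^ 2 := by
      rw [hδ2]
      have h2 := mul_le_mul_of_nonneg_left e1.le hD0.le
      have h3 : D * (1 / (4 * D)) = 1 / 4 := by field_simp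
      rw [h3] at h2
      linarith
    exact le_of_sq_le_sq h1 (by norm_num)
  have hδn : δ ^ 2 * n = D * LL n := by
    rw [hδ2, hLeq]
    ring
  by_contra hcon
  push Not at hcon
  rcases lt_abs.1 hcon with hc | hc
  · -- increasing
    apply no_long hK hC1 hδ0 hδ1 (by omega) hL1 hδn hlow
    intro k hk
    have hkn : k ≤ n := by
      have h1 : (k : ℝ) * 4 ≤ (k : ℝ) * (10 * K + 4) :=
        mul_le_mul_of_nonneg_left (by linarith) (Nat.cast_nonneg _)
      have h2 : δ / 2 * n ≤ 1 * n := mul_le_mul_of_nonneg_right (by linarith) hn0.le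
      have h3 : (k : ℝ) ≤ n := by nlinarith [Nat.cast_nonneg (α := ℝ) k]
      exact_mod_cast h3
    have h1 := (fwd (K := K) hK (by omega) hδ0 hδ1 (by rw [div_le_one hn0]; linarith) hsn
      (by linarith) (by
        intro m hm
        obtain ⟨P, hP1, hP2⟩ := hkey m (by omega)
        have hm' : (n : ℝ) ≤ m := by exact_mod_cast hm
        have hKm : K / m ≤ K / n := div_le_div_of_nonneg_left hK hn0 hm'
        refine ⟨P, ?_, hP2.trans ?_⟩
        · refine le_trans ?_ hP1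
          have h2 := herr m (by omega)
          have h3 := mul_le_mul_of_nonneg_right (show 1 - K / n ≤ 1 - K / m by linarith)
            (hs0 (m + 1))
          linarith
        · apply mul_le_mul_of_nonneg_left _ (hs0 m)
          exact add_le_add (mul_le_mul_of_nonneg_right (by linarith) (hs0 _))
            (mul_le_mul_of_nonneg_right hKm (hs0 _))) k hk).1
    refine h1.trans ((hup (n + k) (by omega)).trans (Real.exp_le_exp.2 ?_))
    exact mul_le_mul_of_nonneg_left (LL_le (by omega) (by omega) (by omega)) hC1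
  · -- decreasing
    apply no_long hK hC1 hδ0 hδ1 (by omega) hL1 hδn hlow
    intro k hk
    have hkn : k + 2 ≤ n := by
      have h1 : (k : ℝ) * 4 ≤ (k : ℝ) * (10 * K + 4) :=
        mul_le_mul_of_nonneg_left (by linarith) (Nat.cast_nonneg _)
      have h2 : δ / 2 * n ≤ 1 * n := mul_le_mul_of_nonneg_right (by linarith) hn0.le
      have h3 : ((k + 2 : ℕ) : ℝ) ≤ n := by
        push_cast
        nlinarith [Nat.cast_nonneg (α := ℝ) k]
      exact_mod_cast h3
    have h1 := (bwd (K := K) hK (by omega) hδ0 hδ1 (by rw [div_le_one hn0]; linarith) hs0 hsn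
      (by linarith) (by
        intro m hm1 hm2
        obtain ⟨P, hP1, hP2⟩ := hkey m (by omega)
        have hm' : (n : ℝ) ≤ 2 * m := by exact_mod_cast hm1
        have hmp : (0 : ℝ) < m := by linarith
        have hKm : K / m ≤ 2 * K / n := by
          rw [div_le_div_iff₀ hmp hn0]
          nlinarith
        refine ⟨P, ?_, hP2.trans ?_⟩
        · refine le_trans ?_ hP1
          have h2 := herr m (by omega)
          have h3 := mul_le_mul_of_nonneg_right (show 1 - 2 * K / n ≤ 1 - K / m by linarith)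
            (hs0 (m + 1))
          linarith
        · apply mul_le_mul_of_nonneg_left _ (hs0 m)
          exact add_le_add (mul_le_mul_of_nonneg_right (by linarith) (hs0 _))
            (mul_le_mul_of_nonneg_right hKm (hs0 _))) k hk (n - k) (by omega)).1
    refine h1.trans ((hup (n - k) (by omega)).trans (Real.exp_le_exp.2 ?_))
    exact mul_le_mul_of_nonneg_left (LL_le (by omega) (by omega) (by omega)) hC1

end Pool.Agent.Lib.MP_c23e5f_coR
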