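import Pool.Agent.Lib.MP_c23e5f_coR.R4Bounds
import Pool.Agent.Lib.MP_c23e5f_coR.R5Real

set_option autoImplicit false

/-!
# MP_c23e5f_co, regularity of the law of the width: the key inequality
-/

namespace Pool.Agent.Lib.MP_c23e5f_coR

open Pool.Agent.Lib.MP_c23e5f_co
open scoped ENNReal

/-- the sum of a function of the width over the loop words -/
noncomputable def AA (φ : ℕ → ℝ) (N : ℕ) : ℝ := ∑ w ∈ LW N, φ (wd w)

/-- the normalised sums -/
noncomputable def ss (X : ℝ) (φ : ℕ → ℝ) (n : ℕ) : ℝ := X ^ (2 * n) * AA φ (2 * n)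

lemma AA_nonneg {φ : ℕ → ℝ} (hφ : ∀ k, 0 ≤ φ k) (N : ℕ) : 0 ≤ AA φ N :=
  Finset.sum_nonneg (fun _ _ => hφ _)

lemma ss_nonneg {X : ℝ} (hX : 0 ≤ X) {φ : ℕ → ℝ} (hφ : ∀ k, 0 ≤ φ k) (n : ℕ) : 0 ≤ ss X φ n :=
  mul_nonneg (pow_nonneg hX _) (AA_nonneg hφ _)

lemma AA_le {φ : ℕ → ℝ} (hφ : ∀ k, φ k ≤ 1) (N : ℕ) : AA φ N ≤ (LW N).card := by
  unfold AA
  calc ∑ w ∈ LW N, φ (wd w) ≤ ∑ _w ∈ LW N, (1 : ℝ) := Finset.sum_le_sum (fun _ _ => hφ _)
    _ = _ := by simp

lemma first_lower {N m : ℕ} (hm : 0 < m) {φ : ℕ → ℝ} (hφ : ∀ k, 0 ≤ φ k) (hφ1 : ∀ k, φ k ≤ 1) :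
    (1 - 4 / (m : ℝ)) * AA φ N - ((LW N).filter (fun w => ut w < m)).card ≤
      ∑ w ∈ LW N, φ (wd w) * (((ut w : ℝ) - 4) * kap m (ut w)) := by
  have hm' : (0 : ℝ) < m := by exact_mod_cast hm
  have e : (((LW N).filter (fun w => ut w < m)).card : ℝ) =
      ∑ w ∈ LW N, (if ut w < m then (1 : ℝ) else 0) := by
    rw [Finset.card_filter]
    push_cast
    rfl
  rw [e, AA, Finset.mul_sum, ← Finset.sum_sub_distrib]
  apply Finset.sum_le_sum
  intro w _
  have h0 := hφ (wd w)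
  have h1 := hφ1 (wd w)
  unfold kap
  split_ifs with h
  · have h2 : (ut w : ℝ) < m := by exact_mod_cast h
    rw [max_eq_right h2.le]
    have h3 : -(4 / (m : ℝ)) ≤ ((ut w : ℝ) - 4) * (1 / m) := by
      rw [mul_one_div, ← neg_div]
      apply div_le_div_of_nonneg_right _ hm'.le
      have : (0 : ℝ) ≤ ut w := Nat.cast_nonneg _
      linarith
    have h4 := mul_le_mul_of_nonneg_left h3 h0
    nlinarith
  · have h2 : (m : ℝ) ≤ ut w := by exact_mod_cast (not_lt.1 h)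
    rw [max_eq_left h2]
    have hu : (0 : ℝ) < ut w := by linarith
    have h3 : 1 - 4 / (m : ℝ) ≤ ((ut w : ℝ) - 4) * (1 / ut w) := by
      rw [mul_one_div, sub_div, div_self hu.ne']
      have := div_le_div_of_nonneg_left (show (0 : ℝ) ≤ 4 by norm_num) hm' h2
      linarith
    have h4 := mul_le_mul_of_nonneg_left h3 h0
    linarith

/-- the key inequality -/
theorem key_ineq {x : ℝ≥0∞} (hx : IsCrit x) {φ : ℕ → ℝ} (hφ : ∀ k, 0 ≤ φ k)
    (hφ1 : ∀ k, φ k ≤ 1) {n : ℕ} (hn : 60 ≤ n) :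
    ∃ P, (1 - 2304000 / n) * ss x.toReal φ (n + 1) - 23 * (997 / 1000) ^ n ≤ P ∧
      P ^ 2 ≤ ss x.toReal φ n * ((1 + 2304000 / n) * ss x.toReal φ (n + 2) +
        2304000 / n * ss x.toReal φ n) := by
  have hX0 : 0 ≤ x.toReal := ENNReal.toReal_nonneg
  have hX1 : x.toReal ≤ 1 := (toReal_crit_le hx).trans (by norm_num)
  set X := x.toReal with hX
  set m : ℕ := n / 60 with hm
  have hm1 : 1 ≤ m := by omega
  have hmr1 : (1 : ℝ) ≤ m := by exact_mod_cast hm1
  have hm0 : (0 : ℝ) < m := by linarith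
  have hnm : n ≤ 120 * m := by omega
  have hn0 : (0 : ℝ) < n := by
    have : 0 < n := by omega
    exact_mod_cast this
  have hnmr : (n : ℝ) ≤ 120 * m := by exact_mod_cast hnm
  have hinv : 1 / (m : ℝ) ≤ 120 / n := by
    rw [div_le_div_iff₀ hm0 hn0]
    linarith
  have hs1 := ss_nonneg hX0 hφ (n + 1)
  have hs0 := ss_nonneg hX0 hφ n
  have hs2 := ss_nonneg hX0 hφ (n + 2)
  refine ⟨X ^ (2 * n + 2) * ∑ w ∈ LW (2 * n), φ (wd w) * GG m (2 * n) w, ?_, ?_⟩
  · have h1 := first_moment (N := 2 * n) (m := m) hm0 hφ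
    have h2 := first_lower (N := 2 * n + 2) (m := m) (by omega) hφ hφ1
    have h3 := few hx (N := 2 * n + 2) (m := m) (by omega) (by omega)
    have h4 := mul_le_mul_of_nonneg_left (h2.trans h1) (pow_nonneg hX0 (2 * n + 2))
    refine le_trans ?_ h4
    rw [mul_sub]
    have e1 : X ^ (2 * n + 2) * ((1 - 4 / (m : ℝ)) * AA φ (2 * n + 2)) =
        (1 - 4 / (m : ℝ)) * ss X φ (n + 1) := by
      unfold ss
      rw [show 2 * (n + 1) = 2 * n + 2 by ring]
      ring
    rw [e1]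
    have h5 : (1 - 2304000 / n) * ss X φ (n + 1) ≤ (1 - 4 / (m : ℝ)) * ss X φ (n + 1) := by
      apply mul_le_mul_of_nonneg_right _ hs1
      have : 4 / (m : ℝ) ≤ 2304000 / n := by
        calc 4 / (m : ℝ) = 4 * (1 / m) := by ring
          _ ≤ 4 * (120 / n) := by linarith
          _ = 480 / n := by ring
          _ ≤ _ := div_le_div_of_nonneg_right (by norm_num) hn0.le
      linarith
    have h6 : (997 / 1000 : ℝ) ^ (2 * n + 2) ≤ (997 / 1000) ^ n :=
      pow_le_pow_of_le_one (by norm_num) (by norm_num) (by omega)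
    have h7 : X ^ (2 * n + 2) * (((LW (2 * n + 2)).filter (fun w => ut w < m)).card : ℝ) ≤
        23 * (997 / 1000) ^ n := by
      rw [mul_comm]
      linarith
    linarith
  · have h1 := second_moment (N := 2 * n) (m := m) hm0 hφ
    have hcs : (∑ w ∈ LW (2 * n), φ (wd w) * GG m (2 * n) w) ^ 2 ≤
        AA φ (2 * n) * ∑ w ∈ LW (2 * n), φ (wd w) * GG m (2 * n) w ^ 2 := by
      have h2 := Finset.sum_mul_sq_le_sq_mul_sq (LW (2 * n)) (fun w => √(φ (wd w)))
        (fun w => √(φ (wd w)) * GG m (2 * n) w)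
      have e1 : ∀ w : List (ℤ × ℤ), √(φ (wd w)) * (√(φ (wd w)) * GG m (2 * n) w) =
          φ (wd w) * GG m (2 * n) w := by
        intro w
        rw [← mul_assoc, Real.mul_self_sqrt (hφ _)]
      have e2 : ∀ w : List (ℤ × ℤ), √(φ (wd w)) ^ 2 = φ (wd w) := fun w => Real.sq_sqrt (hφ _)
      have e3 : ∀ w : List (ℤ × ℤ), (√(φ (wd w)) * GG m (2 * n) w) ^ 2 =
          φ (wd w) * GG m (2 * n) w ^ 2 := by
        intro w
        rw [mul_pow, Real.sq_sqrt (hφ _)]
      simp only [e1, e2, e3] at h2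
      exact h2
    have hA0 := AA_nonneg hφ (2 * n)
    have hA4 := AA_nonneg hφ (2 * n + 4)
    have e1 : (X ^ (2 * n + 2) * ∑ w ∈ LW (2 * n), φ (wd w) * GG m (2 * n) w) ^ 2 =
        X ^ (4 * n + 4) * (∑ w ∈ LW (2 * n), φ (wd w) * GG m (2 * n) w) ^ 2 := by
      rw [mul_pow, ← pow_mul, show (2 * n + 2) * 2 = 4 * n + 4 by ring]
    rw [e1]
    calc X ^ (4 * n + 4) * (∑ w ∈ LW (2 * n), φ (wd w) * GG m (2 * n) w) ^ 2
        ≤ X ^ (4 * n + 4) * (AA φ (2 * n) * ((1 + 5 / (m : ℝ)) ^ 2 * AA φ (2 * n + 4) +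
            80 * ((2 * n : ℕ) : ℝ) / (m : ℝ) ^ 2 * AA φ (2 * n))) := by
          apply mul_le_mul_of_nonneg_left _ (pow_nonneg hX0 _)
          exact hcs.trans (mul_le_mul_of_nonneg_left h1 hA0)
      _ = ss X φ n * ((1 + 5 / (m : ℝ)) ^ 2 * ss X φ (n + 2) +
            80 * ((2 * n : ℕ) : ℝ) / (m : ℝ) ^ 2 * X ^ 4 * ss X φ n) := by
          unfold ss
          rw [show 2 * (n + 2) = 2 * n + 4 by ring, show 4 * n + 4 = 2 * n + (2 * n + 4) by ring,
            pow_add, pow_add X (2 * n) 4]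
          ring
      _ ≤ _ := by
          apply mul_le_mul_of_nonneg_left _ hs0
          apply add_le_add
          · apply mul_le_mul_of_nonneg_right _ hs2
            have h3 : (1 / (m : ℝ)) ^ 2 ≤ 1 / m := by
              have h4 : 1 / (m : ℝ) ≤ 1 := by
                rw [div_le_one hm0]
                exact hmr1
              have h5 : 0 ≤ 1 / (m : ℝ) := by positivity
              nlinarith
            have h4 : (1 + 5 / (m : ℝ)) ^ 2 = 1 + 10 * (1 / m) + 25 * (1 / (m : ℝ)) ^ 2 := by ring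
            rw [h4]
            have h5 : (35 : ℝ) * (120 / n) ≤ 2304000 / n := by
              rw [mul_div_assoc']
              exact div_le_div_of_nonneg_right (by norm_num) hn0.le
            linarith
          · apply mul_le_mul_of_nonneg_right _ hs0
            have h3 : 80 * ((2 * n : ℕ) : ℝ) / (m : ℝ) ^ 2 ≤ 2304000 / n := by
              have h4 : (n : ℝ) ^ 2 ≤ 14400 * (m : ℝ) ^ 2 := by nlinarith
              rw [div_le_div_iff₀ (by positivity) hn0]
              push_cast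
              nlinarith
            have h4 : X ^ 4 ≤ 1 := pow_le_one₀ hX0 hX1
            calc 80 * ((2 * n : ℕ) : ℝ) / (m : ℝ) ^ 2 * X ^ 4
                ≤ 80 * ((2 * n : ℕ) : ℝ) / (m : ℝ) ^ 2 * 1 :=
                  mul_le_mul_of_nonneg_left h4 (by positivity)
              _ ≤ _ := by rw [mul_one]; exact h3

end Pool.Agent.Lib.MP_c23e5f_coR
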