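import Mathlib

set_option autoImplicit false

/-!
# MP_c23e5f_co: the law of the width of a random square lattice polygon

The rooted oriented loops, the width and the average over the loops are those of the frozen
statements of MP_c23e5f_co.
-/

namespace Pool.Agent.Lib.MP_c23e5f_coR

/-- the rooted oriented self-avoiding loops of length `2 n` (the polygons of perimeter `2 n`, each
counted `4 n` times), as in the frozen statements -/
def Loops (n : ℕ) : Set (ℕ → ℤ × ℤ) :=
  {f : ℕ → ℤ × ℤ | f 0 = (0, 0) ∧ (∀ i, f (i + 2 * n) = f i) ∧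
    (∀ i j, i < 2 * n → j < 2 * n → f i = f j → i = j) ∧
    (∀ i, ((f i).1 - (f (i + 1)).1).natAbs + ((f i).2 - (f (i + 1)).2).natAbs = 1)}

/-- the width of a loop, as in the frozen statements -/
def width (n : ℕ) (f : ℕ → ℤ × ℤ) : ℕ :=
  ((Finset.range (2 * n)) ×ˢ (Finset.range (2 * n))).sup
    (fun p : ℕ × ℕ => ((f p.1).1 - (f p.2).1).natAbs)

/-- the mean of `φ (width)` over the polygons of perimeter `2 n`; `φ k = k` gives `W_n` -/
noncomputable def mean (n : ℕ) (φ : ℕ → ℝ) : ℝ :=
  (∑ᶠ f ∈ Loops n, φ (width n f)) / ((Loops n).ncard : ℝ)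

end Pool.Agent.Lib.MP_c23e5f_coR
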