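import Pool.Agent.Lib.MP_c23e5f_coR.R6Key
import Pool.Agent.Lib.MP_c23e5f_coR.RDefs

set_option autoImplicit false

/-!
# MP_c23e5f_co, regularity of the law of the width: the theorem
-/

namespace Pool.Agent.Lib.MP_c23e5f_coR

open Pool.Agent.Lib.MP_c23e5f_co
open scoped ENNReal

lemma loops_eq (n : ℕ) : Loops n = {f | IsLoop (2 * n) f ∧ f 0 = 0} := W.loopsW_eq n

lemma wd_seg {n : ℕ} {f : ℕ → ℤ × ℤ} (hf0 : f 0 = 0) : wd (seg f 0 (2 * n)) = width n f := by
  have hp : ∀ i, i < 2 * n → pos (seg f 0 (2 * n)) i = f i := by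
    intro i hi
    rw [pos_seg hi.le, hf0]
    simp
  apply le_antisymm
  · apply wdF_le
    intro u hu v hv
    unfold VV at hu hv
    rw [List.mem_toFinset, mem_vs] at hu hv
    obtain ⟨i, hi, rfl⟩ := hu
    obtain ⟨j, hj, rfl⟩ := hv
    rw [length_seg] at hi hj
    rw [hp i hi, hp j hj]
    exact Finset.le_sup (f := fun p : ℕ × ℕ => ((f p.1).1 - (f p.2).1).natAbs)
      (Finset.mk_mem_product (Finset.mem_range.2 hi) (Finset.mem_range.2 hj))
  · apply Finset.sup_le
    rintro ⟨i, j⟩ hij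
    rw [Finset.mem_product, Finset.mem_range, Finset.mem_range] at hij
    simp only at hij ⊢
    rw [← hp i hij.1, ← hp j hij.2]
    exact le_wdF (List.mem_toFinset.2 (pos_mem_vs (by rw [length_seg]; exact hij.1)))
      (List.mem_toFinset.2 (pos_mem_vs (by rw [length_seg]; exact hij.2)))

lemma mean_eq {n : ℕ} (hn : 1 ≤ n) (φ : ℕ → ℝ) :
    mean n φ = AA φ (2 * n) / ((LW (2 * n)).card : ℝ) := by
  have hinj : Set.InjOn (fun f : ℕ → ℤ × ℤ => seg f 0 (2 * n)) (Loops n) := by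
    intro f hf g hg h
    rw [loops_eq] at hf hg
    exact loop_ext (by omega) hf.1 hg.1 hf.2 hg.2 h
  have himg : (fun f : ℕ → ℤ × ℤ => seg f 0 (2 * n)) '' Loops n =
      {w | IsLoopWord (2 * n) w} := by
    ext w
    rw [loops_eq, Set.mem_image]
    have h := isLoopWord_iff (N := 2 * n) (by omega) w
    constructor
    · rintro ⟨f, hf, rfl⟩
      exact (isLoopWord_iff (N := 2 * n) (by omega) _).2 ⟨f, hf, rfl⟩
    · intro hw
      obtain ⟨f, hf, hfw⟩ := h.1 hw
      exact ⟨f, hf, hfw.symm⟩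
  have hcard : (Loops n).ncard = (LW (2 * n)).card := by
    rw [card_LW, ← himg, Set.InjOn.ncard_image hinj]
  have hsum : ∑ᶠ f ∈ Loops n, φ (width n f) = AA φ (2 * n) := by
    have h1 : ∑ᶠ w ∈ (fun f : ℕ → ℤ × ℤ => seg f 0 (2 * n)) '' Loops n, φ (wd w) =
        ∑ᶠ f ∈ Loops n, φ (wd (seg f 0 (2 * n))) := finsum_mem_image hinj
    have h2 : ∑ᶠ f ∈ Loops n, φ (wd (seg f 0 (2 * n))) = ∑ᶠ f ∈ Loops n, φ (width n f) := by
      apply finsum_mem_congr rfl
      intro f hf
      rw [loops_eq] at hf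
      rw [wd_seg hf.2]
    rw [← h2, ← h1, himg, finsum_mem_eq_finite_toFinset_sum _ (finite_LW (2 * n))]
    rfl
  unfold mean
  rw [hsum, hcard]

lemma real_end {a b c d η : ℝ} (hc : 0 < c) (hb : 0 < b) (_ha : 0 ≤ a)
    (hη : 0 ≤ η) (hη1 : η ≤ 1 / 2) (h1 : |a - b| ≤ η * b) (h2 : |d - c| ≤ η * c) :
    |a / d - b / c| ≤ 4 * η * (b / c) := by
  have hd : c / 2 ≤ d := by
    have := (abs_le.1 h2).1
    nlinarith
  have hd0 : 0 < d := by linarith
  have e : a / d - b / c = (a * c - b * d) / (d * c) := by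
    field_simp
  have h3 : |a * c - b * d| ≤ 2 * η * (b * c) := by
    have e2 : a * c - b * d = (a - b) * c - b * (d - c) := by ring
    rw [e2]
    calc |(a - b) * c - b * (d - c)| ≤ |(a - b) * c| + |b * (d - c)| := abs_sub _ _
      _ = |a - b| * c + b * |d - c| := by rw [abs_mul, abs_mul, abs_of_pos hc, abs_of_pos hb]
      _ ≤ (η * b) * c + b * (η * c) := by gcongr
      _ = _ := by ring
  rw [e, abs_div, abs_of_pos (mul_pos hd0 hc), div_le_iff₀ (mul_pos hd0 hc)]
  refine h3.trans ?_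
  have e3 : 4 * η * (b / c) * (d * c) = 4 * η * b * d := by
    field_simp
  rw [e3]
  have : 4 * η * b * (c / 2) ≤ 4 * η * b * d := mul_le_mul_of_nonneg_left hd (by positivity)
  linarith

theorem law_large : ∃ C : ℝ, 0 < C ∧ ∃ n0 : ℕ, ∀ n : ℕ, n0 ≤ n → ∀ φ : ℕ → ℝ,
    (∀ k, 0 ≤ φ k) → (∀ k, φ k ≤ 1) →
    |mean (n + 1) φ - mean n φ| ≤ C * √(Real.log n / √n) * (mean n φ + Real.exp (-√n)) := by
  obtain ⟨x, hx⟩ := exists_crit
  obtain ⟨C0, hC0, hlow⟩ := loops_lower'
  obtain ⟨C3, hC3, n1, hr⟩ := ratio_lemma 2304000 36 (3 * C0 + 2) (by norm_num) (by norm_num)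
    (by positivity)
  have hX0 : 0 ≤ x.toReal := ENNReal.toReal_nonneg
  have hXpos : 0 < x.toReal := by
    have h1 := hx.quarter_le
    have h2 : x ≠ ⊤ := ne_top_of_le_ne_top ENNReal.one_ne_top hx.le_one
    apply ENNReal.toReal_pos _ h2
    intro h0
    rw [h0] at h1
    simp at h1
  set X := x.toReal with hX
  have ev1 : ∀ᶠ n : ℕ in Filter.atTop, Real.log n / √n < 1 / (4 * C3 ^ 2) :=
    tend_log.eventually_lt_const (by positivity)
  obtain ⟨n2, hn2⟩ := Filter.eventually_atTop.1 ev1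
  refine ⟨4 * C3, by positivity, max (max n1 n2) 3, fun n hn φ hφ hφ1 => ?_⟩
  have hna : n1 ≤ n := le_trans (le_max_left _ _) (le_trans (le_max_left _ _) hn)
  have hnb : n2 ≤ n := le_trans (le_max_right _ _) (le_trans (le_max_left _ _) hn)
  have hn3 : 3 ≤ n := le_trans (le_max_right _ _) hn
  have hn3r : (3 : ℝ) ≤ n := by exact_mod_cast hn3
  have hlog1 : 1 ≤ Real.log n := by
    rw [Real.le_log_iff_exp_le (by linarith)]
    have := Real.exp_one_lt_d9
    linarith
  have hsq1 : 1 ≤ √(n : ℝ) := by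
    rw [Real.one_le_sqrt]
    linarith
  have hLs : √(n : ℝ) ≤ LL n := by
    unfold LL
    nlinarith
  -- the number of the loops
  have hupper : ∀ ψ : ℕ → ℝ, (∀ k, ψ k ≤ 1) → ∀ m, 2 ≤ m → ss X ψ m ≤ Real.exp (36 * LL m) := by
    intro ψ hψ m hm
    have h1 : ss X ψ m ≤ X ^ (2 * m) * (LW (2 * m)).card :=
      mul_le_mul_of_nonneg_left (AA_le hψ _) (pow_nonneg hX0 _)
    refine h1.trans ?_
    rw [mul_comm]
    refine (loops_upper hx (N := 2 * m) (by omega)).trans (Real.exp_le_exp.2 ?_)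
    have h2 := LL_le (m := 2 * m) (n := m) (by omega) le_rfl hm
    have h3 : √((2 * m : ℕ) : ℝ) * Real.log ((2 * m : ℕ) : ℝ) = LL (2 * m) := rfl
    rw [h3]
    linarith
  have hL2 : LL (2 * n) ≤ 3 * LL n := LL_le (m := 2 * n) (n := n) (by omega) le_rfl (by omega)
  have hcardlow : Real.exp (-(3 * C0 * LL n)) ≤ ((LW (2 * n)).card : ℝ) * X ^ (2 * n) := by
    refine le_trans (Real.exp_le_exp.2 ?_) (hlow x hx (2 * n) ⟨n, by ring⟩ (by omega))
    have h3 : √((2 * n : ℕ) : ℝ) * Real.log ((2 * n : ℕ) : ℝ) = LL (2 * n) := rfl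
    rw [h3]
    have := mul_le_mul_of_nonneg_left hL2 hC0.le
    linarith
  have hcardpos : ∀ m, 2 ≤ m → 0 < ((LW (2 * m)).card : ℝ) := by
    intro m hm
    have h1 := hlow x hx (2 * m) ⟨m, by ring⟩ (by omega)
    have h2 := lt_of_lt_of_le (Real.exp_pos _) h1
    rcases (Nat.cast_nonneg (α := ℝ) (LW (2 * m)).card).eq_or_lt with h3 | h3
    · rw [← h3, zero_mul] at h2
      exact absurd h2 (lt_irrefl _)
    · exact h3
  -- the constant function
  set one : ℕ → ℝ := fun _ => 1 with hone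
  have hA1 : ∀ N, AA one N = (LW N).card := by
    intro N
    simp [AA, hone]
  have hs1 : ∀ m, ss X one m = X ^ (2 * m) * (LW (2 * m)).card := by
    intro m
    rw [ss, hA1]
  have r1 := hr (ss X one) (ss_nonneg hX0 (fun _ => by simp [hone])) (hupper one (fun _ => le_rfl))
    (fun m hm => key_ineq hx (fun _ => by simp [hone]) (fun _ => le_rfl) hm) n hna (by
      rw [hs1, mul_comm (X ^ (2 * n))]
      refine le_trans (Real.exp_le_exp.2 ?_) hcardlow
      have : 0 ≤ LL n := by linarith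
      nlinarith)
  -- the modified function
  set ε : ℝ := Real.exp (-√n) with hε
  have hε0 : 0 < ε := Real.exp_pos _
  have hε1 : ε ≤ 1 := by
    rw [hε]
    apply Real.exp_le_one_iff.2
    linarith
  set ψ : ℕ → ℝ := fun k => (φ k + ε) / 2 with hψ
  have hψ0 : ∀ k, 0 ≤ ψ k := fun k => by
    have := hφ k
    simp only [hψ]
    linarith
  have hψ1 : ∀ k, ψ k ≤ 1 := fun k => by
    have := hφ1 k
    simp only [hψ]
    linarith
  have hAψ : ∀ N, AA ψ N = (AA φ N + ε * (LW N).card) / 2 := by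
    intro N
    unfold AA
    simp only [hψ]
    rw [← Finset.sum_div, Finset.sum_add_distrib, Finset.sum_const, nsmul_eq_mul, mul_comm ε]
  have hmean : ∀ m, 2 ≤ m → mean m φ + ε = 2 * (AA ψ (2 * m) / (LW (2 * m)).card) := by
    intro m hm
    have h := hcardpos m hm
    rw [mean_eq (by omega), hAψ]
    field_simp
  have r2 := hr (ss X ψ) (ss_nonneg hX0 hψ0) (hupper ψ hψ1)
    (fun m hm => key_ineq hx hψ0 hψ1 hm) n hna (by
      have h1 : ε / 2 * (LW (2 * n)).card ≤ AA ψ (2 * n) := by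
        rw [hAψ]
        have := AA_nonneg hφ (2 * n)
        linarith
      have h2 : ε / 2 * (((LW (2 * n)).card : ℝ) * X ^ (2 * n)) ≤ ss X ψ n := by
        unfold ss
        calc ε / 2 * (((LW (2 * n)).card : ℝ) * X ^ (2 * n)) =
              X ^ (2 * n) * (ε / 2 * (LW (2 * n)).card) := by ring
          _ ≤ _ := mul_le_mul_of_nonneg_left h1 (pow_nonneg hX0 _)
      refine le_trans ?_ h2
      have h3 : Real.exp (-√n - 1) ≤ ε / 2 := by
        rw [Real.exp_sub, ← hε]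
        apply div_le_div_of_nonneg_left hε0.le (by norm_num)
        have := Real.exp_one_gt_d9
        linarith
      calc Real.exp (-((3 * C0 + 2) * LL n)) ≤ Real.exp ((-√n - 1) + -(3 * C0 * LL n)) := by
            apply Real.exp_le_exp.2
            linarith
        _ = Real.exp (-√n - 1) * Real.exp (-(3 * C0 * LL n)) := Real.exp_add _ _
        _ ≤ _ := mul_le_mul h3 hcardlow (Real.exp_pos _).le (by positivity))
  set η : ℝ := C3 * √(Real.log n / √n) with hη
  have hq0 : 0 ≤ Real.log n / √(n : ℝ) := by positivity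
  have hη0 : 0 ≤ η := by positivity
  have hη1 : η ≤ 1 / 2 := by
    have h1 : η ^ 2 ≤ (1 / 2) ^ 2 := by
      rw [hη, mul_pow, Real.sq_sqrt hq0]
      have h2 := mul_le_mul_of_nonneg_left (hn2 n hnb).le (sq_nonneg C3)
      have h3 : C3 ^ 2 * (1 / (4 * C3 ^ 2)) = 1 / 4 := by field_simp
      rw [h3] at h2
      linarith
    exact le_of_sq_le_sq h1 (by norm_num)
  have hcn := hcardpos n (by omega)
  have hcn1 := hcardpos (n + 1) (by omega)
  have hc : 0 < ss X one n := by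
    rw [hs1]
    exact mul_pos (pow_pos hXpos _) hcn
  have hb : 0 < ss X ψ n := by
    unfold ss
    apply mul_pos (pow_pos hXpos _)
    rw [hAψ]
    have h1 := AA_nonneg hφ (2 * n)
    have h2 := mul_pos hε0 hcn
    linarith
  have key := real_end hc hb (ss_nonneg hX0 hψ0 (n + 1)) hη0 hη1 r2 r1
  have e1 : ∀ m, 2 ≤ m → ss X ψ m / ss X one m = (mean m φ + ε) / 2 := by
    intro m hm
    rw [hmean m hm, hs1, ss]
    have h1 := hcardpos m hm
    have h2 : 0 < X ^ (2 * m) := pow_pos hXpos _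
    field_simp
  rw [e1 (n + 1) (by omega), e1 n (by omega)] at key
  have e2 : (mean (n + 1) φ + ε) / 2 - (mean n φ + ε) / 2 = (mean (n + 1) φ - mean n φ) / 2 := by
    ring
  rw [e2, abs_div, abs_of_pos (show (0 : ℝ) < 2 by norm_num)] at key
  linarith

lemma mean_mem {n : ℕ} (hn : 1 ≤ n) {φ : ℕ → ℝ} (hφ : ∀ k, 0 ≤ φ k) (hφ1 : ∀ k, φ k ≤ 1) :
    0 ≤ mean n φ ∧ mean n φ ≤ 1 := by
  rw [mean_eq hn]
  exact ⟨div_nonneg (AA_nonneg hφ _) (Nat.cast_nonneg _),
    div_le_one_of_le₀ (AA_le hφ1 _) (Nat.cast_nonneg _)⟩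

/-- the law of the width changes slowly -/
theorem law_all : ∃ C : ℝ, 0 < C ∧ ∀ n : ℕ, 2 ≤ n → ∀ φ : ℕ → ℝ,
    (∀ k, 0 ≤ φ k ∧ φ k ≤ 1) →
    |mean (n + 1) φ - mean n φ| ≤
      C * √(Real.log n) / (n : ℝ) ^ ((1 : ℝ) / 4) * (mean n φ + Real.exp (-√n)) := by
  obtain ⟨C, hC, n0, h⟩ := law_large
  have hlog2 : 0 < Real.log 2 := Real.log_pos (by norm_num)
  set N : ℝ := max n0 1 with hN
  have hN1 : 1 ≤ N := le_max_right _ _
  have hsN : 0 < √N := Real.sqrt_pos.2 (by linarith)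
  set c0 : ℝ := √(Real.log 2 / √N) * Real.exp (-√N) with hc0
  have hc00 : 0 < c0 := mul_pos (Real.sqrt_pos.2 (by positivity)) (Real.exp_pos _)
  refine ⟨max C (1 / c0), lt_max_of_lt_left hC, fun n hn φ hφ => ?_⟩
  have hn0 : (0 : ℝ) < n := by
    have : 0 < n := by omega
    exact_mod_cast this
  have hn2 : (2 : ℝ) ≤ n := by exact_mod_cast hn
  have hlogn : 0 ≤ Real.log n := Real.log_nonneg (by linarith)
  have e : max C (1 / c0) * √(Real.log n) / (n : ℝ) ^ ((1 : ℝ) / 4) =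
      max C (1 / c0) * √(Real.log n / √n) := by
    rw [Real.sqrt_div hlogn, mul_div_assoc]
    congr 2
    rw [Real.sqrt_eq_rpow, Real.sqrt_eq_rpow, ← Real.rpow_mul hn0.le]
    norm_num
  rw [e]
  have hm := mean_mem (n := n) (by omega) (fun k => (hφ k).1) (fun k => (hφ k).2)
  have hm1 := mean_mem (n := n + 1) (by omega) (fun k => (hφ k).1) (fun k => (hφ k).2)
  have hpos : 0 ≤ mean n φ + Real.exp (-√n) := add_nonneg hm.1 (Real.exp_pos _).le
  rcases Nat.lt_or_ge n n0 with hlt | hge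
  · have h1 : |mean (n + 1) φ - mean n φ| ≤ 1 := by
      rw [abs_le]
      constructor <;> linarith [hm.1, hm.2, hm1.1, hm1.2]
    refine h1.trans ?_
    have hnN : (n : ℝ) ≤ N := by
      refine le_trans ?_ (le_max_left _ _)
      exact_mod_cast hlt.le
    have h2 : c0 ≤ √(Real.log n / √n) * (mean n φ + Real.exp (-√n)) := by
      rw [hc0]
      have hsn : 0 < √(n : ℝ) := Real.sqrt_pos.2 hn0
      have h3 : √(n : ℝ) ≤ √N := Real.sqrt_le_sqrt hnN
      have h4 : Real.log 2 / √N ≤ Real.log n / √n :=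
        div_le_div₀ hlogn (Real.log_le_log (by norm_num) hn2) hsn h3
      have h5 : Real.exp (-√N) ≤ mean n φ + Real.exp (-√n) := by
        have := Real.exp_le_exp.2 (neg_le_neg h3)
        linarith [hm.1]
      exact mul_le_mul (Real.sqrt_le_sqrt h4) h5 (Real.exp_pos _).le (Real.sqrt_nonneg _)
    calc (1 : ℝ) = 1 / c0 * c0 := by field_simp
      _ ≤ max C (1 / c0) * (√(Real.log n / √n) * (mean n φ + Real.exp (-√n))) :=
          mul_le_mul (le_max_right _ _) h2 hc00.le (le_trans (by positivity) (le_max_left C _))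
      _ = _ := by ring
  · refine (h n hge φ (fun k => (hφ k).1) (fun k => (hφ k).2)).trans ?_
    apply mul_le_mul_of_nonneg_right _ hpos
    exact mul_le_mul_of_nonneg_right (le_max_left _ _) (Real.sqrt_nonneg _)

lemma fst_sub_le {f : ℕ → ℤ × ℤ}
    (hf : ∀ i, ((f i).1 - (f (i + 1)).1).natAbs + ((f i).2 - (f (i + 1)).2).natAbs = 1)
    (i k : ℕ) : ((f i).1 - (f (i + k)).1).natAbs ≤ k := by
  induction k with
  | zero => simp
  | succ k ih =>
    have h := hf (i + k)
    rw [← add_assoc]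
    omega

lemma width_le {n : ℕ} {f : ℕ → ℤ × ℤ} (hf : f ∈ Loops n) : width n f ≤ n := by
  obtain ⟨h0, hper, -, hstep⟩ := hf
  have key : ∀ i j, i ≤ j → j < 2 * n → ((f i).1 - (f j).1).natAbs ≤ n := by
    intro i j hij hj
    rcases Nat.lt_or_ge (j - i) (n + 1) with h | h
    · have h1 := fst_sub_le hstep i (j - i)
      rw [show i + (j - i) = j by omega] at h1
      omega
    · have h1 := fst_sub_le hstep j (i + 2 * n - j)
      rw [show j + (i + 2 * n - j) = i + 2 * n by omega, hper] at h1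
      omega
  apply Finset.sup_le
  rintro ⟨i, j⟩ hij
  rw [Finset.mem_product, Finset.mem_range, Finset.mem_range] at hij
  simp only at hij ⊢
  rcases le_total i j with h | h
  · exact key i j h hij.2
  · have := key j i h hij.1
    omega

lemma mean_congr {n : ℕ} {φ ψ : ℕ → ℝ} (h : ∀ k, k ≤ n → φ k = ψ k) : mean n φ = mean n ψ := by
  unfold mean
  congr 1
  apply finsum_mem_congr rfl
  intro f hf
  exact h _ (width_le hf)

/-- the law of the width changes slowly, for functions bounded by `M` -/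
theorem law_final : ∃ C : ℝ, 0 < C ∧ ∀ n : ℕ, 2 ≤ n → ∀ (φ : ℕ → ℝ) (M : ℝ),
    (∀ k, k ≤ n + 1 → 0 ≤ φ k ∧ φ k ≤ M) →
    |mean (n + 1) φ - mean n φ| ≤
      C * √(Real.log n) / (n : ℝ) ^ ((1 : ℝ) / 4) * (mean n φ + M * Real.exp (-√n)) := by
  obtain ⟨C, hC, h⟩ := law_all
  refine ⟨C, hC, fun n hn φ M hφ => ?_⟩
  have hM : 0 ≤ M := (hφ 0 (by omega)).1.trans (hφ 0 (by omega)).2
  rcases hM.eq_or_lt with hM0 | hM0
  · have h0 : ∀ k, k ≤ n + 1 → φ k = 0 := fun k hk =>
      le_antisymm (hM0 ▸ (hφ k hk).2) (hφ k hk).1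
    have e1 : mean (n + 1) φ = mean (n + 1) (fun _ => 0) := mean_congr h0
    have e2 : mean n φ = mean n (fun _ => 0) := mean_congr (fun k hk => h0 k (by omega))
    rw [e1, e2, ← hM0]
    simp [mean]
  · set ψ : ℕ → ℝ := fun k => if k ≤ n + 1 then φ k / M else 0 with hψ
    have hψ01 : ∀ k, 0 ≤ ψ k ∧ ψ k ≤ 1 := by
      intro k
      simp only [hψ]
      split_ifs with hk
      · exact ⟨div_nonneg (hφ k hk).1 hM, div_le_one_of_le₀ (hφ k hk).2 hM⟩
      · exact ⟨le_rfl, zero_le_one⟩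
    have e : ∀ m, 1 ≤ m → m ≤ n + 1 → mean m ψ = mean m φ / M := by
      intro m hm1 hm
      have e1 : mean m ψ = mean m (fun k => φ k / M) := by
        apply mean_congr
        intro k hk
        simp only [hψ]
        rw [if_pos (by omega)]
      rw [e1, mean_eq hm1, mean_eq hm1, AA, AA, ← Finset.sum_div]
      ring
    have h1 := h n hn ψ hψ01
    rw [e (n + 1) (by omega) le_rfl, e n (by omega) (by omega), ← sub_div, abs_div,
      abs_of_pos hM0, div_le_iff₀ hM0] at h1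
    refine h1.trans (le_of_eq ?_)
    field_simp

end Pool.Agent.Lib.MP_c23e5f_coR
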