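import Pool.Agent.Lib.MP_c23e5f_coR.R7Final

set_option autoImplicit false

/-!
# MP_c23e5f_co, regularity of the mean width: average increments
-/

namespace Pool.Agent.Lib.MP_c23e5f_coR

open Pool.Agent.Lib.MP_c23e5f_co
open scoped ENNReal
open Filter Topology

/-- a sequence of bounded oscillation whose first differences have bounded variation -/
lemma sum_diff_le {r : ℕ → ℝ} {N l : ℕ} {R T : ℝ} (hl : 1 ≤ l) (hlN : l ≤ N)
    (hr : ∀ m, N ≤ m → m ≤ 3 * N → |r m| ≤ R)
    (hT : ∑ m ∈ Finset.Ico N (3 * N), |(r (m + 2) - r (m + 1)) - (r (m + 1) - r m)| ≤ T) :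
    ∑ n ∈ Finset.Ico N (2 * N), |r (n + 1) - r n| ≤ 2 * R * N / l + l * T := by
  set δ : ℕ → ℝ := fun m => (r (m + 2) - r (m + 1)) - (r (m + 1) - r m) with hδ
  have hl' : (0 : ℝ) < l := by exact_mod_cast hl
  -- a single term
  have h1 : ∀ n i, |(r (n + i + 1) - r (n + i)) - (r (n + 1) - r n)| ≤
      ∑ j ∈ Finset.range i, |δ (n + j)| := by
    intro n i
    induction i with
    | zero => simp
    | succ i ih =>
      rw [Finset.sum_range_succ]
      have e : (r (n + (i + 1) + 1) - r (n + (i + 1))) - (r (n + 1) - r n) =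
          ((r (n + i + 1) - r (n + i)) - (r (n + 1) - r n)) + δ (n + i) := by
        simp only [hδ]
        rw [show n + (i + 1) + 1 = n + i + 2 by ring, show n + (i + 1) = n + i + 1 by ring]
        ring
      rw [e]
      exact (abs_add_le _ _).trans (add_le_add ih le_rfl)
  have h2 : ∀ n, N ≤ n → n < 2 * N → |r (n + 1) - r n| ≤
      2 * R / l + ∑ j ∈ Finset.range l, |δ (n + j)| := by
    intro n hn hn2
    have e1 : ∑ i ∈ Finset.range l, (r (n + i + 1) - r (n + i)) = r (n + l) - r n := by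
      have := Finset.sum_range_sub (fun i => r (n + i)) l
      simpa [add_assoc] using this
    have e2 : (l : ℝ) * (r (n + 1) - r n) = (r (n + l) - r n) -
        ∑ i ∈ Finset.range l, ((r (n + i + 1) - r (n + i)) - (r (n + 1) - r n)) := by
      rw [Finset.sum_sub_distrib, e1, Finset.sum_const, Finset.card_range, nsmul_eq_mul]
      ring
    have h3 : |∑ i ∈ Finset.range l, ((r (n + i + 1) - r (n + i)) - (r (n + 1) - r n))| ≤
        l * ∑ j ∈ Finset.range l, |δ (n + j)| := by
      refine (Finset.abs_sum_le_sum_abs _ _).trans ?_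
      calc ∑ i ∈ Finset.range l, |(r (n + i + 1) - r (n + i)) - (r (n + 1) - r n)|
          ≤ ∑ _i ∈ Finset.range l, ∑ j ∈ Finset.range l, |δ (n + j)| := by
            apply Finset.sum_le_sum
            intro i hi
            rw [Finset.mem_range] at hi
            refine (h1 n i).trans ?_
            apply Finset.sum_le_sum_of_subset_of_nonneg
            · intro j hj
              rw [Finset.mem_range] at hj ⊢
              omega
            · intro j _ _
              exact abs_nonneg _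
        _ = _ := by rw [Finset.sum_const, Finset.card_range, nsmul_eq_mul]
    have h4 : |r (n + l) - r n| ≤ 2 * R := by
      have h5 := hr (n + l) (by omega) (by omega)
      have h6 := hr n hn (by omega)
      rw [abs_le] at h5 h6 ⊢
      constructor <;> linarith [h5.1, h5.2, h6.1, h6.2]
    have h5 : (l : ℝ) * |r (n + 1) - r n| ≤ 2 * R + l * ∑ j ∈ Finset.range l, |δ (n + j)| := by
      calc (l : ℝ) * |r (n + 1) - r n| = |(l : ℝ) * (r (n + 1) - r n)| := by
            rw [abs_mul, abs_of_pos hl']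
        _ ≤ |r (n + l) - r n| +
            |∑ i ∈ Finset.range l, ((r (n + i + 1) - r (n + i)) - (r (n + 1) - r n))| := by
            rw [e2]
            exact abs_sub _ _
        _ ≤ _ := add_le_add h4 h3
    have h6 : (l : ℝ) * |r (n + 1) - r n| ≤
        l * (2 * R / l + ∑ j ∈ Finset.range l, |δ (n + j)|) := by
      refine h5.trans (le_of_eq ?_)
      field_simp
    exact le_of_mul_le_mul_left h6 hl'
  calc ∑ n ∈ Finset.Ico N (2 * N), |r (n + 1) - r n|
      ≤ ∑ n ∈ Finset.Ico N (2 * N), (2 * R / l + ∑ j ∈ Finset.range l, |δ (n + j)|) := by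
        apply Finset.sum_le_sum
        intro n hn
        rw [Finset.mem_Ico] at hn
        exact h2 n hn.1 hn.2
    _ = N * (2 * R / l) + ∑ j ∈ Finset.range l, ∑ n ∈ Finset.Ico N (2 * N), |δ (n + j)| := by
        rw [Finset.sum_add_distrib, Finset.sum_const, Nat.card_Ico, nsmul_eq_mul,
          Finset.sum_comm]
        congr 3
        omega
    _ ≤ N * (2 * R / l) + ∑ _j ∈ Finset.range l, T := by
        apply add_le_add le_rfl
        apply Finset.sum_le_sum
        intro j hj
        rw [Finset.mem_range] at hj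
        refine le_trans ?_ hT
        rw [Finset.sum_Ico_add' (fun m => |δ m|) N (2 * N) j]
        apply Finset.sum_le_sum_of_subset_of_nonneg
        · intro m hm
          rw [Finset.mem_Ico] at hm ⊢
          omega
        · intro m _ _
          exact abs_nonneg _
    _ = _ := by
        rw [Finset.sum_const, Finset.card_range, nsmul_eq_mul]
        ring

lemma err_ev (C2 : ℝ) (hC2 : 0 ≤ C2) : ∀ᶠ n : ℕ in atTop,
    23 * (997 / 1000 : ℝ) ^ n ≤ Real.exp (-(C2 * LL n)) / n := by
  set lam : ℝ := -Real.log (997 / 1000) with hlam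
  have hlam0 : 0 < lam := by
    rw [hlam]
    have := Real.log_neg (show (0 : ℝ) < 997 / 1000 by norm_num) (by norm_num)
    linarith
  have ev2 : ∀ᶠ n : ℕ in atTop, Real.log n / √n < lam / (C2 + 4 + 1) :=
    tend_log.eventually_lt_const (by positivity)
  filter_upwards [ev2, eventually_ge_atTop 120] with n e2 hn120
  have hn0 : (0 : ℝ) < n := by
    have : (120 : ℝ) ≤ n := by exact_mod_cast hn120
    linarith
  have hn120r : (120 : ℝ) ≤ n := by exact_mod_cast hn120
  have hsq : 10 ≤ √(n : ℝ) := by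
    apply Real.le_sqrt_of_sq_le
    norm_num
    linarith
  have hlog : 4 ≤ Real.log n := by
    rw [Real.le_log_iff_exp_le hn0]
    have h1 : Real.exp 4 = Real.exp 1 ^ 4 := by
      rw [← Real.exp_nat_mul]
      norm_num
    rw [h1]
    have h2 : Real.exp 1 < 2.7182818286 := Real.exp_one_lt_d9
    calc Real.exp 1 ^ 4 ≤ 2.7182818286 ^ 4 := pow_le_pow_left₀ (Real.exp_pos _).le h2.le 4
      _ ≤ 120 := by norm_num
      _ ≤ n := hn120r
  have hL1 : 1 ≤ LL n := by
    unfold LL
    nlinarith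
  have hLlog : Real.log n ≤ LL n := by
    unfold LL
    nlinarith
  have hLeq := LL_eq (show 0 < n by omega)
  rw [le_div_iff₀ hn0]
  have h1 : (997 / 1000 : ℝ) ^ n = Real.exp (-(lam * n)) := by
    rw [hlam, show -(-Real.log (997 / 1000 : ℝ) * (n : ℝ)) = n * Real.log (997 / 1000) by ring,
      Real.exp_nat_mul, Real.exp_log (by norm_num)]
  have h2 : (n : ℝ) = Real.exp (Real.log n) := (Real.exp_log hn0).symm
  have h3 : (23 : ℝ) ≤ Real.exp 4 := by
    have h4 : Real.exp 4 = Real.exp 1 ^ 4 := by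
      rw [← Real.exp_nat_mul]
      norm_num
    rw [h4]
    have h5 : 2.7182818283 < Real.exp 1 := Real.exp_one_gt_d9
    calc (23 : ℝ) ≤ 2.7182818283 ^ 4 := by norm_num
      _ ≤ _ := pow_le_pow_left₀ (by norm_num) h5.le 4
  calc 23 * (997 / 1000 : ℝ) ^ n * n ≤
        Real.exp 4 * Real.exp (-(lam * n)) * Real.exp (Real.log n) := by
        rw [h1, ← h2]
        gcongr
    _ = Real.exp (4 + -(lam * n) + Real.log n) := by rw [Real.exp_add, Real.exp_add]
    _ ≤ Real.exp (-(C2 * LL n)) := by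
        apply Real.exp_le_exp.2
        have h7 : LL n ≤ n * (lam / (C2 + 4 + 1)) := by
          rw [hLeq]
          exact mul_le_mul_of_nonneg_left e2.le hn0.le
        have h8 : (C2 + 4 + 1) * LL n ≤ n * lam := by
          calc (C2 + 4 + 1) * LL n ≤ (C2 + 4 + 1) * (n * (lam / (C2 + 4 + 1))) :=
                mul_le_mul_of_nonneg_left h7 (by positivity)
            _ = _ := by field_simp
        nlinarith

/-- the second differences of the logarithms are bounded from below -/
theorem second_diff (K C1 C2 : ℝ) (hK : 0 ≤ K) (hC1 : 0 ≤ C1) (hC2 : 0 ≤ C2) :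
    ∃ n1 : ℕ, ∀ s : ℕ → ℝ, (∀ m, 0 ≤ s m) →
      (∀ m, 2 ≤ m → s m ≤ Real.exp (C1 * LL m)) →
      (∀ m : ℕ, 60 ≤ m → ∃ P, (1 - K / m) * s (m + 1) - 23 * (997 / 1000) ^ m ≤ P ∧
        P ^ 2 ≤ s m * ((1 + K / m) * s (m + 2) + K / m * s m)) →
      ∀ n : ℕ, n1 ≤ n → Real.exp (-(C2 * LL n)) ≤ s n →
        Real.exp (-(C2 * LL (n + 1))) ≤ s (n + 1) →
        |Real.log (s (n + 1)) - Real.log (s n)| ≤ 1 ∧
        (Real.log (s (n + 1)) - Real.log (s n)) - (9 * K + 8) / n ≤
          Real.log (s (n + 2)) - Real.log (s (n + 1)) := by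
  obtain ⟨C3, hC3, n1, hr⟩ := ratio_lemma K C1 C2 hK hC1 hC2
  have ev1 : ∀ᶠ n : ℕ in atTop, Real.log n / √n < 1 / (4 * C3 ^ 2) :=
    tend_log.eventually_lt_const (by positivity)
  obtain ⟨n2, hn2⟩ := eventually_atTop.1 (ev1.and ((err_ev C2 hC2).and
    (eventually_ge_atTop (max 60 ⌈8 * (K + 1)⌉₊))))
  refine ⟨max n1 n2, fun s hs0 hup hkey n hn hlow hlow1 => ?_⟩
  have hna : n1 ≤ n := le_trans (le_max_left _ _) hn
  have hnb : n2 ≤ n := le_trans (le_max_right _ _) hn
  obtain ⟨e1, e2, e3⟩ := hn2 n hnb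
  obtain ⟨e1', -, -⟩ := hn2 (n + 1) (by omega)
  have hn60 : 60 ≤ n := le_trans (le_max_left _ _) e3
  have hnK : 8 * (K + 1) ≤ n := by
    have : ⌈8 * (K + 1)⌉₊ ≤ n := le_trans (le_max_right _ _) e3
    exact (Nat.le_ceil _).trans (by exact_mod_cast this)
  have hn0 : (0 : ℝ) < n := by
    have : 0 < n := by omega
    exact_mod_cast this
  have hη : ∀ m : ℕ, 60 ≤ m → Real.log m / √m < 1 / (4 * C3 ^ 2) →
      C3 * √(Real.log m / √m) ≤ 1 / 2 := by
    intro m hm h
    have hm0 : (1 : ℝ) ≤ m := by exact_mod_cast (by omega : 1 ≤ m)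
    have hq0 : 0 ≤ Real.log m / √(m : ℝ) := div_nonneg (Real.log_nonneg hm0) (Real.sqrt_nonneg _)
    have h1 : (C3 * √(Real.log m / √m)) ^ 2 ≤ (1 / 2) ^ 2 := by
      rw [mul_pow, Real.sq_sqrt hq0]
      have h2 := mul_le_mul_of_nonneg_left h.le (sq_nonneg C3)
      have h3 : C3 ^ 2 * (1 / (4 * C3 ^ 2)) = 1 / 4 := by field_simp
      rw [h3] at h2
      linarith
    exact le_of_sq_le_sq h1 (by norm_num)
  have hsn : 0 < s n := lt_of_lt_of_le (Real.exp_pos _) hlow
  have hsn1 : 0 < s (n + 1) := lt_of_lt_of_le (Real.exp_pos _) hlow1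
  have r0 := hr s hs0 hup hkey n hna hlow
  have r1 := hr s hs0 hup hkey (n + 1) (by omega) hlow1
  have h0 : |s (n + 1) - s n| ≤ 1 / 2 * s n :=
    r0.trans (mul_le_mul_of_nonneg_right (hη n hn60 e1) hsn.le)
  have h1 : |s (n + 2) - s (n + 1)| ≤ 1 / 2 * s (n + 1) :=
    r1.trans (mul_le_mul_of_nonneg_right (hη (n + 1) (by omega) e1') hsn1.le)
  rw [abs_le] at h0 h1
  have hsn2 : 0 < s (n + 2) := by linarith [h1.1]
  refine ⟨?_, ?_⟩
  · rw [← Real.log_div hsn1.ne' hsn.ne', abs_le]
    have h2 : Real.exp (-1) ≤ s (n + 1) / s n := by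
      rw [le_div_iff₀ hsn]
      have h3 : Real.exp (-1) ≤ 1 / 2 := by
        rw [Real.exp_neg, inv_le_comm₀ (Real.exp_pos _) (by norm_num)]
        have := Real.exp_one_gt_d9
        linarith
      nlinarith [h0.1]
    have h3 : s (n + 1) / s n ≤ Real.exp 1 := by
      rw [div_le_iff₀ hsn]
      have := Real.exp_one_gt_d9
      nlinarith [h0.2]
    constructor
    · rw [Real.le_log_iff_exp_le (div_pos hsn1 hsn)]
      exact h2
    · rw [Real.log_le_iff_le_exp (div_pos hsn1 hsn)]
      exact h3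
  · obtain ⟨P, hP1, hP2⟩ := hkey n hn60
    set t : ℝ := 1 / n with ht
    have ht0 : 0 < t := by positivity
    have hKt : K / n = K * t := by rw [ht]; ring
    have hF : 23 * (997 / 1000 : ℝ) ^ n ≤ 2 * t * s (n + 1) := by
      refine e2.trans ?_
      have h2 : s n ≤ 2 * s (n + 1) := by linarith [h0.1]
      calc Real.exp (-(C2 * LL n)) / n ≤ s n / n := div_le_div_of_nonneg_right hlow hn0.le
        _ ≤ (2 * s (n + 1)) / n := div_le_div_of_nonneg_right h2 hn0.le
        _ = _ := by rw [ht]; ring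
    have h8t : (K + 1) * t ≤ 1 / 8 := by
      rw [ht, mul_one_div, div_le_iff₀ hn0]
      linarith
    have hKt0 : 0 ≤ K * t := mul_nonneg hK ht0.le
    have hPlow : (1 - (K + 2) * t) * s (n + 1) ≤ P := by
      refine le_trans ?_ hP1
      rw [hKt]
      nlinarith
    have hpos : 0 ≤ 1 - (K + 2) * t := by nlinarith
    have e4 : ((1 - (K + 2) * t) * s (n + 1)) ^ 2 ≤ P ^ 2 :=
      pow_le_pow_left₀ (mul_nonneg hpos hsn1.le) hPlow 2
    have e5 : (1 + K * t) * s (n + 2) + K * t * s n ≤ (1 + 5 * (K * t)) * s (n + 2) := by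
      have h2 : s n ≤ 4 * s (n + 2) := by linarith [h0.1, h1.1]
      have h3 := mul_le_mul_of_nonneg_left h2 hKt0
      nlinarith
    have e6 : (1 - (K + 2) * t) ^ 2 * s (n + 1) ^ 2 ≤ s n * s (n + 2) * (1 + 5 * (K * t)) := by
      rw [hKt] at hP2
      calc _ = ((1 - (K + 2) * t) * s (n + 1)) ^ 2 := by ring
        _ ≤ s n * ((1 + K * t) * s (n + 2) + K * t * s n) := e4.trans hP2
        _ ≤ s n * ((1 + 5 * (K * t)) * s (n + 2)) := mul_le_mul_of_nonneg_left e5 hsn.le
        _ = _ := by ring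
    have hq : 0 < 1 - (K + 2) * t := by nlinarith
    have h5K : 0 < 1 + 5 * (K * t) := by linarith
    have e7 := Real.log_le_log (by positivity) e6
    rw [Real.log_mul (by positivity) (by positivity), Real.log_pow, Real.log_pow,
      Real.log_mul (by positivity) (by positivity), Real.log_mul hsn.ne' hsn2.ne'] at e7
    have e8 : Real.log (1 + 5 * (K * t)) ≤ 5 * (K * t) := by
      have := Real.log_le_sub_one_of_pos h5K
      linarith
    have e9 : -(2 * ((K + 2) * t)) ≤ Real.log (1 - (K + 2) * t) := by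
      have h2 := Real.one_sub_inv_le_log_of_pos hq
      refine le_trans ?_ h2
      have h3 : (1 - (K + 2) * t)⁻¹ ≤ 1 + 2 * ((K + 2) * t) := by
        rw [inv_le_comm₀ hq (by positivity), inv_le_iff_one_le_mul₀ (by positivity)]
        have h4 : (K + 2) * t ≤ 1 / 4 := by nlinarith
        have h5 : 0 ≤ (K + 2) * t := by positivity
        nlinarith
      linarith
    have e10 : (9 * K + 8) / n = 9 * (K * t) + 8 * t := by
      rw [ht]
      ring
    rw [e10]
    push_cast at e7
    nlinarith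

end Pool.Agent.Lib.MP_c23e5f_coR
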