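import Pool.Agent.Lib.MP_c23e5f_coR.R8Avg

set_option autoImplicit false

/-!
# MP_c23e5f_co, regularity of the mean width: the theorem on the average increments
-/

namespace Pool.Agent.Lib.MP_c23e5f_coR

open Pool.Agent.Lib.MP_c23e5f_co
open scoped ENNReal
open Filter Topology

/-- the mean width -/
noncomputable def Wm (n : ℕ) : ℝ := mean n (fun k => (k : ℝ))

lemma Wm_le {n : ℕ} (hn : 1 ≤ n) : Wm n ≤ n := by
  have h1 : Wm n = mean n (fun k => min (k : ℝ) n) := by
    apply mean_congr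
    intro k hk
    rw [min_eq_left]
    exact_mod_cast hk
  rw [h1, mean_eq hn]
  apply div_le_of_le_mul₀ (Nat.cast_nonneg _) (Nat.cast_nonneg _)
  unfold AA
  calc ∑ w ∈ LW (2 * n), min ((wd w : ℕ) : ℝ) n ≤ ∑ _w ∈ LW (2 * n), (n : ℝ) :=
        Finset.sum_le_sum (fun w _ => min_le_right _ _)
    _ = _ := by
        rw [Finset.sum_const, nsmul_eq_mul, mul_comm]

lemma sum_abs_second {d : ℕ → ℝ} {N : ℕ} {c : ℝ} (hN : 1 ≤ N)
    (h1 : |d N| ≤ 1) (h2 : |d (3 * N)| ≤ 1)
    (h3 : ∀ m ∈ Finset.Ico N (3 * N), -(c / N) ≤ d (m + 1) - d m) (hc : 0 ≤ c) :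
    ∑ m ∈ Finset.Ico N (3 * N), |d (m + 1) - d m| ≤ 2 + 4 * c := by
  have hN0 : (0 : ℝ) < N := by exact_mod_cast hN
  have h4 : ∀ m ∈ Finset.Ico N (3 * N), |d (m + 1) - d m| ≤ (d (m + 1) - d m) + 2 * (c / N) := by
    intro m hm
    have h5 := h3 m hm
    have h6 : 0 ≤ c / N := by positivity
    rw [abs_le]
    constructor <;> linarith
  refine (Finset.sum_le_sum h4).trans ?_
  rw [Finset.sum_add_distrib, Finset.sum_Ico_sub d (by omega), Finset.sum_const, Nat.card_Ico,
    nsmul_eq_mul]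
  have e : ((3 * N - N : ℕ) : ℝ) * (2 * (c / N)) = 4 * c := by
    rw [show 3 * N - N = 2 * N by omega]
    push_cast
    field_simp
    ring
  rw [e]
  rw [abs_le] at h1 h2
  linarith [h1.1, h2.2]

theorem avg_large : ∃ C : ℝ, 0 < C ∧ ∃ N0 : ℕ, ∀ N : ℕ, N0 ≤ N →
    ∑ n ∈ Finset.Ico N (2 * N), |Real.log (Wm (n + 1)) - Real.log (Wm n)| ≤
      C * √(N * Real.log N) := by
  obtain ⟨x, hx⟩ := exists_crit
  obtain ⟨C0, hC0, hlow⟩ := loops_lower'
  obtain ⟨n1, hr⟩ := second_diff 2304000 36 (3 * C0 + 1) (by norm_num) (by norm_num)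
    (by positivity)
  obtain ⟨n3, hW⟩ := W.final_two
  have hX0 : 0 ≤ x.toReal := ENNReal.toReal_nonneg
  have hXpos : 0 < x.toReal := by
    have h1 := hx.quarter_le
    have h2 : x ≠ ⊤ := ne_top_of_le_ne_top ENNReal.one_ne_top hx.le_one
    apply ENNReal.toReal_pos _ h2
    intro h0
    rw [h0] at h1
    simp at h1
  set X := x.toReal with hX
  set c : ℝ := 9 * 2304000 + 8 with hc
  have hc0 : 0 < c := by rw [hc]; norm_num
  set T : ℝ := (2 + 4 * c) + (2 + 4 * c) with hT
  have hT0 : 0 < T := by positivity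
  refine ⟨18 + 2 * T, by positivity, max (max n1 n3) 4, fun N hN => ?_⟩
  have hNa : n1 ≤ N := le_trans (le_max_left _ _) (le_trans (le_max_left _ _) hN)
  have hNb : n3 ≤ N := le_trans (le_max_right _ _) (le_trans (le_max_left _ _) hN)
  have hN4 : 4 ≤ N := le_trans (le_max_right _ _) hN
  have hN4r : (4 : ℝ) ≤ N := by exact_mod_cast hN4
  have hN0 : (0 : ℝ) < N := by linarith
  have hlog1 : 1 ≤ Real.log N := by
    rw [Real.le_log_iff_exp_le hN0]
    have := Real.exp_one_lt_d9
    linarith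
  -- the number of the loops
  have hupper : ∀ ψ : ℕ → ℝ, (∀ k, ψ k ≤ 1) → ∀ m, 2 ≤ m → ss X ψ m ≤ Real.exp (36 * LL m) := by
    intro ψ hψ m hm
    have h1 : ss X ψ m ≤ X ^ (2 * m) * (LW (2 * m)).card :=
      mul_le_mul_of_nonneg_left (AA_le hψ _) (pow_nonneg hX0 _)
    refine h1.trans ?_
    rw [mul_comm]
    refine (loops_upper hx (N := 2 * m) (by omega)).trans (Real.exp_le_exp.2 ?_)
    have h2 := LL_le (m := 2 * m) (n := m) (by omega) le_rfl hm
    have h3 : √((2 * m : ℕ) : ℝ) * Real.log ((2 * m : ℕ) : ℝ) = LL (2 * m) := rfl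
    rw [h3]
    linarith
  have hcardlow : ∀ n, 2 ≤ n →
      Real.exp (-(3 * C0 * LL n)) ≤ ((LW (2 * n)).card : ℝ) * X ^ (2 * n) := by
    intro n hn
    have hL2 : LL (2 * n) ≤ 3 * LL n := LL_le (m := 2 * n) (n := n) (by omega) le_rfl hn
    refine le_trans (Real.exp_le_exp.2 ?_) (hlow x hx (2 * n) ⟨n, by ring⟩ (by omega))
    have h3 : √((2 * n : ℕ) : ℝ) * Real.log ((2 * n : ℕ) : ℝ) = LL (2 * n) := rfl
    rw [h3]
    have := mul_le_mul_of_nonneg_left hL2 hC0.le
    linarith
  have hcardpos : ∀ m, 2 ≤ m → 0 < ((LW (2 * m)).card : ℝ) := by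
    intro m hm
    have h2 := lt_of_lt_of_le (Real.exp_pos _) (hcardlow m hm)
    rcases (Nat.cast_nonneg (α := ℝ) (LW (2 * m)).card).eq_or_lt with h3 | h3
    · rw [← h3, zero_mul] at h2
      exact absurd h2 (lt_irrefl _)
    · exact h3
  have hW1 : ∀ n, N ≤ n → 1 ≤ Wm n := by
    intro n hn
    have h1 := hW n (by omega)
    have h2 : (1 : ℝ) ≤ √(n : ℝ) := by
      rw [Real.one_le_sqrt]
      exact_mod_cast (by omega : 1 ≤ n)
    have h3 : 2 * √(n : ℝ) ≤ Wm n := h1
    linarith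
  -- the two functions
  set one : ℕ → ℝ := fun _ => 1 with hone
  set D : ℝ := 3 * N + 2 with hD
  have hD0 : 0 < D := by positivity
  set φ : ℕ → ℝ := fun k => min ((k : ℝ) / D) 1 with hφ
  have hφ0 : ∀ k, 0 ≤ φ k := fun k => le_min (by positivity) zero_le_one
  have hφ1 : ∀ k, φ k ≤ 1 := fun k => min_le_right _ _
  have hA1 : ∀ M, AA one M = (LW M).card := by
    intro M
    simp [AA, hone]
  have hs1 : ∀ m, ss X one m = X ^ (2 * m) * (LW (2 * m)).card := by
    intro m
    rw [ss, hA1]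
  have hmean : ∀ n, 2 ≤ n → n ≤ 3 * N + 2 → AA φ (2 * n) = Wm n / D * (LW (2 * n)).card := by
    intro n hn hn3
    have h1 : mean n φ = mean n (fun k => (k : ℝ) / D) := by
      apply mean_congr
      intro k hk
      simp only [hφ]
      rw [min_eq_left]
      rw [div_le_one hD0, hD]
      have : k ≤ 3 * N + 2 := by omega
      exact_mod_cast this
    have h2 : mean n (fun k => (k : ℝ) / D) = Wm n / D := by
      rw [Wm, mean_eq (by omega), mean_eq (by omega), AA, AA, ← Finset.sum_div]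
      ring
    rw [mean_eq (by omega), h2, div_eq_iff (hcardpos n hn).ne'] at h1
    exact h1
  have hsφ : ∀ n, 2 ≤ n → n ≤ 3 * N + 2 → ss X φ n = Wm n / D * ss X one n := by
    intro n hn hn3
    rw [ss, hmean n hn hn3, hs1]
    ring
  have hsone : ∀ n, 2 ≤ n → 0 < ss X one n := by
    intro n hn
    rw [hs1]
    exact mul_pos (pow_pos hXpos _) (hcardpos n hn)
  have hL0 : ∀ n, N ≤ n → 2 * Real.log N ≤ LL n := by
    intro n hn
    have hnr : (N : ℝ) ≤ n := by exact_mod_cast hn
    have h1 : (2 : ℝ) ≤ √(n : ℝ) := by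
      apply Real.le_sqrt_of_sq_le
      norm_num
      linarith
    have h2 : Real.log N ≤ Real.log n := Real.log_le_log hN0 hnr
    unfold LL
    exact mul_le_mul h1 h2 (by linarith) (by linarith)
  have lowone : ∀ n, N ≤ n → Real.exp (-((3 * C0 + 1) * LL n)) ≤ ss X one n := by
    intro n hn
    rw [hs1, mul_comm (X ^ (2 * n))]
    refine le_trans (Real.exp_le_exp.2 ?_) (hcardlow n (by omega))
    have := hL0 n hn
    nlinarith
  have lowφ : ∀ n, N ≤ n → n ≤ 3 * N + 2 → Real.exp (-((3 * C0 + 1) * LL n)) ≤ ss X φ n := by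
    intro n hn hn3
    rw [hsφ n (by omega) hn3]
    have h1 : Real.exp (-LL n) ≤ Wm n / D := by
      rw [le_div_iff₀ hD0]
      refine le_trans ?_ (hW1 n hn)
      have h2 : D ≤ Real.exp (2 * Real.log N) := by
        rw [two_mul, Real.exp_add, Real.exp_log hN0, hD]
        nlinarith
      have h3 : Real.exp (2 * Real.log N) ≤ Real.exp (LL n) := Real.exp_le_exp.2 (hL0 n hn)
      calc Real.exp (-LL n) * D ≤ Real.exp (-LL n) * Real.exp (LL n) :=
            mul_le_mul_of_nonneg_left (h2.trans h3) (Real.exp_pos _).le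
        _ = 1 := by rw [← Real.exp_add]; simp
    have h2 : Real.exp (-(3 * C0 * LL n)) ≤ ss X one n := by
      rw [hs1, mul_comm (X ^ (2 * n))]
      exact hcardlow n (by omega)
    calc Real.exp (-((3 * C0 + 1) * LL n)) = Real.exp (-LL n) * Real.exp (-(3 * C0 * LL n)) := by
          rw [← Real.exp_add]
          congr 1
          ring
      _ ≤ _ := mul_le_mul h1 h2 (Real.exp_pos _).le ((Real.exp_pos _).le.trans h1)
  -- the second differences
  set d : ℕ → ℝ := fun m => Real.log (ss X φ (m + 1)) - Real.log (ss X φ m) with hd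
  set e : ℕ → ℝ := fun m => Real.log (ss X one (m + 1)) - Real.log (ss X one m) with he
  have rφ := fun n (hn : N ≤ n) (hn3 : n ≤ 3 * N) => hr (ss X φ) (ss_nonneg hX0 hφ0)
    (hupper φ hφ1) (fun m hm => key_ineq hx hφ0 hφ1 hm) n (by omega)
    (lowφ n hn (by omega)) (lowφ (n + 1) (by omega) (by omega))
  have rone := fun n (hn : N ≤ n) => hr (ss X one)
    (ss_nonneg hX0 (fun _ => by simp [hone])) (hupper one (fun _ => le_rfl))
    (fun m hm => key_ineq hx (fun _ => by simp [hone]) (fun _ => le_rfl) hm) n (by omega)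
    (lowone n hn) (lowone (n + 1) (by omega))
  have hcm : ∀ m : ℕ, N ≤ m → c / m ≤ c / N := by
    intro m hm
    exact div_le_div_of_nonneg_left hc0.le hN0 (by exact_mod_cast hm)
  have Td : ∑ m ∈ Finset.Ico N (3 * N), |d (m + 1) - d m| ≤ 2 + 4 * c := by
    apply sum_abs_second (by omega) (rφ N le_rfl (by omega)).1 (rφ (3 * N) (by omega) le_rfl).1
      _ hc0.le
    intro m hm
    rw [Finset.mem_Ico] at hm
    have h1 := (rφ m hm.1 (by omega)).2
    have h2 := hcm m hm.1
    simp only [hd]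
    linarith
  have Te : ∑ m ∈ Finset.Ico N (3 * N), |e (m + 1) - e m| ≤ 2 + 4 * c := by
    apply sum_abs_second (by omega) (rone N le_rfl).1 (rone (3 * N) (by omega)).1 _ hc0.le
    intro m hm
    rw [Finset.mem_Ico] at hm
    have h1 := (rone m hm.1).2
    have h2 := hcm m hm.1
    simp only [he]
    linarith
  -- the logarithm of the mean width
  set r : ℕ → ℝ := fun n => Real.log (Wm n) with hrdef
  have hrs : ∀ n, N ≤ n → n ≤ 3 * N + 2 →
      r n = Real.log (ss X φ n) - Real.log (ss X one n) + Real.log D := by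
    intro n hn hn3
    have h1 : 0 < Wm n := lt_of_lt_of_le one_pos (hW1 n hn)
    have h2 := hsone n (by omega)
    rw [hsφ n (by omega) hn3, Real.log_mul (by positivity) h2.ne', Real.log_div h1.ne' hD0.ne']
    simp only [hrdef]
    ring
  have hTr : ∑ m ∈ Finset.Ico N (3 * N), |(r (m + 2) - r (m + 1)) - (r (m + 1) - r m)| ≤ T := by
    calc ∑ m ∈ Finset.Ico N (3 * N), |(r (m + 2) - r (m + 1)) - (r (m + 1) - r m)|
        ≤ ∑ m ∈ Finset.Ico N (3 * N), (|d (m + 1) - d m| + |e (m + 1) - e m|) := by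
          apply Finset.sum_le_sum
          intro m hm
          rw [Finset.mem_Ico] at hm
          have e1 : (r (m + 2) - r (m + 1)) - (r (m + 1) - r m) =
              (d (m + 1) - d m) - (e (m + 1) - e m) := by
            rw [hrs (m + 2) (by omega) (by omega), hrs (m + 1) (by omega) (by omega),
              hrs m hm.1 (by omega)]
            simp only [hd, he]
            ring
          rw [e1]
          exact abs_sub _ _
      _ ≤ T := by
          rw [Finset.sum_add_distrib]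
          exact add_le_add Td Te
  have hlogN : Real.log N ≤ N := (Real.log_le_sub_one_of_pos hN0).trans (by linarith)
  set y : ℝ := √(N * Real.log N) with hy
  have hy1 : 1 ≤ y := by
    rw [hy, Real.one_le_sqrt]
    nlinarith
  have hyN : y ≤ N := by
    rw [hy]
    apply Real.sqrt_le_iff.2
    exact ⟨hN0.le, by nlinarith⟩
  have hy2 : y ^ 2 = N * Real.log N := Real.sq_sqrt (by positivity)
  set l : ℕ := ⌈y⌉₊ with hl
  have hl1 : 1 ≤ l := Nat.one_le_ceil_iff.2 (by linarith)
  have hlN : l ≤ N := Nat.ceil_le.2 hyN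
  have hly : y ≤ l := Nat.le_ceil y
  have hly2 : (l : ℝ) ≤ 2 * y := by
    have := Nat.ceil_lt_add_one (show 0 ≤ y by linarith)
    linarith
  have hrR : ∀ m, N ≤ m → m ≤ 3 * N → |r m| ≤ 3 * Real.log N := by
    intro m hm hm3
    have h1 := hW1 m hm
    have h2 : Wm m ≤ 3 * N := by
      refine (Wm_le (n := m) (by omega)).trans ?_
      exact_mod_cast hm3
    have h3 : 0 ≤ r m := Real.log_nonneg h1
    rw [abs_of_nonneg h3]
    have h4 : r m ≤ Real.log ((N : ℝ) ^ 3) := by
      apply Real.log_le_log (by linarith)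
      refine h2.trans ?_
      nlinarith [sq_nonneg (N : ℝ)]
    rwa [Real.log_pow] at h4
  have key := sum_diff_le hl1 hlN hrR hTr
  refine key.trans ?_
  have hl0 : (0 : ℝ) < l := by linarith
  have k1 : 2 * (3 * Real.log N) * N / l ≤ 6 * y := by
    rw [div_le_iff₀ hl0]
    have h1 : 6 * y * y ≤ 6 * y * l := mul_le_mul_of_nonneg_left hly (by linarith)
    have h2 : 2 * (3 * Real.log N) * N = 6 * y * y := by
      rw [mul_assoc 6 y y, ← pow_two, hy2]
      ring
    linarith
  have k2 : (l : ℝ) * T ≤ 2 * y * T := mul_le_mul_of_nonneg_right hly2 hT0.le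
  nlinarith

/-- the average increments of the logarithm of the mean width -/
theorem avg_final : ∃ C : ℝ, 0 < C ∧ ∀ N : ℕ, 2 ≤ N →
    ∑ n ∈ Finset.Ico N (2 * N), |Real.log (Wm (n + 1)) - Real.log (Wm n)| ≤
      C * √(N * Real.log N) := by
  obtain ⟨C, hC, N0, h⟩ := avg_large
  set F : ℕ → ℝ := fun N => ∑ n ∈ Finset.Ico N (2 * N),
    |Real.log (Wm (n + 1)) - Real.log (Wm n)| with hF
  have hF0 : ∀ N, 0 ≤ F N := fun N => Finset.sum_nonneg (fun _ _ => abs_nonneg _)
  refine ⟨max C (∑ N ∈ Finset.range N0, F N), lt_max_of_lt_left hC, fun N hN => ?_⟩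
  have hN2 : (2 : ℝ) ≤ N := by exact_mod_cast hN
  have hlog2 := Real.log_two_gt_d9
  have hlogN : Real.log 2 ≤ Real.log N := Real.log_le_log (by norm_num) hN2
  have hy1 : 1 ≤ √(N * Real.log N) := by
    rw [Real.one_le_sqrt]
    nlinarith
  rcases Nat.lt_or_ge N N0 with hlt | hge
  · have h1 : F N ≤ ∑ N ∈ Finset.range N0, F N :=
      Finset.single_le_sum (f := F) (fun i _ => hF0 i) (Finset.mem_range.2 hlt)
    have h2 : F N ≤ max C (∑ N ∈ Finset.range N0, F N) := h1.trans (le_max_right _ _)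
    have h3 : 0 ≤ max C (∑ N ∈ Finset.range N0, F N) := (hF0 N).trans h2
    calc F N ≤ max C (∑ N ∈ Finset.range N0, F N) := h2
      _ = max C (∑ N ∈ Finset.range N0, F N) * 1 := (mul_one _).symm
      _ ≤ _ := mul_le_mul_of_nonneg_left hy1 h3
  · refine (h N hge).trans ?_
    exact mul_le_mul_of_nonneg_right (le_max_left _ _) (Real.sqrt_nonneg _)

end Pool.Agent.Lib.MP_c23e5f_coR
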